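import Pool.Agent.H44.SD.TriPts

/-!
Project SD (MP_43ee49_co), helper44, module BadCount: the number of bad grid directions for a pair of
coordinates.

`z : Fin n → Fin K`, `w z k = c k + s * z k / K`. Claim: the number of `z` such that `w z` is bad for
`(i, j)` (with height `h`) is at most `11943936 X^6 h^2 / (α^4 s^2) * K^n`.

Proof. Let `r = α / (12 X)`, so `r ≤ X` (hypothesis `hαX`). For every bad `z` choose a triple `x_z` as in
`Bad`, with centroid coordinates `ca z = cen x_z i`, `cb z = cen x_z j` in `[-X, X]`, and the cell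
`(⌊2 ca / r⌋, ⌊2 cb / r⌋)`. The number of cells is at most `(4 X / r + 2)^2 ≤ (6 X / r)^2`.
If `z, z'` are bad, equal outside `i, j` and have the same cell then
`|ca z - ca z'| + |cb z - cb z'| ≤ r`, so by `bad_close` `s |z i - z' i| / K ≤ 24 h X / α`, i.e.
`|z i - z' i| ≤ D := 24 h X K / (α s)`, and the same for `j`. A set of pairs of integers `(z i, z j)` with
pairwise differences at most `D` in both coordinates has at most `(D + 1)^2 ≤ (2 D)^2` elements (`D ≥ 1`
by `hK`). The number of possible restrictions of `z` to the other coordinates is `K ^ (n - 2)`.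
Total: `K^(n-2) * (6 X / r)^2 * (2 D)^2 = K^n * 36 * 144^2 X^4... ` precisely
`(72 X^2 / α)^2 * (48 h X / (α s))^2 = 5184 * 2304 X^6 h^2 / (α^4 s^2) = 11943936 X^6 h^2 / (α^4 s^2)`.
For the count use for example `Finset.card_le_mul_card_image` with the map `z ↦ (z with the coordinates
i, j replaced by 0, cell)`; the image is in a product whose first factor
`{z | z i = 0, z j = 0}` has `K ^ (n - 2)` elements (`K ≥ 1`; if `K = 0` the set is empty), or multiply
by `K ^ 2` and use an injection.
-/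

namespace H44SD

open Finset

private theorem BadCount_diam {K : ℕ} (A : Finset (Fin K)) {D : ℝ} (hD : 0 ≤ D)
    (h : ∀ a ∈ A, ∀ b ∈ A, |((a : ℕ) : ℝ) - (b : ℕ)| ≤ D) : A.card ≤ ⌊D⌋₊ + 1 := by
  rcases A.eq_empty_or_nonempty with rfl | hne
  · simp
  · have h1 : ∀ a ∈ A, ((A.min' hne : Fin K) : ℕ) ≤ a ∧ (a : ℕ) - (A.min' hne : Fin K) ≤ ⌊D⌋₊ := by
      intro a ha
      have h2 : A.min' hne ≤ a := A.min'_le a ha
      have h3 : ((A.min' hne : Fin K) : ℕ) ≤ a := h2
      refine ⟨h3, ?_⟩
      rw [Nat.le_floor_iff hD, Nat.cast_sub h3]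
      exact (le_abs_self _).trans (h a ha _ (A.min'_mem hne))
    calc A.card ≤ (Finset.range (⌊D⌋₊ + 1)).card := by
          refine Finset.card_le_card_of_injOn (fun a => (a : ℕ) - (A.min' hne : Fin K)) ?_ ?_
          · intro a ha
            simp only [coe_range, Set.mem_Iio]
            have := (h1 a ha).2
            omega
          · intro a ha b hb hab
            have h4 := (h1 a ha).1
            have h5 := (h1 b hb).1
            apply Fin.ext
            simp only at hab
            omega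
      _ = ⌊D⌋₊ + 1 := card_range _

private theorem BadCount_Z {n K : ℕ} {i j : Fin n} (hij : i ≠ j) :
    ((univ : Finset (Fin n → Fin (K + 1))).filter (fun z => z i = 0 ∧ z j = 0)).card *
      ((K + 1) * (K + 1)) ≤ (K + 1) ^ n := by
  classical
  set Z0 := (univ : Finset (Fin n → Fin (K + 1))).filter (fun z => z i = 0 ∧ z j = 0) with hZ0
  have h1 : (Z0 ×ˢ ((univ : Finset (Fin (K + 1))) ×ˢ (univ : Finset (Fin (K + 1))))).card ≤
      (univ : Finset (Fin n → Fin (K + 1))).card := by
    refine Finset.card_le_card_of_injOn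
      (fun p => Function.update (Function.update p.1 i p.2.1) j p.2.2) (fun _ _ => by simp) ?_
    rintro ⟨z, a, b⟩ hz ⟨z', a', b'⟩ hz' hE
    simp only [coe_product, Set.mem_prod, mem_coe, hZ0, mem_filter, mem_univ, true_and,
      and_true] at hz hz'
    simp only at hE
    have hj := congrFun hE j
    have hi := congrFun hE i
    rw [Function.update_self, Function.update_self] at hj
    rw [Function.update_of_ne hij, Function.update_of_ne hij, Function.update_self,
      Function.update_self] at hi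
    have hz2 : z = z' := by
      funext k
      by_cases hki : k = i
      · rw [hki, hz.1, hz'.1]
      · by_cases hkj : k = j
        · rw [hkj, hz.2, hz'.2]
        · have hk := congrFun hE k
          rw [Function.update_of_ne hkj, Function.update_of_ne hkj, Function.update_of_ne hki,
            Function.update_of_ne hki] at hk
          exact hk
    rw [hz2, hi, hj]
  rw [card_product, card_product, card_univ, card_univ, Fintype.card_fin, Fintype.card_fun,
    Fintype.card_fin, Fintype.card_fin] at h1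
  exact h1

open Classical in
theorem bad_count {n K : ℕ} {V : Set (Fin n → ℝ)} {X α h s : ℝ}
    (hV : ∀ x ∈ V, ∀ k, |x k| ≤ X) (hX : 0 < X) (hα : 0 < α) (hαX : α ≤ 12 * X ^ 2) (hh : 0 < h)
    (hs : 0 < s) (hK : α * s ≤ 24 * h * X * K) {i j : Fin n} (hij : i ≠ j) (c : Fin n → ℝ) :
    (((univ : Finset (Fin n → Fin K)).filter
      (fun z => Bad V i j α h (fun k => c k + s * (z k : ℝ) / K))).card : ℝ) ≤
      11943936 * X ^ 6 * h ^ 2 / (α ^ 4 * s ^ 2) * (K : ℝ) ^ n := by
  obtain ⟨K', rfl⟩ : ∃ K', K = K' + 1 := by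
    rcases K with _ | K'
    · exfalso
      have : 0 < α * s := mul_pos hα hs
      simp at hK
      linarith
    · exact ⟨K', rfl⟩
  set K := K' + 1 with hKdef
  have hK0 : (0 : ℝ) < (K : ℝ) := by
    rw [hKdef]
    positivity
  set w : (Fin n → Fin K) → Fin n → ℝ := fun z k => c k + s * (z k : ℝ) / K with hw
  set S := (univ : Finset (Fin n → Fin K)).filter
      (fun z => Bad V i j α h (fun k => c k + s * (z k : ℝ) / K)) with hS
  have hch : ∀ z : Fin n → Fin K, ∃ x : Fin 3 → Fin n → ℝ, z ∈ S →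
      (∀ l, x l ∈ NearOpt V (w z) h) ∧ α ≤ |det3 i j x| := by
    intro z
    by_cases hz : z ∈ S
    · obtain ⟨x, hx⟩ := (mem_filter.1 hz).2
      exact ⟨x, fun _ => hx⟩
    · exact ⟨fun _ => 0, fun h' => absurd h' hz⟩
  choose x hx using hch
  set r : ℝ := α / (12 * X) with hr
  have hr0 : 0 < r := by positivity
  have hrX : r ≤ X := by
    rw [hr, div_le_iff₀ (by positivity)]
    nlinarith
  set D : ℝ := 24 * h * X * K / (α * s) with hD
  have hD1 : 1 ≤ D := by
    rw [hD, le_div_iff₀ (by positivity)]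
    linarith
  set Z0 := (univ : Finset (Fin n → Fin K)).filter (fun z => z i = 0 ∧ z j = 0) with hZ0
  set I := Finset.Icc ⌊-(2 * X / r)⌋ ⌊2 * X / r⌋ with hI
  set f : (Fin n → Fin K) → (Fin n → Fin K) × (ℤ × ℤ) := fun z =>
    (Function.update (Function.update z i 0) j 0, (⌊2 * cen (x z) i / r⌋, ⌊2 * cen (x z) j / r⌋))
    with hf
  have hcen : ∀ z ∈ S, ∀ k, |cen (x z) k| ≤ X := by
    intro z hz k
    have h1 := hV _ ((hx z hz).1 0).1 k
    have h2 := hV _ ((hx z hz).1 1).1 k
    have h3 := hV _ ((hx z hz).1 2).1 k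
    unfold cen
    rw [abs_le] at h1 h2 h3 ⊢
    constructor <;> linarith [h1.1, h1.2, h2.1, h2.2, h3.1, h3.2]
  have hIm : ∀ z ∈ S, ∀ k, ⌊2 * cen (x z) k / r⌋ ∈ I := by
    intro z hz k
    have h1 := abs_le.1 (hcen z hz k)
    rw [hI, mem_Icc]
    constructor
    · apply Int.floor_le_floor
      rw [← neg_div]
      apply div_le_div_of_nonneg_right _ hr0.le
      linarith [h1.1]
    · apply Int.floor_le_floor
      apply div_le_div_of_nonneg_right _ hr0.le
      linarith [h1.2]
  have hmaps : ∀ z ∈ S, f z ∈ Z0 ×ˢ (I ×ˢ I) := by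
    intro z hz
    simp only [hf, mem_product, hZ0, mem_filter, mem_univ, true_and]
    refine ⟨⟨?_, ?_⟩, hIm z hz i, hIm z hz j⟩
    · rw [Function.update_of_ne hij, Function.update_self]
    · rw [Function.update_self]
  have hclose : ∀ z ∈ S, ∀ z' ∈ S, f z = f z' →
      (∀ k, k ≠ i → k ≠ j → z k = z' k) ∧ |((z i : ℕ) : ℝ) - (z' i : ℕ)| ≤ D ∧
        |((z j : ℕ) : ℝ) - (z' j : ℕ)| ≤ D := by
    intro z hz z' hz' hE
    simp only [hf, Prod.mk.injEq] at hE
    obtain ⟨hE1, hE2, hE3⟩ := hE
    have hk : ∀ k, k ≠ i → k ≠ j → z k = z' k := by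
      intro k hki hkj
      have h1 := congrFun hE1 k
      rwa [Function.update_of_ne hkj, Function.update_of_ne hkj, Function.update_of_ne hki,
        Function.update_of_ne hki] at h1
    have hcc : ∀ k, ⌊2 * cen (x z) k / r⌋ = ⌊2 * cen (x z') k / r⌋ →
        |cen (x z) k - cen (x z') k| ≤ r / 2 := by
      intro k hfl
      have h1 := Int.abs_sub_lt_one_of_floor_eq_floor hfl
      have h2 : 2 * cen (x z) k / r - 2 * cen (x z') k / r =
          (cen (x z) k - cen (x z') k) * (2 / r) := by ring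
      rw [h2, abs_mul, abs_of_pos (by positivity : 0 < 2 / r), ← lt_div_iff₀ (by positivity)] at h1
      have h3 : 1 / (2 / r) = r / 2 := by
        field_simp
      rw [h3] at h1
      exact h1.le
    have hb := bad_close hV hX hα hij (w := w z) (w' := w z')
      (fun k hki hkj => by simp only [hw, hk k hki hkj]) (hx z hz).1 (hx z' hz').1 (hx z hz).2
      (hx z' hz').2 (by
        have h1 := hcc i hE2
        have h2 := hcc j hE3
        rw [← hr]
        linarith)
    have hconv : ∀ k, |w z k - w z' k| ≤ 24 * h * X / α →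
        |((z k : ℕ) : ℝ) - (z' k : ℕ)| ≤ D := by
      intro k h1
      have h2 : w z k - w z' k = (((z k : ℕ) : ℝ) - (z' k : ℕ)) * (s / K) := by
        simp only [hw]
        ring
      rw [h2, abs_mul, abs_of_pos (by positivity : 0 < s / (K : ℝ)),
        ← le_div_iff₀ (by positivity)] at h1
      have h3 : 24 * h * X / α / (s / K) = D := by
        rw [hD]
        field_simp
      rw [h3] at h1
      exact h1
    exact ⟨hk, hconv i hb.1, hconv j hb.2⟩
  have hfiber : ∀ b ∈ Z0 ×ˢ (I ×ˢ I), (S.filter fun z => f z = b).card ≤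
      (⌊D⌋₊ + 1) * (⌊D⌋₊ + 1) := by
    intro b _
    set F := S.filter fun z => f z = b with hF
    have hFm : ∀ z ∈ F, z ∈ S ∧ f z = b := fun z hz => mem_filter.1 hz
    calc F.card ≤ ((F.image fun z => z i) ×ˢ (F.image fun z => z j)).card := by
          refine Finset.card_le_card_of_injOn (fun z => (z i, z j)) ?_ ?_
          · intro z hz
            simp only [coe_product, Set.mem_prod, mem_coe, mem_image]
            exact ⟨⟨z, hz, rfl⟩, ⟨z, hz, rfl⟩⟩
          · intro z hz z' hz' hE
            simp only [Prod.mk.injEq] at hE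
            obtain ⟨h1, h2⟩ := hFm z hz
            obtain ⟨h3, h4⟩ := hFm z' hz'
            have h5 := (hclose z h1 z' h3 (h2.trans h4.symm)).1
            funext k
            by_cases hki : k = i
            · rw [hki]; exact hE.1
            · by_cases hkj : k = j
              · rw [hkj]; exact hE.2
              · exact h5 k hki hkj
      _ = (F.image fun z => z i).card * (F.image fun z => z j).card := card_product _ _
      _ ≤ (⌊D⌋₊ + 1) * (⌊D⌋₊ + 1) := by
          refine Nat.mul_le_mul ?_ ?_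
          · refine BadCount_diam _ (by linarith) ?_
            intro a ha a' ha'
            obtain ⟨z, hz, rfl⟩ := mem_image.1 ha
            obtain ⟨z', hz', rfl⟩ := mem_image.1 ha'
            obtain ⟨h1, h2⟩ := hFm z hz
            obtain ⟨h3, h4⟩ := hFm z' hz'
            exact (hclose z h1 z' h3 (h2.trans h4.symm)).2.1
          · refine BadCount_diam _ (by linarith) ?_
            intro a ha a' ha'
            obtain ⟨z, hz, rfl⟩ := mem_image.1 ha
            obtain ⟨z', hz', rfl⟩ := mem_image.1 ha'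
            obtain ⟨h1, h2⟩ := hFm z hz
            obtain ⟨h3, h4⟩ := hFm z' hz'
            exact (hclose z h1 z' h3 (h2.trans h4.symm)).2.2
  have hcount := Finset.card_le_mul_card_image_of_maps_to hmaps _ hfiber
  rw [card_product, card_product] at hcount
  -- real estimates
  have hIcard : (I.card : ℝ) ≤ 6 * X / r := by
    have h1 : 1 ≤ X / r := by
      rw [le_div_iff₀ hr0]
      linarith
    have h2 := Int.floor_le (2 * X / r)
    have h3 := Int.lt_floor_add_one (-(2 * X / r))
    have h4 : 0 ≤ 2 * X / r := by positivity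
    have h5 : ⌊-(2 * X / r)⌋ ≤ ⌊2 * X / r⌋ := Int.floor_le_floor (by linarith)
    rw [hI, Int.card_Icc]
    have h6 : (((⌊2 * X / r⌋ + 1 - ⌊-(2 * X / r)⌋).toNat : ℕ) : ℝ) =
        ((⌊2 * X / r⌋ + 1 - ⌊-(2 * X / r)⌋ : ℤ) : ℝ) := by
      have h7 : (((⌊2 * X / r⌋ + 1 - ⌊-(2 * X / r)⌋).toNat : ℕ) : ℤ) =
          ⌊2 * X / r⌋ + 1 - ⌊-(2 * X / r)⌋ := Int.toNat_of_nonneg (by omega)
      exact_mod_cast congrArg (Int.cast : ℤ → ℝ) h7
    rw [h6]
    push_cast
    have h8 : 6 * X / r = 6 * (X / r) := by ring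
    have h9 : 2 * X / r = 2 * (X / r) := by ring
    rw [h8]
    rw [h9] at h2 h3 h4 ⊢
    linarith
  have hDcard : (((⌊D⌋₊ + 1) : ℕ) : ℝ) ≤ 2 * D := by
    push_cast
    have := Nat.floor_le (by linarith : 0 ≤ D)
    linarith
  have hZcard : (Z0.card : ℝ) * (K : ℝ) ^ 2 ≤ (K : ℝ) ^ n := by
    have h1 := BadCount_Z (K := K') hij
    have h2 : ((Z0.card * (K * K) : ℕ) : ℝ) ≤ ((K ^ n : ℕ) : ℝ) := by exact_mod_cast h1
    push_cast at h2
    calc (Z0.card : ℝ) * (K : ℝ) ^ 2 = (Z0.card : ℝ) * ((K : ℝ) * K) := by ring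
      _ ≤ (K : ℝ) ^ n := by exact_mod_cast h2
  have hcount' : (S.card : ℝ) ≤ (((⌊D⌋₊ + 1) : ℕ) : ℝ) * (((⌊D⌋₊ + 1) : ℕ) : ℝ) *
      ((Z0.card : ℝ) * ((I.card : ℝ) * I.card)) := by exact_mod_cast hcount
  have hstep : (S.card : ℝ) * (K : ℝ) ^ 2 ≤
      (2 * D) * (2 * D) * ((6 * X / r) * (6 * X / r)) * (K : ℝ) ^ n := by
    have hD0 : 0 ≤ D := by linarith
    calc (S.card : ℝ) * (K : ℝ) ^ 2 ≤ ((((⌊D⌋₊ + 1) : ℕ) : ℝ) * (((⌊D⌋₊ + 1) : ℕ) : ℝ) *
        ((Z0.card : ℝ) * ((I.card : ℝ) * I.card))) * (K : ℝ) ^ 2 :=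
          mul_le_mul_of_nonneg_right hcount' (by positivity)
      _ = ((((⌊D⌋₊ + 1) : ℕ) : ℝ) * (((⌊D⌋₊ + 1) : ℕ) : ℝ)) * ((I.card : ℝ) * I.card) *
          ((Z0.card : ℝ) * (K : ℝ) ^ 2) := by ring
      _ ≤ ((2 * D) * (2 * D)) * ((6 * X / r) * (6 * X / r)) * (K : ℝ) ^ n := by
          gcongr
  have hval : (2 * D) * (2 * D) * ((6 * X / r) * (6 * X / r)) * (K : ℝ) ^ n =
      (11943936 * X ^ 6 * h ^ 2 / (α ^ 4 * s ^ 2) * (K : ℝ) ^ n) * (K : ℝ) ^ 2 := by
    rw [hD, hr]
    field_simp
    ring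
  rw [hval] at hstep
  exact le_of_mul_le_mul_right hstep (by positivity)

end H44SD
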