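import Pool.Agent.H44.SD.CellNT

/-!
Project SD (MP_43ee49_co), helper44, module BddProb: the polyhedron is bounded with high probability.

Hypothesis `2 ≤ m σ²`: the number of rows with `∑ k, Abar i k ^ 2 > σ²` is less than `1 / σ² ≤ m / 2`, so
the set `J` of rows with `∑ k, Abar i k ^ 2 ≤ σ ^ 2` has at least `m / 2` elements.
Let `G` be in the event: `|G i j| ≤ Λ`, `x ∈ poly B`, `B = pert Abar σ G`, `|x j| > 4 / σ` for some `j`.
Let `M = max |x j| > 4 / σ` and `u = x / M`, `max |u j| = 1`. Let `Γ` be the grid of `exists_grid` for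
`X = 1`, `δ = σ / (4 R)` (`≤ 1/4`), card `≤ (8 R / σ + 3) ^ n ≤ (11 R / σ) ^ n`, and `y ∈ Γ` with
`|u j - y j| ≤ δ`: `max |y j| ≥ 3/4`, so `9/16 ≤ ∑ y k ^ 2`. For every row
`dot (B i) y ≤ dot (B i) u + R δ ≤ 1 / M + σ / 4 ≤ σ / 2` (`row_l1`, `abs_dot_le`).
So the event is contained in the union over `y ∈ Γ` with `9/16 ≤ ∑ y k ^ 2` of
`{G | ∀ i, dot (B i) y ≤ σ / 2}`, of measure `≤ (199/200) ^ #J ≤ (199/200)^(m/2) ≤ exp(-m/400)`
(`pi_all_le`, `row_low`; `199/200 ≤ exp(-1/200)`).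
-/

namespace H44SD

open MeasureTheory Finset

private theorem BddProb_cardJ {m n : ℕ} (Abar : Fin m → Fin n → ℝ)
    (hA : ∑ i, ∑ j, Abar i j ^ 2 ≤ 1) {σ : ℝ} (hσ : 0 < σ) (hm : 2 ≤ m * σ ^ 2) :
    (m : ℝ) / 2 ≤ ((univ.filter (fun i => ∑ k, Abar i k ^ 2 ≤ σ ^ 2)).card : ℝ) := by
  classical
  have hσ2 : 0 < σ ^ 2 := by positivity
  have h1 := Finset.card_filter_add_card_filter_not (s := (univ : Finset (Fin m)))
    (fun i => ∑ k, Abar i k ^ 2 ≤ σ ^ 2)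
  rw [Finset.card_univ, Fintype.card_fin] at h1
  set a := (univ.filter (fun i => ∑ k, Abar i k ^ 2 ≤ σ ^ 2)).card with ha
  set b := (univ.filter (fun i => ¬ ∑ k, Abar i k ^ 2 ≤ σ ^ 2)).card with hb
  have h2 : (b : ℝ) * σ ^ 2 ≤ 1 := by
    calc (b : ℝ) * σ ^ 2 = ∑ _i ∈ univ.filter (fun i => ¬ ∑ k, Abar i k ^ 2 ≤ σ ^ 2), σ ^ 2 := by
          rw [Finset.sum_const, nsmul_eq_mul]
      _ ≤ ∑ i ∈ univ.filter (fun i => ¬ ∑ k, Abar i k ^ 2 ≤ σ ^ 2), ∑ k, Abar i k ^ 2 := by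
          refine Finset.sum_le_sum (fun i hi => ?_)
          exact (not_le.1 (Finset.mem_filter.1 hi).2).le
      _ ≤ ∑ i, ∑ k, Abar i k ^ 2 := by
          refine Finset.sum_le_sum_of_subset_of_nonneg (Finset.filter_subset _ _) ?_
          intro i _ _
          exact Finset.sum_nonneg (fun k _ => sq_nonneg _)
      _ ≤ 1 := hA
  have h3 : (a : ℝ) + b = m := by exact_mod_cast h1
  have h4 : (b : ℝ) * σ ^ 2 ≤ (m : ℝ) / 2 * σ ^ 2 := by nlinarith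
  have h5 : (b : ℝ) ≤ (m : ℝ) / 2 := le_of_mul_le_mul_right h4 hσ2
  linarith

theorem bdd_prob {m n : ℕ} (Abar : Fin m → Fin n → ℝ) (hA : ∑ i, ∑ j, Abar i j ^ 2 ≤ 1)
    {σ Λ R : ℝ} (hσ : 0 < σ) (hR : n * (1 + σ * Λ) ≤ R) (h1R : 1 ≤ R) (hσR : σ ≤ R)
    (hm : 2 ≤ m * σ ^ 2) :
    gm m n {G | (∀ i j, |G i j| ≤ Λ) ∧ ∃ x ∈ poly (pert Abar σ G), ∃ j, 4 / σ < |x j|} ≤
      ENNReal.ofReal ((11 * R / σ) ^ n * Real.exp (-(m : ℝ) / 400)) := by
  classical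
  have hR0 : 0 < R := by linarith
  have hδ : 0 < σ / (4 * R) := by positivity
  have hδ4 : σ / (4 * R) ≤ 1 / 4 := by
    rw [div_le_div_iff₀ (by positivity) (by norm_num)]
    linarith
  obtain ⟨Γ, hΓ, hΓ2⟩ := exists_grid n (X := 1) zero_le_one hδ
  set J := univ.filter (fun i => ∑ k, Abar i k ^ 2 ≤ σ ^ 2) with hJ
  have hJc : (m : ℝ) / 2 ≤ (J.card : ℝ) := BddProb_cardJ Abar hA hσ hm
  -- the measure of one event
  have hone : ∀ y : Fin n → ℝ, 9 / 16 ≤ ∑ k, y k ^ 2 →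
      gm m n {G | ∀ i, G i ∈ {g : Fin n → ℝ | ∑ k, (Abar i k + σ * g k) * y k ≤ σ / 2}} ≤
        ENNReal.ofReal (Real.exp (-(m : ℝ) / 400)) := by
    intro y hy
    have h1 := pi_all_le (rowm n) J
      (fun i => {g : Fin n → ℝ | ∑ k, (Abar i k + σ * g k) * y k ≤ σ / 2})
      (ENNReal.ofReal (199 / 200)) (fun j hj => row_low (Abar j) y hσ
        (Finset.mem_filter.1 hj).2 hy)
    rw [gm_eq]
    refine le_trans h1 ?_
    rw [← ENNReal.ofReal_pow (by norm_num)]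
    refine ENNReal.ofReal_le_ofReal ?_
    have h2 : (199 / 200 : ℝ) ≤ Real.exp (-(1 / 200)) := by
      have := Real.add_one_le_exp (-(1 / 200 : ℝ))
      linarith
    calc (199 / 200 : ℝ) ^ J.card ≤ Real.exp (-(1 / 200)) ^ J.card :=
          pow_le_pow_left₀ (by norm_num) h2 _
      _ = Real.exp (J.card * -(1 / 200)) := by rw [← Real.exp_nat_mul]
      _ ≤ Real.exp (-(m : ℝ) / 400) := by
          apply Real.exp_le_exp.2
          linarith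
  -- the inclusion
  have hsub : {G : Fin m → Fin n → ℝ | (∀ i j, |G i j| ≤ Λ) ∧
      ∃ x ∈ poly (pert Abar σ G), ∃ j, 4 / σ < |x j|} ⊆
      ⋃ y ∈ Γ.filter (fun y => 9 / 16 ≤ ∑ k, y k ^ 2),
        {G | ∀ i, G i ∈ {g : Fin n → ℝ | ∑ k, (Abar i k + σ * g k) * y k ≤ σ / 2}} := by
    rintro G ⟨hG, x, hx, j0, hj0⟩
    have : Nonempty (Fin n) := ⟨j0⟩
    obtain ⟨j1, hj1⟩ := Finite.exists_max (fun j => |x j|)
    have hM : 4 / σ < |x j1| := lt_of_lt_of_le hj0 (hj1 j0)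
    have h4σ : 0 < 4 / σ := by positivity
    have hM0 : 0 < |x j1| := lt_trans h4σ hM
    set M := |x j1| with hMdef
    have hu : ∀ j, |(M⁻¹ • x) j| ≤ 1 := by
      intro j
      rw [Pi.smul_apply, smul_eq_mul, abs_mul, abs_inv, abs_of_pos hM0, inv_mul_le_iff₀ hM0,
        mul_one]
      exact hj1 j
    obtain ⟨y, hy, hyx⟩ := hΓ2 (M⁻¹ • x) hu
    have hu1 : |(M⁻¹ • x) j1| = 1 := by
      rw [Pi.smul_apply, smul_eq_mul, abs_mul, abs_inv, abs_of_pos hM0]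
      exact inv_mul_cancel₀ hM0.ne'
    have hy1 : 3 / 4 ≤ |y j1| := by
      have h1 := hyx j1
      have h2 := abs_sub_abs_le_abs_sub ((M⁻¹ • x) j1) (y j1)
      rw [hu1] at h2
      linarith
    have hy2 : 9 / 16 ≤ ∑ k, y k ^ 2 := by
      have h1 : y j1 ^ 2 ≤ ∑ k, y k ^ 2 :=
        Finset.single_le_sum (f := fun k => y k ^ 2) (fun k _ => sq_nonneg _)
          (Finset.mem_univ j1)
      have h2 : (3 / 4) ^ 2 ≤ |y j1| ^ 2 := pow_le_pow_left₀ (by norm_num) hy1 2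
      rw [sq_abs] at h2
      linarith
    rw [Set.mem_iUnion₂]
    refine ⟨y, Finset.mem_filter.2 ⟨hy, hy2⟩, fun i => ?_⟩
    change dot (pert Abar σ G i) y ≤ σ / 2
    have hB := row_l1 Abar hA hσ hR hG i
    have h1 : dot (pert Abar σ G i) (M⁻¹ • x) ≤ M⁻¹ := by
      rw [dot_smul]
      have h3 : dot (pert Abar σ G i) x ≤ 1 := hx i
      calc M⁻¹ * dot (pert Abar σ G i) x ≤ M⁻¹ * 1 :=
            mul_le_mul_of_nonneg_left h3 (inv_nonneg.2 hM0.le)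
        _ = M⁻¹ := mul_one _
    have h2 : |dot (pert Abar σ G i) (M⁻¹ • x - y)| ≤ R * (σ / (4 * R)) := by
      refine le_trans (abs_dot_le _ _ (X := σ / (4 * R)) (fun j => hyx j)) ?_
      exact mul_le_mul_of_nonneg_right hB hδ.le
    have h3 : R * (σ / (4 * R)) = σ / 4 := by
      field_simp
    rw [h3, dot_sub] at h2
    have h4 : M⁻¹ ≤ σ / 4 := by
      rw [inv_le_comm₀ hM0 (by positivity), inv_div]
      exact hM.le
    have h5 := (abs_le.1 h2).1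
    linarith
  have hcard : (((Γ.filter (fun y => 9 / 16 ≤ ∑ k, y k ^ 2)).card : ℕ) : ℝ) ≤
      (11 * R / σ) ^ n := by
    refine le_trans (Nat.cast_le.2 (Finset.card_filter_le _ _)) (le_trans hΓ ?_)
    refine pow_le_pow_left₀ (by positivity) ?_ n
    have e1 : 2 * (1 : ℝ) / (σ / (4 * R)) = 8 * R / σ := by
      field_simp
      ring
    rw [e1]
    have e2 : 3 ≤ 3 * R / σ := by
      rw [le_div_iff₀ hσ]
      linarith
    have e3 : 11 * R / σ = 8 * R / σ + 3 * R / σ := by ring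
    rw [e3]
    linarith
  calc gm m n {G | (∀ i j, |G i j| ≤ Λ) ∧ ∃ x ∈ poly (pert Abar σ G), ∃ j, 4 / σ < |x j|}
      ≤ gm m n (⋃ y ∈ Γ.filter (fun y => 9 / 16 ≤ ∑ k, y k ^ 2),
        {G | ∀ i, G i ∈ {g : Fin n → ℝ | ∑ k, (Abar i k + σ * g k) * y k ≤ σ / 2}}) :=
        measure_mono hsub
    _ ≤ ∑ y ∈ Γ.filter (fun y => 9 / 16 ≤ ∑ k, y k ^ 2),
        gm m n {G | ∀ i, G i ∈ {g : Fin n → ℝ | ∑ k, (Abar i k + σ * g k) * y k ≤ σ / 2}} :=
        measure_biUnion_finset_le _ _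
    _ ≤ ∑ _y ∈ Γ.filter (fun y => 9 / 16 ≤ ∑ k, y k ^ 2),
        ENNReal.ofReal (Real.exp (-(m : ℝ) / 400)) :=
        Finset.sum_le_sum (fun y hy => hone y (Finset.mem_filter.1 hy).2)
    _ = ENNReal.ofReal (((Γ.filter (fun y => 9 / 16 ≤ ∑ k, y k ^ 2)).card : ℕ) : ℝ) *
        ENNReal.ofReal (Real.exp (-(m : ℝ) / 400)) := by
        rw [Finset.sum_const, nsmul_eq_mul, ENNReal.ofReal_natCast]
    _ = ENNReal.ofReal ((((Γ.filter (fun y => 9 / 16 ≤ ∑ k, y k ^ 2)).card : ℕ) : ℝ) *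
        Real.exp (-(m : ℝ) / 400)) := by
        rw [ENNReal.ofReal_mul (by positivity)]
    _ ≤ ENNReal.ofReal ((11 * R / σ) ^ n * Real.exp (-(m : ℝ) / 400)) := by
        refine ENNReal.ofReal_le_ofReal ?_
        exact mul_le_mul_of_nonneg_right hcard (Real.exp_pos _).le

end H44SD
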