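import Mathlib

/-!
Project SD (MP_43ee49_co), helper44, module Grid: a grid in a cube.

`Γ = {δ k | k ∈ ℤ^n, |k j| ≤ M}` with `M = ⌊X / δ + 1 / 2⌋`, as the image of `Fintype.piFinset` of integer
intervals: `(2 M + 1)^n ≤ (2 X / δ + 2)^n ≤ (2 X / δ + 3)^n` points; for `|x j| ≤ X` take
`k j = round (x j / δ)`: `|x j - δ k j| ≤ δ / 2` and `|k j| ≤ X / δ + 1 / 2`, so `|k j| ≤ M`.
Also record that the points are bounded: `|y j| ≤ X + δ`.
-/

namespace H44SD

theorem exists_grid (n : ℕ) {X δ : ℝ} (hX : 0 ≤ X) (hδ : 0 < δ) :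
    ∃ Γ : Finset (Fin n → ℝ), (Γ.card : ℝ) ≤ (2 * X / δ + 3) ^ n ∧
      ∀ x : Fin n → ℝ, (∀ j, |x j| ≤ X) → ∃ y ∈ Γ, ∀ j, |x j - y j| ≤ δ := by
  classical
  set M : ℤ := ⌊X / δ + 1 / 2⌋ with hM
  have hXδ : 0 ≤ X / δ := by positivity
  have hM0 : 0 ≤ M := Int.floor_nonneg.mpr (by linarith)
  set P : Finset (Fin n → ℤ) := Fintype.piFinset fun _ => Finset.Icc (-M) M with hP
  refine ⟨P.image fun k j => δ * (k j : ℝ), ?_, ?_⟩
  · have h1 : ((P.image fun k j => δ * (k j : ℝ)).card : ℝ) ≤ (P.card : ℝ) := by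
      exact_mod_cast Finset.card_image_le
    refine h1.trans ?_
    rw [hP, Fintype.card_piFinset]
    simp only [Int.card_Icc, Finset.prod_const, Finset.card_univ, Fintype.card_fin]
    push_cast
    apply pow_le_pow_left₀ (by positivity)
    have h2 : (((M + 1 - -M).toNat : ℕ) : ℝ) = 2 * (M : ℝ) + 1 := by
      have h3 : (((M + 1 - -M).toNat : ℕ) : ℤ) = 2 * M + 1 := by
        rw [Int.toNat_of_nonneg (by linarith)]
        ring
      exact_mod_cast h3
    rw [h2]
    have h4 : (M : ℝ) ≤ X / δ + 1 / 2 := Int.floor_le _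
    have h5 : 2 * X / δ = 2 * (X / δ) := by ring
    rw [h5]
    linarith
  · intro x hx
    refine ⟨fun j => δ * ((round (x j / δ) : ℤ) : ℝ), ?_, ?_⟩
    · rw [Finset.mem_image]
      refine ⟨fun j => round (x j / δ), ?_, rfl⟩
      rw [hP, Fintype.mem_piFinset]
      intro j
      rw [Finset.mem_Icc]
      have h1 := abs_sub_round (x j / δ)
      have h2 : |x j / δ| ≤ X / δ := by
        rw [abs_div, abs_of_pos hδ]
        gcongr
        exact hx j
      rw [abs_le] at h1 h2
      constructor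
      · have h3 : -round (x j / δ) ≤ M := by
          rw [hM, Int.le_floor]
          push_cast
          linarith
        linarith
      · rw [hM, Int.le_floor]
        linarith
    · intro j
      have h1 := abs_sub_round (x j / δ)
      have h2 : x j - δ * ((round (x j / δ) : ℤ) : ℝ) = δ * (x j / δ - round (x j / δ)) := by
        field_simp
      rw [h2, abs_mul, abs_of_pos hδ]
      nlinarith

end H44SD
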