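import Mathlib

/-!
Project SD (MP_43ee49_co), helper44, module PiCount: many rare events in a product.

`μ` a probability measure, `N j`, `Q j` measurable with `μ (N j) ≤ κ μ (Q j)ᶜ`. Then
`P(all G j ∈ Q j and at least q of the G j are in N j) ≤ κ ^ q`.
Proof. The event is contained in the union over the `q`-subsets `J` of `{G | ∀ j, G j ∈ E J j}` with
`E J j = N j` for `j ∈ J` and `E J j = Q j` for `j ∉ J`. By `Measure.pi_pi` its measure is
`∏_{j ∈ J} μ (N j) ∏_{j ∉ J} μ (Q j) ≤ κ ^ q ∏_{j ∈ J} μ (Q j)ᶜ ∏_{j ∉ J} μ (Q j)`. The sum over all `J ⊆ univ` of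
the last product is `∏_j (μ (Q j)ᶜ + μ (Q j)) = 1` (`Finset.prod_add`), and
`measure_biUnion_finset_le`.
-/

namespace H44SD

open MeasureTheory Finset

open Classical in
theorem pi_count {Ω : Type*} [MeasurableSpace Ω] (μ : Measure Ω) [IsProbabilityMeasure μ]
    {m : ℕ} (q : ℕ) (N Q : Fin m → Set Ω) (hN : ∀ j, MeasurableSet (N j))
    (hQ : ∀ j, MeasurableSet (Q j)) (κ : ENNReal) (h : ∀ j, μ (N j) ≤ κ * μ (Q j)ᶜ) :
    (Measure.pi fun _ : Fin m => μ)
      {G | (∀ j, G j ∈ Q j) ∧ q ≤ (univ.filter (fun j => G j ∈ N j)).card} ≤ κ ^ q := by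
  have _ := hN
  set E : Finset (Fin m) → Fin m → Set Ω := fun J j => if j ∈ J then N j else Q j with hE
  have hsub : {G : Fin m → Ω | (∀ j, G j ∈ Q j) ∧
      q ≤ (univ.filter (fun j => G j ∈ N j)).card} ⊆
      ⋃ J ∈ (powersetCard q (univ : Finset (Fin m))), Set.pi Set.univ (E J) := by
    rintro G ⟨h1, h2⟩
    obtain ⟨J, hJ1, hJ2⟩ := Finset.exists_subset_card_eq h2
    refine Set.mem_iUnion₂.mpr ⟨J, ?_, ?_⟩
    · rw [mem_powersetCard]
      exact ⟨subset_univ _, hJ2⟩
    · intro j _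
      simp only [hE]
      split_ifs with hj
      · have := hJ1 hj
        simpa using this
      · exact h1 j
  have hprod : ∀ J ∈ powersetCard q (univ : Finset (Fin m)),
      (Measure.pi fun _ : Fin m => μ) (Set.pi Set.univ (E J)) ≤
        κ ^ q * ((∏ j ∈ J, μ (Q j)ᶜ) * ∏ j ∈ univ \ J, μ (Q j)) := by
    intro J hJ
    rw [mem_powersetCard] at hJ
    rw [Measure.pi_pi]
    have h1 : ∏ j, μ (E J j) = (∏ j ∈ J, μ (N j)) * ∏ j ∈ univ \ J, μ (Q j) := by
      rw [← Finset.prod_sdiff (subset_univ J), mul_comm]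
      congr 1
      · refine Finset.prod_congr rfl fun j hj => ?_
        simp [hE, hj]
      · refine Finset.prod_congr rfl fun j hj => ?_
        have : j ∉ J := by simpa using hj
        simp [hE, this]
    rw [h1, ← mul_assoc]
    refine mul_le_mul' ?_ le_rfl
    calc ∏ j ∈ J, μ (N j) ≤ ∏ j ∈ J, (κ * μ (Q j)ᶜ) :=
          Finset.prod_le_prod' fun j _ => h j
      _ = κ ^ q * ∏ j ∈ J, μ (Q j)ᶜ := by
          rw [Finset.prod_mul_distrib, Finset.prod_const, hJ.2]
  refine (measure_mono hsub).trans ?_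
  calc (Measure.pi fun _ : Fin m => μ)
          (⋃ J ∈ (powersetCard q (univ : Finset (Fin m))), Set.pi Set.univ (E J))
      ≤ ∑ J ∈ powersetCard q (univ : Finset (Fin m)),
        (Measure.pi fun _ : Fin m => μ) (Set.pi Set.univ (E J)) :=
        measure_biUnion_finset_le _ _
    _ ≤ ∑ J ∈ powersetCard q (univ : Finset (Fin m)),
        κ ^ q * ((∏ j ∈ J, μ (Q j)ᶜ) * ∏ j ∈ univ \ J, μ (Q j)) :=
        Finset.sum_le_sum hprod
    _ ≤ ∑ J ∈ (univ : Finset (Fin m)).powerset,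
        κ ^ q * ((∏ j ∈ J, μ (Q j)ᶜ) * ∏ j ∈ univ \ J, μ (Q j)) := by
        refine Finset.sum_le_sum_of_subset ?_
        intro J hJ
        rw [mem_powersetCard] at hJ
        exact mem_powerset.mpr hJ.1
    _ = κ ^ q := by
        rw [← Finset.mul_sum, ← Finset.prod_add]
        have : ∀ j ∈ (univ : Finset (Fin m)), μ (Q j)ᶜ + μ (Q j) = 1 := by
          intro j _
          rw [add_comm, prob_add_prob_compl (hQ j)]
        rw [Finset.prod_congr rfl this]
        simp

/-- independent events: the product of the bounds over a set of indices -/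
theorem pi_all_le {Ω : Type*} [MeasurableSpace Ω] (μ : Measure Ω) [IsProbabilityMeasure μ]
    {m : ℕ} (J : Finset (Fin m)) (Q : Fin m → Set Ω) (κ : ENNReal)
    (h : ∀ j ∈ J, μ (Q j) ≤ κ) :
    (Measure.pi fun _ : Fin m => μ) {G | ∀ j, G j ∈ Q j} ≤ κ ^ J.card := by
  have h0 : {G : Fin m → Ω | ∀ j, G j ∈ Q j} = Set.pi Set.univ Q := by
    ext G; simp
  rw [h0, Measure.pi_pi, ← Finset.prod_sdiff (subset_univ J)]
  calc (∏ j ∈ univ \ J, μ (Q j)) * ∏ j ∈ J, μ (Q j)
      ≤ (∏ _j ∈ univ \ J, (1 : ENNReal)) * ∏ _j ∈ J, κ := by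
        refine mul_le_mul' ?_ ?_
        · exact Finset.prod_le_prod' fun j _ => prob_le_one
        · exact Finset.prod_le_prod' fun j hj => h j hj
    _ = κ ^ J.card := by simp

end H44SD
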