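import Pool.Agent.H44.SD.RowCmp
import Pool.Agent.H44.SD.PiCount
import Pool.Agent.H44.SD.Grid

/-!
Project SD (MP_43ee49_co), helper44, module CellNT: few rows are nearly tight (probability estimate).

Let `B = pert Abar σ G`. On the event `∀ i j, |G i j| ≤ Λ` every row has `∑ j, |B i j| ≤ n (1 + σ Λ) ≤ R`
(`|Abar i j| ≤ 1`). Let `x ∈ poly B`, `|x j| ≤ X`, with at least `q ≥ 1` rows in `near B ρ x`. With the grid
`Γ` of `exists_grid` for `δ = ρ / R` (card `≤ (2 X R / ρ + 3)^n`) choose `y ∈ Γ`, `|x j - y j| ≤ δ`, so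
`|dot (B i) x - dot (B i) y| ≤ R δ = ρ` (`abs_dot_le`) for all `i`. Then `dot (B i) y ≤ 1 + 2 ρ` for all `i`
and `|dot (B i) y - 1| ≤ 2 ρ` for at least `q` rows. Since `q ≥ 1`, some row has
`dot (B i) y ≥ 1 - 2 ρ ≥ 1/2`, so `1/2 ≤ R max |y j|`, and `∑ y k ^ 2 ≥ (1 / (2 R)) ^ 2`.
So the event is contained in the union over `y ∈ Γ` with `(1 / (2 R)) ^ 2 ≤ ∑ y k ^ 2` of the events of
`pi_count` (`μ = rowm n`, `gm_eq`, `Q j = {g | ∑ (Abar j k + σ g k) y k ≤ 1 + 2 ρ}`,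
`N j = {g | |∑ (...) - 1| ≤ 2 ρ}`, `κ = ofReal (520 ρ R² / σ²)` by `row_cmp`;
`∑ k, Abar j k ^ 2 ≤ 1`), each of measure `≤ κ ^ q`. Sum over `Γ` (`measure_biUnion_finset_le`).
-/

namespace H44SD

open MeasureTheory Finset

theorem row_l1 {m n : ℕ} (Abar : Fin m → Fin n → ℝ) (hA : ∑ i, ∑ j, Abar i j ^ 2 ≤ 1)
    {σ Λ R : ℝ} (hσ : 0 < σ) (hR : n * (1 + σ * Λ) ≤ R) {G : Fin m → Fin n → ℝ}
    (hG : ∀ i j, |G i j| ≤ Λ) (i : Fin m) : ∑ j, |pert Abar σ G i j| ≤ R := by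
  have h1 : ∀ j, |Abar i j| ≤ 1 := by
    intro j
    have h2 : Abar i j ^ 2 ≤ ∑ j, Abar i j ^ 2 :=
      Finset.single_le_sum (f := fun j => Abar i j ^ 2) (fun j _ => sq_nonneg _) (mem_univ j)
    have h3 : ∑ j, Abar i j ^ 2 ≤ ∑ i, ∑ j, Abar i j ^ 2 :=
      Finset.single_le_sum (f := fun i => ∑ j, Abar i j ^ 2)
        (fun i _ => Finset.sum_nonneg fun j _ => sq_nonneg _) (mem_univ i)
    have h4 : Abar i j ^ 2 ≤ 1 := by linarith
    exact abs_le_one_iff_mul_self_le_one.2 (by nlinarith)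
  have h5 : ∀ j ∈ (univ : Finset (Fin n)), |pert Abar σ G i j| ≤ 1 + σ * Λ := by
    intro j _
    unfold pert
    calc |Abar i j + σ * G i j| ≤ |Abar i j| + |σ * G i j| := abs_add_le _ _
      _ = |Abar i j| + σ * |G i j| := by rw [abs_mul, abs_of_pos hσ]
      _ ≤ 1 + σ * Λ := add_le_add (h1 j) (mul_le_mul_of_nonneg_left (hG i j) hσ.le)
  calc ∑ j, |pert Abar σ G i j| ≤ ∑ _j : Fin n, (1 + σ * Λ) := Finset.sum_le_sum h5
    _ = n * (1 + σ * Λ) := by rw [Finset.sum_const, card_univ, Fintype.card_fin, nsmul_eq_mul]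
    _ ≤ R := hR

theorem cell_nt {m n : ℕ} (Abar : Fin m → Fin n → ℝ) (hA : ∑ i, ∑ j, Abar i j ^ 2 ≤ 1)
    {σ Λ R X ρ : ℝ} (hσ : 0 < σ) (hR : n * (1 + σ * Λ) ≤ R) (h1R : 1 ≤ R) (hσR : σ ≤ R)
    (hX : 0 < X) (hρ : 0 < ρ) (hρ4 : ρ ≤ 1 / 4) (hκ : 520 * ρ * R ^ 2 / σ ^ 2 ≤ 1) (q : ℕ)
    (hq : 1 ≤ q) :
    gm m n {G | (∀ i j, |G i j| ≤ Λ) ∧ ∃ x ∈ poly (pert Abar σ G), (∀ j, |x j| ≤ X) ∧
      q ≤ (near (pert Abar σ G) ρ x).card} ≤
      ENNReal.ofReal ((2 * X * R / ρ + 3) ^ n * (520 * ρ * R ^ 2 / σ ^ 2) ^ q) := by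
  classical
  have hR0 : 0 < R := by linarith
  have hδ : 0 < ρ / R := by positivity
  obtain ⟨Γ, hΓ, hcov⟩ := exists_grid n hX.le hδ
  have hκ0 : 0 ≤ 520 * ρ * R ^ 2 / σ ^ 2 := by positivity
  have hE : ∀ y ∈ Γ.filter (fun y => (1 / (2 * R)) ^ 2 ≤ ∑ k, y k ^ 2),
      gm m n {G | (∀ j, G j ∈ {g : Fin n → ℝ | ∑ k, (Abar j k + σ * g k) * y k ≤ 1 + 2 * ρ}) ∧
        q ≤ (univ.filter (fun j => G j ∈
          {g : Fin n → ℝ | |(∑ k, (Abar j k + σ * g k) * y k) - 1| ≤ 2 * ρ})).card} ≤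
        ENNReal.ofReal (520 * ρ * R ^ 2 / σ ^ 2) ^ q := by
    intro y hy
    rw [gm_eq]
    apply pi_count (rowm n) q
      (fun j => {g : Fin n → ℝ | |(∑ k, (Abar j k + σ * g k) * y k) - 1| ≤ 2 * ρ})
      (fun j => {g : Fin n → ℝ | ∑ k, (Abar j k + σ * g k) * y k ≤ 1 + 2 * ρ})
    · intro j
      exact measurableSet_le (by fun_prop) (by fun_prop)
    · intro j
      exact measurableSet_le (by fun_prop) (by fun_prop)
    · intro j
      have hA1 : ∑ k, Abar j k ^ 2 ≤ 1 :=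
        le_trans (Finset.single_le_sum (f := fun i => ∑ j, Abar i j ^ 2)
          (fun i _ => Finset.sum_nonneg fun j _ => sq_nonneg _) (mem_univ j)) hA
      exact row_cmp (Abar j) y hA1 hσ h1R hσR (Finset.mem_filter.1 hy).2 hρ hρ4 hκ
  have hsub : {G | (∀ i j, |G i j| ≤ Λ) ∧ ∃ x ∈ poly (pert Abar σ G), (∀ j, |x j| ≤ X) ∧
      q ≤ (near (pert Abar σ G) ρ x).card} ⊆
      ⋃ y ∈ Γ.filter (fun y => (1 / (2 * R)) ^ 2 ≤ ∑ k, y k ^ 2),
      {G : Fin m → Fin n → ℝ | (∀ j, G j ∈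
        {g : Fin n → ℝ | ∑ k, (Abar j k + σ * g k) * y k ≤ 1 + 2 * ρ}) ∧
        q ≤ (univ.filter (fun j => G j ∈
          {g : Fin n → ℝ | |(∑ k, (Abar j k + σ * g k) * y k) - 1| ≤ 2 * ρ})).card} := by
    rintro G ⟨hG, x, hx, hxX, hq'⟩
    obtain ⟨y, hyΓ, hy⟩ := hcov x hxX
    have hrow := fun i => row_l1 Abar hA hσ hR hG i
    have hdiff : ∀ i, |dot (pert Abar σ G i) x - dot (pert Abar σ G i) y| ≤ ρ := by
      intro i
      rw [← dot_sub]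
      have h1 : ∀ j, |(x - y) j| ≤ ρ / R := fun j => hy j
      refine le_trans (abs_dot_le _ _ h1) ?_
      calc (∑ j, |pert Abar σ G i j|) * (ρ / R) ≤ R * (ρ / R) :=
            mul_le_mul_of_nonneg_right (hrow i) hδ.le
        _ = ρ := by field_simp
    have hxle : ∀ i, dot (pert Abar σ G i) x ≤ 1 := fun i => hx i
    have hnear : ∀ i ∈ near (pert Abar σ G) ρ x, |dot (pert Abar σ G i) y - 1| ≤ 2 * ρ := by
      intro i hi
      rw [mem_near] at hi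
      have h1 := abs_le.1 (hdiff i)
      have h2 := hxle i
      rw [abs_le]
      constructor <;> linarith [h1.1, h1.2]
    have hne : (near (pert Abar σ G) ρ x).Nonempty := Finset.card_pos.1 (by omega)
    obtain ⟨i0, hi0⟩ := hne
    have hbig : (1 / (2 * R)) ^ 2 ≤ ∑ k, y k ^ 2 := by
      have h1 := (abs_le.1 (hnear i0 hi0)).1
      have h2 : ∀ j, |y j| ≤ √(∑ k, y k ^ 2) := by
        intro j
        apply Real.abs_le_sqrt
        exact Finset.single_le_sum (f := fun k => y k ^ 2) (fun k _ => sq_nonneg _) (mem_univ j)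
      have h3 := abs_dot_le (pert Abar σ G i0) y h2
      have h4 : (∑ j, |pert Abar σ G i0 j|) * √(∑ k, y k ^ 2) ≤ R * √(∑ k, y k ^ 2) :=
        mul_le_mul_of_nonneg_right (hrow i0) (Real.sqrt_nonneg _)
      have h5 : 1 / 2 ≤ R * √(∑ k, y k ^ 2) := by
        have := le_abs_self (dot (pert Abar σ G i0) y)
        linarith
      have h6 : 1 / (2 * R) ≤ √(∑ k, y k ^ 2) := by
        rw [div_le_iff₀ (by positivity)]
        linarith
      have h7 : 0 ≤ ∑ k, y k ^ 2 := Finset.sum_nonneg fun k _ => sq_nonneg _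
      calc (1 / (2 * R)) ^ 2 ≤ √(∑ k, y k ^ 2) ^ 2 :=
            pow_le_pow_left₀ (by positivity) h6 2
        _ = ∑ k, y k ^ 2 := Real.sq_sqrt h7
    simp only [Set.mem_iUnion]
    refine ⟨y, Finset.mem_filter.2 ⟨hyΓ, hbig⟩, ?_, ?_⟩
    · intro j
      have h1 := abs_le.1 (hdiff j)
      have h2 := hxle j
      change dot (pert Abar σ G j) y ≤ 1 + 2 * ρ
      linarith [h1.1]
    · refine le_trans hq' (Finset.card_le_card ?_)
      intro i hi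
      rw [Finset.mem_filter]
      exact ⟨mem_univ i, hnear i hi⟩
  refine le_trans (measure_mono hsub) (le_trans (measure_biUnion_finset_le _ _) ?_)
  refine le_trans (Finset.sum_le_sum hE) ?_
  rw [Finset.sum_const, nsmul_eq_mul, ENNReal.ofReal_mul (by positivity),
    ENNReal.ofReal_pow hκ0]
  refine mul_le_mul_left ?_ _
  have hcard : ((Γ.filter (fun y => (1 / (2 * R)) ^ 2 ≤ ∑ k, y k ^ 2)).card : ℝ) ≤
      (2 * X * R / ρ + 3) ^ n := by
    have h1 : ((Γ.filter (fun y => (1 / (2 * R)) ^ 2 ≤ ∑ k, y k ^ 2)).card : ℝ) ≤ Γ.card := by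
      exact_mod_cast Finset.card_filter_le _ _
    have h2 : 2 * X / (ρ / R) + 3 = 2 * X * R / ρ + 3 := by
      field_simp
    rw [h2] at hΓ
    exact le_trans h1 hΓ
  calc ((Γ.filter (fun y => (1 / (2 * R)) ^ 2 ≤ ∑ k, y k ^ 2)).card : ENNReal)
      = ENNReal.ofReal ((Γ.filter (fun y => (1 / (2 * R)) ^ 2 ≤ ∑ k, y k ^ 2)).card : ℝ) := by
        rw [ENNReal.ofReal_natCast]
    _ ≤ _ := ENNReal.ofReal_le_ofReal hcard

end H44SD
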