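import Mathlib

/-!
Project SD (MP_43ee49_co), helper44, module ClfBound: the Kalai-Kleitman bound for connected layer
families (Eisenbrand, Haehnle, Razborov, Rothvoss).

A family of layers `L 0, ..., L (l-1)`, each a nonempty set of `d`-subsets of `U`, pairwise disjoint,
such that for `i < j < k` and `a ∈ L i`, `b ∈ L k` some `c ∈ L j` contains `a ∩ b`.
If `#U < 2 ^ t` then `l ≤ 2 ^ t * (d + t).choose d`.

Proof. Induction on `t` and `d` (for example a double induction, or strong induction on `d + t`).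
* `d = 0`: every layer is `{∅}`, so by disjointness `l ≤ 1`.
* `d ≥ 1`, `t = 0`: `U = ∅` and a layer would contain a nonempty subset of `∅`; so `l = 0`.
* `d = d' + 1`, `t = t' + 1`: let `M = #U < 2 ^ (t' + 1)` and `h = M / 2 < 2 ^ t'`.
  Let `l1 ≤ l` be maximal such that the symbols used in the layers `0..l1-1` (the union of all sets in
  these layers) number at most `h`; the induction hypothesis `(d, t')` for these layers (with `U` := the
  set of symbols used) gives `l1 ≤ 2 ^ t' * (d + t').choose d =: F`. Likewise `l2 ≤ l` maximal such that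
  the last `l2` layers use at most `h` symbols, `l2 ≤ F` (shift the family: `L' i = L (l - l2 + i)`).
  If `l1 = l` or `l2 = l` we are done since `F ≤` the claim. Otherwise the layers `0..l1` use more than
  `h` symbols and the layers `l-1-l2..l-1` use more than `h` symbols, and `2 (h + 1) > M`, so there is a
  common symbol `s`, `s ∈ a ∈ L i`, `i ≤ l1`, `s ∈ b ∈ L k`, `k ≥ l - 1 - l2`.
  If `k < i` (or `k ≤ i`) then `l ≤ l1 + l2 + 1`. If `i ≤ k` consider the layers
  `L' j = {c \ {s} | c ∈ L (i + j), s ∈ c}`, `j ≤ k - i`: nonempty (from the property with `a`, `b`), sets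
  of size `d'` in `U \ {s}` (which has less than `2 ^ t` elements), disjoint, and the property holds.
  So `k - i + 1 ≤ 2 ^ t * (d' + t).choose d'` and `l ≤ l1 + l2 + (k - i + 1)
  ≤ 2 * 2 ^ t' * (d + t').choose d + 2 ^ t * (d' + t).choose d' = 2 ^ t * (d + t).choose d` (Pascal).
-/

namespace H44SD

open Finset

/-- a connected layer family with `l` layers of `d`-subsets of `U` -/
private structure ClfBound_CLF {ι : Type*} [DecidableEq ι] (d : ℕ) (L : ℕ → Set (Finset ι)) (l : ℕ)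
    (U : Finset ι) : Prop where
  hne : ∀ i < l, (L i).Nonempty
  hcard : ∀ i < l, ∀ a ∈ L i, a.card = d ∧ a ⊆ U
  hdisj : ∀ i < l, ∀ j < l, i ≠ j → Disjoint (L i) (L j)
  hclf : ∀ i j k, i < j → j < k → k < l → ∀ a ∈ L i, ∀ b ∈ L k, ∃ c ∈ L j, a ∩ b ⊆ c

/-- the symbols used in the first `k` layers -/
private noncomputable def ClfBound_V {ι : Type*} [DecidableEq ι] (L : ℕ → Set (Finset ι))
    (U : Finset ι) (k : ℕ) : Finset ι := by
  classical exact U.filter (fun s => ∃ i < k, ∃ a ∈ L i, s ∈ a)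

private theorem ClfBound_mem_V {ι : Type*} [DecidableEq ι] {L : ℕ → Set (Finset ι)}
    {U : Finset ι} {k : ℕ} {s : ι} :
    s ∈ ClfBound_V L U k ↔ s ∈ U ∧ ∃ i < k, ∃ a ∈ L i, s ∈ a := by
  simp [ClfBound_V]

private theorem ClfBound_CLF.rev {ι : Type*} [DecidableEq ι] {d : ℕ} {L : ℕ → Set (Finset ι)}
    {l : ℕ} {U : Finset ι} (h : ClfBound_CLF d L l U) :
    ClfBound_CLF d (fun i => L (l - 1 - i)) l U where
  hne i hi := h.hne _ (by omega)
  hcard i hi a ha := h.hcard _ (by omega) a ha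
  hdisj i hi j hj hij := h.hdisj _ (by omega) _ (by omega) (by omega)
  hclf i j k hij hjk hkl a ha b hb := by
    obtain ⟨c, hc, hcc⟩ := h.hclf (l - 1 - k) (l - 1 - j) (l - 1 - i) (by omega) (by omega)
      (by omega) b hb a ha
    exact ⟨c, hc, by rw [Finset.inter_comm]; exact hcc⟩

private theorem ClfBound_CLF.pref {ι : Type*} [DecidableEq ι] {d : ℕ} {L : ℕ → Set (Finset ι)}
    {l : ℕ} {U : Finset ι} (h : ClfBound_CLF d L l U) {k : ℕ} (hk : k ≤ l) :
    ClfBound_CLF d L k (ClfBound_V L U k) where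
  hne i hi := h.hne _ (by omega)
  hcard i hi a ha := by
    refine ⟨(h.hcard i (by omega) a ha).1, fun s hs => ?_⟩
    rw [ClfBound_mem_V]
    exact ⟨(h.hcard i (by omega) a ha).2 hs, i, hi, a, ha, hs⟩
  hdisj i hi j hj hij := h.hdisj _ (by omega) _ (by omega) hij
  hclf i j k' hij hjk hkl a ha b hb := h.hclf i j k' hij hjk (by omega) a ha b hb

private theorem ClfBound_CLF.link {ι : Type*} [DecidableEq ι] {d : ℕ} {L : ℕ → Set (Finset ι)}
    {l : ℕ} {U : Finset ι} (h : ClfBound_CLF (d + 1) L l U) {i k : ℕ} (hik : i ≤ k) (hk : k < l)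
    {s : ι} {a b : Finset ι} (ha : a ∈ L i) (hb : b ∈ L k) (hsa : s ∈ a) (hsb : s ∈ b) :
    ClfBound_CLF d (fun j => {c | s ∉ c ∧ insert s c ∈ L (i + j)}) (k - i + 1) (U.erase s) where
  hne j hj := by
    have key : ∃ c ∈ L (i + j), s ∈ c := by
      rcases Nat.eq_zero_or_pos j with h0 | h0
      · subst h0
        exact ⟨a, ha, hsa⟩
      · rcases Nat.lt_or_ge (i + j) k with h1 | h1
        · obtain ⟨c, hc, hcc⟩ := h.hclf i (i + j) k (by omega) h1 hk a ha b hb
          exact ⟨c, hc, hcc (Finset.mem_inter.2 ⟨hsa, hsb⟩)⟩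
        · have : i + j = k := by omega
          rw [this]
          exact ⟨b, hb, hsb⟩
    obtain ⟨c, hc, hsc⟩ := key
    refine ⟨c.erase s, Finset.notMem_erase s c, ?_⟩
    rw [Finset.insert_erase hsc]
    exact hc
  hcard j hj c hc := by
    obtain ⟨h1, h2⟩ := hc
    obtain ⟨h3, h4⟩ := h.hcard (i + j) (by omega) _ h2
    rw [Finset.card_insert_of_notMem h1] at h3
    refine ⟨by omega, fun x hx => ?_⟩
    rw [Finset.mem_erase]
    refine ⟨fun hxs => h1 (hxs ▸ hx), h4 (Finset.mem_insert_of_mem hx)⟩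
  hdisj j hj j' hj' hjj := by
    rw [Set.disjoint_left]
    rintro c ⟨_, hc⟩ ⟨_, hc'⟩
    exact Set.disjoint_left.1 (h.hdisj (i + j) (by omega) (i + j') (by omega) (by omega)) hc hc'
  hclf j1 j2 j3 h12 h23 h3 c hc c' hc' := by
    obtain ⟨hsc, hc⟩ := hc
    obtain ⟨hsc', hc'⟩ := hc'
    obtain ⟨e, he, hee⟩ := h.hclf (i + j1) (i + j2) (i + j3) (by omega) (by omega) (by omega)
      _ hc _ hc'
    have hse : s ∈ e := hee (Finset.mem_inter.2 ⟨Finset.mem_insert_self _ _,
      Finset.mem_insert_self _ _⟩)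
    refine ⟨e.erase s, ⟨Finset.notMem_erase s e, ?_⟩, fun x hx => ?_⟩
    · rw [Finset.insert_erase hse]
      exact he
    · rw [Finset.mem_inter] at hx
      rw [Finset.mem_erase]
      refine ⟨fun hxs => hsc (hxs ▸ hx.1), hee (Finset.mem_inter.2
        ⟨Finset.mem_insert_of_mem hx.1, Finset.mem_insert_of_mem hx.2⟩)⟩

/-- a maximal initial segment with few symbols -/
private theorem ClfBound_seg {ι : Type*} [DecidableEq ι] {d t : ℕ} {L : ℕ → Set (Finset ι)}
    {l : ℕ} {U : Finset ι} (h : ClfBound_CLF d L l U) (H : ℕ) (hH : H < 2 ^ t)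
    (IH : ∀ (L : ℕ → Set (Finset ι)) (l : ℕ) (U : Finset ι), U.card < 2 ^ t →
      ClfBound_CLF d L l U → l ≤ 2 ^ t * (d + t).choose d) :
    ∃ l1 ≤ l, l1 ≤ 2 ^ t * (d + t).choose d ∧
      (l1 = l ∨ (l1 < l ∧ H < (ClfBound_V L U (l1 + 1)).card)) := by
  classical
  have h0 : (ClfBound_V L U 0).card ≤ H := by
    have : ClfBound_V L U 0 = ∅ := by
      ext s
      simp [ClfBound_mem_V]
    rw [this]
    simp
  set l1 := Nat.findGreatest (fun k => (ClfBound_V L U k).card ≤ H) l with hl1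
  have hle : l1 ≤ l := Nat.findGreatest_le l
  have hsp : (ClfBound_V L U l1).card ≤ H :=
    Nat.findGreatest_spec (P := fun k => (ClfBound_V L U k).card ≤ H) (Nat.zero_le l) h0
  refine ⟨l1, hle, IH L l1 _ (lt_of_le_of_lt hsp hH) (h.pref hle), ?_⟩
  rcases Nat.eq_or_lt_of_le hle with h1 | h1
  · exact Or.inl h1
  · refine Or.inr ⟨h1, ?_⟩
    have := Nat.findGreatest_is_greatest (P := fun k => (ClfBound_V L U k).card ≤ H)
      (show Nat.findGreatest (fun k => (ClfBound_V L U k).card ≤ H) l < l1 + 1 by omega)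
      (show l1 + 1 ≤ l by omega)
    exact not_le.1 this

private theorem ClfBound_zero {ι : Type*} [DecidableEq ι] (t : ℕ) (L : ℕ → Set (Finset ι)) (l : ℕ)
    (U : Finset ι) (h : ClfBound_CLF 0 L l U) : l ≤ 2 ^ t * (0 + t).choose 0 := by
  have h1 : l ≤ 1 := by
    by_contra hcon
    push Not at hcon
    obtain ⟨a, ha⟩ := h.hne 0 (by omega)
    obtain ⟨b, hb⟩ := h.hne 1 (by omega)
    have ha0 : a = ∅ := Finset.card_eq_zero.1 (h.hcard 0 (by omega) a ha).1
    have hb0 : b = ∅ := Finset.card_eq_zero.1 (h.hcard 1 (by omega) b hb).1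
    subst ha0
    subst hb0
    exact Set.disjoint_left.1 (h.hdisj 0 (by omega) 1 (by omega) (by omega)) ha hb
  have h2 : 1 ≤ 2 ^ t := Nat.one_le_two_pow
  simp only [Nat.choose_zero_right, mul_one]
  omega

private theorem ClfBound_step {ι : Type*} [DecidableEq ι] (d t : ℕ)
    (IH1 : ∀ (L : ℕ → Set (Finset ι)) (l : ℕ) (U : Finset ι), U.card < 2 ^ t →
      ClfBound_CLF (d + 1) L l U → l ≤ 2 ^ t * (d + 1 + t).choose (d + 1))
    (IH2 : ∀ (L : ℕ → Set (Finset ι)) (l : ℕ) (U : Finset ι), U.card < 2 ^ (t + 1) →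
      ClfBound_CLF d L l U → l ≤ 2 ^ (t + 1) * (d + (t + 1)).choose d)
    (L : ℕ → Set (Finset ι)) (l : ℕ)
    (U : Finset ι) (hU : U.card < 2 ^ (t + 1)) (h : ClfBound_CLF (d + 1) L l U) :
    l ≤ 2 ^ (t + 1) * (d + 1 + (t + 1)).choose (d + 1) := by
  have pascal : 2 ^ (t + 1) * (d + 1 + (t + 1)).choose (d + 1)
      = 2 * (2 ^ t * (d + 1 + t).choose (d + 1)) + 2 ^ (t + 1) * (d + (t + 1)).choose d := by
    have e1 : (d + 1 + (t + 1)).choose (d + 1) = (d + 1 + t).choose d
        + (d + 1 + t).choose (d + 1) := by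
      rw [show d + 1 + (t + 1) = (d + 1 + t) + 1 by ring, Nat.choose_succ_succ]
    rw [e1, show d + (t + 1) = d + 1 + t by ring, pow_succ]
    ring
  rw [pascal]
  set F := 2 ^ t * (d + 1 + t).choose (d + 1) with hF
  set G := 2 ^ (t + 1) * (d + (t + 1)).choose d with hG
  have hH : U.card / 2 < 2 ^ t := by
    rw [pow_succ] at hU
    omega
  obtain ⟨l1, hl1, hl1F, h1⟩ := ClfBound_seg h (U.card / 2) hH IH1
  obtain ⟨l2, hl2, hl2F, h2⟩ := ClfBound_seg h.rev (U.card / 2) hH IH1
  rcases h1 with h1 | ⟨h1l, h1⟩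
  · omega
  rcases h2 with h2 | ⟨h2l, h2⟩
  · omega
  -- a common symbol
  have hcommon : ∃ s, s ∈ ClfBound_V L U (l1 + 1) ∧
      s ∈ ClfBound_V (fun i => L (l - 1 - i)) U (l2 + 1) := by
    by_contra hcon
    push Not at hcon
    have hd : Disjoint (ClfBound_V L U (l1 + 1))
        (ClfBound_V (fun i => L (l - 1 - i)) U (l2 + 1)) := Finset.disjoint_left.2 hcon
    have hsub : ClfBound_V L U (l1 + 1) ∪ ClfBound_V (fun i => L (l - 1 - i)) U (l2 + 1) ⊆ U := by
      intro s hs
      rcases Finset.mem_union.1 hs with hs | hs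
      · exact (ClfBound_mem_V.1 hs).1
      · exact (ClfBound_mem_V.1 hs).1
    have := Finset.card_le_card hsub
    rw [Finset.card_union_of_disjoint hd] at this
    omega
  obtain ⟨s, hs1, hs2⟩ := hcommon
  obtain ⟨_, i, hi, a, ha, hsa⟩ := ClfBound_mem_V.1 hs1
  obtain ⟨_, i', hi', b, hb, hsb⟩ := ClfBound_mem_V.1 hs2
  rcases Nat.lt_or_ge (l - 1 - i') i with hki | hki
  · omega
  · have hlink := h.link hki (by omega) ha hb hsa hsb
    have hcardE : (U.erase s).card < 2 ^ (t + 1) :=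
      lt_of_le_of_lt (Finset.card_le_card (Finset.erase_subset s U)) hU
    have := IH2 _ _ _ hcardE hlink
    omega

private theorem ClfBound_main {ι : Type*} [DecidableEq ι] (d : ℕ) :
    ∀ (t : ℕ) (L : ℕ → Set (Finset ι)) (l : ℕ) (U : Finset ι), U.card < 2 ^ t →
      ClfBound_CLF d L l U → l ≤ 2 ^ t * (d + t).choose d := by
  induction d with
  | zero => exact fun t L l U _ h => ClfBound_zero t L l U h
  | succ d ihd =>
    intro t
    induction t with
    | zero =>
      intro L l U hU h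
      have hU0 : U = ∅ := by
        rw [pow_zero] at hU
        exact Finset.card_eq_zero.1 (by omega)
      have hl0 : l = 0 := by
        by_contra hcon
        obtain ⟨a, ha⟩ := h.hne 0 (by omega)
        obtain ⟨h1, h2⟩ := h.hcard 0 (by omega) a ha
        rw [hU0, Finset.subset_empty] at h2
        rw [h2, Finset.card_empty] at h1
        omega
      rw [hl0]
      exact Nat.zero_le _
    | succ t iht => exact ClfBound_step d t iht (ihd (t + 1))

theorem clf_bound {ι : Type*} [DecidableEq ι] (d t : ℕ) (L : ℕ → Set (Finset ι)) (l : ℕ)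
    (U : Finset ι) (hU : U.card < 2 ^ t) (hne : ∀ i < l, (L i).Nonempty)
    (hcard : ∀ i < l, ∀ a ∈ L i, a.card = d ∧ a ⊆ U)
    (hdisj : ∀ i < l, ∀ j < l, i ≠ j → Disjoint (L i) (L j))
    (hclf : ∀ i j k, i < j → j < k → k < l → ∀ a ∈ L i, ∀ b ∈ L k, ∃ c ∈ L j, a ∩ b ⊆ c) :
    l ≤ 2 ^ t * (d + t).choose d :=
  ClfBound_main d t L l U hU ⟨hne, hcard, hdisj, hclf⟩

end H44SD
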