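import Pool.Agent.H44.SD.ClfBound

/-!
Project SD (MP_43ee49_co), helper44, module ClfDist: distance bound in a graph whose vertices are
labelled by `n`-sets.

`V` is a set of vertices, `lab` is injective on `V` with values `n`-subsets of `U`, `#U < 2 ^ t`, and
any two `x, y ∈ V` are joined by a walk in `G` all of whose vertices `z` are in `V` with
`lab x ∩ lab y ⊆ lab z`. Then `edist x y ≤ 2 ^ t * (n + t).choose n` for `x, y ∈ V`.

Proof. Fix `x, y ∈ V`. Let `H` be the graph on `α` with `H.Adj u v ↔ G.Adj u v ∧ u ∈ V ∧ v ∈ V`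
(or `G.induce V`). All vertices of `V` are reachable from `x` in `H`. Let `D = H.dist x y` and let
`L i = lab '' {z ∈ V | H.dist x z = i}` for `i < l := D + 1`. Nonempty: along a walk of `H` from `x` to
`y` the distance to `x` changes by at most one at each step, starts with `0` and ends with `D`
(discrete intermediate values; or: a shortest walk has a vertex at every distance).
Disjoint since `lab` is injective on `V`. The property: `a = lab z`, `H.dist x z = i`, `b = lab z'`,
`H.dist x z' = k`, `i < j < k`: take the walk from `z` to `z'` given by `hconn`; its vertices are in `V`,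
it is a walk of `H`, and distances change by at most one, so some vertex `c` has distance `j` and
`lab z ∩ lab z' ⊆ lab c`.
`clf_bound` gives `D + 1 ≤ 2 ^ t * (n + t).choose n`, and `G.edist x y ≤ H.edist x y = D` since `H ≤ G`.
-/

namespace H44SD

open Finset

/-- the graph on the vertices in `V` -/
private def ClfDist_H {α : Type*} (G : SimpleGraph α) (V : Set α) : SimpleGraph α where
  Adj u v := G.Adj u v ∧ u ∈ V ∧ v ∈ V
  symm := ⟨fun _ _ h => ⟨h.1.symm, h.2.2, h.2.1⟩⟩
  loopless := ⟨fun u h => G.loopless.irrefl u h.1⟩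

private theorem ClfDist_H_le {α : Type*} (G : SimpleGraph α) (V : Set α) : ClfDist_H G V ≤ G :=
  fun _ _ h => h.1

/-- transfer of a walk -/
private theorem ClfDist_walk {α : Type*} {G : SimpleGraph α} {V : Set α} {x y : α}
    (p : G.Walk x y) (hp : ∀ z ∈ p.support, z ∈ V) :
    ∃ p' : (ClfDist_H G V).Walk x y, p'.support = p.support := by
  induction p with
  | nil => exact ⟨SimpleGraph.Walk.nil, rfl⟩
  | @cons u v w h p ih =>
    obtain ⟨p', hp'⟩ := ih (fun z hz => hp z (by
      rw [SimpleGraph.Walk.support_cons]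
      exact List.mem_cons_of_mem _ hz))
    have hu : u ∈ V := hp u (by simp)
    have hv : v ∈ V := hp v (by
      rw [SimpleGraph.Walk.support_cons]
      exact List.mem_cons_of_mem _ p.start_mem_support)
    have hadj : (ClfDist_H G V).Adj u v := ⟨h, hu, hv⟩
    refine ⟨SimpleGraph.Walk.cons hadj p', ?_⟩
    rw [SimpleGraph.Walk.support_cons, SimpleGraph.Walk.support_cons, hp']

/-- discrete intermediate values along a walk -/
private theorem ClfDist_ivt {α : Type*} {H : SimpleGraph α} (f : α → ℕ)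
    (hf : ∀ a b, H.Adj a b → f b ≤ f a + 1) {u v : α} (p : H.Walk u v) (j : ℕ) (h1 : f u ≤ j)
    (h2 : j ≤ f v) : ∃ z ∈ p.support, f z = j := by
  induction p with
  | nil => exact ⟨_, by simp, le_antisymm h1 h2⟩
  | @cons u w v h p ih =>
    rcases Nat.eq_or_lt_of_le h1 with h3 | h3
    · exact ⟨u, by simp, h3⟩
    · obtain ⟨z, hz, hzj⟩ := ih (le_trans (hf _ _ h) h3) h2
      refine ⟨z, ?_, hzj⟩
      rw [SimpleGraph.Walk.support_cons]
      exact List.mem_cons_of_mem _ hz

private theorem ClfDist_step {α : Type*} {H : SimpleGraph α} (x : α) (a b : α) (h : H.Adj a b) :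
    H.dist x b ≤ H.dist x a + 1 := by
  by_cases hr : H.Reachable x a
  · obtain ⟨q, hq⟩ := hr.exists_walk_length_eq_dist
    have := H.dist_le (q.concat h)
    rw [SimpleGraph.Walk.length_concat, hq] at this
    exact this
  · have hb : ¬ H.Reachable x b := fun hb => hr (hb.trans h.symm.reachable)
    rw [SimpleGraph.dist_eq_zero_of_not_reachable hb]
    exact Nat.zero_le _

theorem clf_dist {α ι : Type*} [DecidableEq ι] (G : SimpleGraph α) (lab : α → Finset ι) (V : Set α)
    (U : Finset ι) (n t : ℕ) (hcard : ∀ x ∈ V, (lab x).card = n) (hU : ∀ x ∈ V, lab x ⊆ U)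
    (hUt : U.card < 2 ^ t) (hinj : Set.InjOn lab V)
    (hconn : ∀ x ∈ V, ∀ y ∈ V, ∃ p : G.Walk x y, ∀ z ∈ p.support, z ∈ V ∧ lab x ∩ lab y ⊆ lab z) :
    ∀ x ∈ V, ∀ y ∈ V, G.edist x y ≤ ((2 ^ t * (n + t).choose n : ℕ) : ℕ∞) := by
  intro x hx y hy
  have hconn' : ∀ x ∈ V, ∀ y ∈ V, ∃ p : (ClfDist_H G V).Walk x y, ∀ z ∈ p.support,
      z ∈ V ∧ lab x ∩ lab y ⊆ lab z := by
    intro x hx y hy
    obtain ⟨p, hp⟩ := hconn x hx y hy
    obtain ⟨p', hp'⟩ := ClfDist_walk p (fun z hz => (hp z hz).1)
    exact ⟨p', fun z hz => hp z (by rw [← hp']; exact hz)⟩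
  set H := ClfDist_H G V with hH
  set D := H.dist x y with hD
  have hb : D + 1 ≤ 2 ^ t * (n + t).choose n := by
    refine clf_bound n t (fun i => {s | ∃ z ∈ V, H.dist x z = i ∧ lab z = s}) (D + 1) U hUt
      ?_ ?_ ?_ ?_
    · intro i hi
      obtain ⟨p, hp⟩ := hconn' x hx y hy
      obtain ⟨z, hz, hzi⟩ := ClfDist_ivt (fun z => H.dist x z) (fun a b h => ClfDist_step x a b h) p
        i (by simp) (by omega)
      exact ⟨lab z, z, (hp z hz).1, hzi, rfl⟩
    · rintro i hi a ⟨z, hz, _, rfl⟩
      exact ⟨hcard z hz, hU z hz⟩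
    · intro i hi j hj hij
      rw [Set.disjoint_left]
      rintro a ⟨z, hz, hzi, hza⟩ ⟨z', hz', hzi', hza'⟩
      have : z = z' := hinj hz hz' (hza.trans hza'.symm)
      subst this
      exact hij (hzi.symm.trans hzi')
    · rintro i j k hij hjk hk a ⟨z, hz, hzi, rfl⟩ b ⟨z', hz', hzk, rfl⟩
      obtain ⟨p, hp⟩ := hconn' z hz z' hz'
      obtain ⟨c, hc, hcj⟩ := ClfDist_ivt (fun z => H.dist x z) (fun a b h => ClfDist_step x a b h) p
        j (by omega) (by omega)
      exact ⟨lab c, ⟨c, (hp c hc).1, hcj, rfl⟩, (hp c hc).2⟩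
  have hreach : H.Reachable x y := by
    obtain ⟨p, _⟩ := hconn' x hx y hy
    exact p.reachable
  calc G.edist x y ≤ H.edist x y := SimpleGraph.edist_anti (ClfDist_H_le G V)
    _ = (D : ℕ∞) := hreach.coe_dist_eq_edist.symm
    _ ≤ ((2 ^ t * (n + t).choose n : ℕ) : ℕ∞) := by
        exact_mod_cast (by omega : D ≤ 2 ^ t * (n + t).choose n)

end H44SD
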