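import Pool.Agent.H44.SD.VertBasic

/-!
Project SD (MP_43ee49_co), helper44, module CountVert: number of vertices (any matrix `A`).

A vertex `x` is determined by any set of tight rows whose common orthogonal space is `0`; from the tight
rows one can choose `n` rows `f : Fin n → Fin m` with this property (a spanning family of
`Fin n → ℝ` contains a basis; for `n = 0` nothing to do), and `x` is the only solution of
`dot (A (f k)) x = 1`. So `x ↦ f` is injective and the number of vertices is at most `m ^ n`.
(Alternatively map `x` to a subset of `tight A x` of `n` elements.)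
`pdiam_le_pow`: a finite simple graph has `diam ≤ card`: if it is not connected then `ediam = ⊤` and
`diam = 0`; if it is connected every distance is `< card` (a path has at most `card` vertices).
-/

namespace H44SD

open Finset

variable {m n : ℕ}

private theorem CountVert_pick {A : Fin m → Fin n → ℝ} {x : Fin n → ℝ} (hx : x ∈ Vert A) :
    ∃ f : Fin n → Fin m, (∀ k, f k ∈ tight A x) ∧
      ∀ d : Fin n → ℝ, (∀ k, dot (A (f k)) d = 0) → d = 0 := by
  classical
  have hx' := ((mem_vert_iff A x).1 hx).2
  have hspan : Submodule.span ℝ {v | ∃ i ∈ tight A x, A i = v} = ⊤ := by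
    by_contra hne
    obtain ⟨g, hg, hker⟩ := Submodule.exists_le_ker_of_lt_top _ (lt_top_iff_ne_top.2 hne)
    have hgd : ∀ v : Fin n → ℝ, g v = dot v (fun j => g (fun k => if j = k then 1 else 0)) := by
      intro v
      rw [LinearMap.pi_apply_eq_sum_univ g v]
      rfl
    have hd := hx' (fun j => g (fun k => if j = k then 1 else 0)) (fun i hi => by
      rw [← hgd]
      exact hker (Submodule.subset_span ⟨i, hi, rfl⟩))
    apply hg
    refine LinearMap.ext fun v => ?_
    rw [hgd, hd, dot_zero, LinearMap.zero_apply]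
  obtain ⟨F, hF1, hF2, -⟩ :=
    Submodule.exists_fun_fin_finrank_span_eq ℝ {v | ∃ i ∈ tight A x, A i = v}
  have hfr : Module.finrank ℝ (Submodule.span ℝ {v | ∃ i ∈ tight A x, A i = v}) = n := by
    rw [hspan, finrank_top, Module.finrank_fin_fun]
  choose f hf1 hf2 using hF1
  refine ⟨fun k => f (Fin.cast hfr.symm k), fun k => hf1 _, ?_⟩
  intro d hd
  have hall : ∀ v ∈ Submodule.span ℝ (Set.range F), dot v d = 0 := by
    intro v hv
    induction hv using Submodule.span_induction with
    | mem v hv =>
      obtain ⟨k, rfl⟩ := hv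
      rw [← hf2 k]
      exact hd (Fin.cast hfr k)
    | zero => exact zero_dot d
    | add v w _ _ h1 h2 => rw [add_dot, h1, h2, add_zero]
    | smul c v _ h1 => rw [smul_dot, h1, mul_zero]
  rw [hF2, hspan] at hall
  have h0 := hall d Submodule.mem_top
  funext j
  have h1 : d j * d j ≤ dot d d := Finset.single_le_sum (f := fun j => d j * d j)
    (fun j _ => mul_self_nonneg _) (mem_univ j)
  rw [h0] at h1
  have h2 : d j * d j = 0 := le_antisymm h1 (mul_self_nonneg _)
  simpa using h2

theorem vert_finite (A : Fin m → Fin n → ℝ) : (Vert A).Finite := by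
  refine Set.Finite.of_injOn (f := fun x => tight A x) (t := Set.univ)
    (fun x _ => Set.mem_univ _) ?_ Set.finite_univ
  intro x hx y _ hxy
  exact vert_eq_of_subset hx (le_of_eq hxy)

theorem vert_ncard_le (A : Fin m → Fin n → ℝ) : (Vert A).ncard ≤ m ^ n := by
  classical
  have hex : ∀ x : Fin n → ℝ, ∃ f : Fin n → Fin m ⊕ Unit, x ∈ Vert A →
      ∃ g : Fin n → Fin m, (f = fun k => Sum.inl (g k)) ∧ (∀ k, g k ∈ tight A x) ∧
      ∀ d : Fin n → ℝ, (∀ k, dot (A (g k)) d = 0) → d = 0 := by
    intro x
    by_cases hx : x ∈ Vert A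
    · obtain ⟨g, hg⟩ := CountVert_pick hx
      exact ⟨fun k => Sum.inl (g k), fun _ => ⟨g, rfl, hg⟩⟩
    · exact ⟨fun _ => Sum.inr (), fun h => absurd h hx⟩
  choose f hf using hex
  have hcard : (Set.range fun g : Fin n → Fin m => fun k => (Sum.inl (g k) : Fin m ⊕ Unit)).ncard =
      m ^ n := by
    rw [Set.ncard_range_of_injective, Nat.card_eq_fintype_card]
    · simp
    · intro g g' h
      funext k
      exact Sum.inl_injective (congrFun h k)
  rw [← hcard]
  refine Set.ncard_le_ncard_of_injOn f ?_ ?_ (Set.finite_range _)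
  · intro x hx
    obtain ⟨g, hg, -⟩ := hf x hx
    exact ⟨g, hg.symm⟩
  · intro x hx y hy hxy
    obtain ⟨g, hg, hg1, hg2⟩ := hf x hx
    obtain ⟨g', hg', hg1', -⟩ := hf y hy
    have hgg : g = g' := by
      funext k
      have h1 : (fun k => (Sum.inl (g k) : Fin m ⊕ Unit)) = fun k => Sum.inl (g' k) := by
        rw [← hg, ← hg', hxy]
      exact Sum.inl_injective (congrFun h1 k)
    have h0 : x - y = 0 := by
      apply hg2
      intro k
      rw [dot_sub, mem_tight.1 (hg1 k)]
      rw [hgg, mem_tight.1 (hg1' k), sub_self]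
    exact sub_eq_zero.1 h0

theorem pdiam_le_pow (A : Fin m → Fin n → ℝ) : pdiam A ≤ m ^ n := by
  classical
  refine le_trans ?_ (vert_ncard_le A)
  unfold pdiam
  have hfin : Finite ↥(Vert A) := (vert_finite A).to_subtype
  have hft : Fintype ↥(Vert A) := Fintype.ofFinite _
  rcases isEmpty_or_nonempty ↥(Vert A) with he | hne
  · have h0 : (pgraph A).diam = 0 := SimpleGraph.diam_eq_zero.2 (Or.inr inferInstance)
    rw [h0]
    exact Nat.zero_le _
  · obtain ⟨u, v, huv⟩ := SimpleGraph.exists_dist_eq_diam (G := pgraph A)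
    by_cases h0 : (pgraph A).dist u v = 0
    · rw [← huv, h0]
      exact Nat.zero_le _
    · obtain ⟨p, hp, hpl⟩ := (SimpleGraph.Reachable.of_dist_ne_zero h0).exists_path_of_dist
      have h1 := hp.length_lt
      rw [← huv, ← hpl, ← Nat.card_coe_set_eq, Nat.card_eq_fintype_card]
      exact h1.le

end H44SD
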