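import Pool.Agent.H44.SD.Pivot
import Pool.Agent.H44.SD.CountVert

/-!
Project SD (MP_43ee49_co), helper44, module Conn: connectivity of faces and of caps.

* `conn_face`: for vertices `x, y` and `S ⊆ tight A x`, `S ⊆ tight A y` there is a walk in `pgraph A`
  all of whose vertices contain `S` in their tight set. Let `w = ∑ i ∈ tight A y, A i`. On `poly A`,
  `dot w z ≤ n` with equality only for `z = y` (all rows of `tight A y` tight at `z`,
  `vert_eq_of_subset`). If `x ≠ y` then `dot w x < dot w y` and `pivot` gives a vertex `x'` with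
  `S ⊆ tight A x'`, larger `dot w`, adjacent to `x` (`edge_of_inter`; `x ≠ x'` since the values differ).
  Repeat: well-founded since the set of vertices is finite (`vert_finite`) and `dot w` increases.
* `conn_all` is `conn_face` with `S = tight A x ∩ tight A y`.
* `conn_super`: let `S = tight A x ∩ tight A y`, `c ≤ dot w x`, `c ≤ dot w y`, `poly A` bounded. Let
  `v` be a vertex with `S ⊆ tight A v` and maximal `dot w v` (finite set). Every vertex `x` with
  `S ⊆ tight A x` and `c ≤ dot w x` is joined to `v` by a walk with all vertices `z` satisfying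
  `S ⊆ tight A z` and `c ≤ dot w z`: as long as `dot w x < dot w v` use `pivot` (with `y = v`; `b` from
  the boundedness). At the end we reach a vertex `x'` with `dot w x' = dot w v` (maximal).
  Write `w = ∑ c_i A i` over `tight A x'`. Then `c_i ≥ 0` for `i ∉ S`: otherwise, as in the proof of `pivot`
  or by applying `pivot` in the other direction, one finds a better vertex: precisely, if `c_i < 0` for
  some `i ∉ S` then with `d` from `exists_dir` and a small `ε > 0` the point `x' + ε d` is in `poly A`,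
  on the face `S` and has a larger `dot w`, and `pivot` gives a vertex with larger `dot w`, contradiction.
  Since `dot w v = dot w x'`, `∑_{i ∉ S} c_i (1 - dot (A i) v) = 0` with nonnegative terms, so
  `S' = S ∪ {i ∈ tight A x' | c_i > 0}` is contained in `tight A v` (for `i ∉ S`), `S' ⊆ tight A x'`. On all points `z` of `poly A` with
  `S' ⊆ tight A z` we have `dot w z = ∑_{i ∈ S'} c_i = dot w v ≥ c` (the rows outside `S'` have
  `c_i = 0`). Now use `conn_face` for `x'`, `v` and `S'`. Finally join `x` and `y` through `v`.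
-/

namespace H44SD

open Finset

variable {m n : ℕ} {A : Fin m → Fin n → ℝ}

private theorem Conn_adj (hN : Nondeg A) {x y : ↥(Vert A)} (hne : (x : Fin n → ℝ) ≠ y)
    {i : Fin m} (hi : i ∈ tight A (x : Fin n → ℝ))
    (h : ∀ j ∈ tight A (x : Fin n → ℝ), j ≠ i → j ∈ tight A (y : Fin n → ℝ)) :
    (pgraph A).Adj x y := by
  unfold pgraph
  rw [SimpleGraph.fromRel_adj]
  exact ⟨fun h0 => hne (congrArg Subtype.val h0),
    Or.inl (edge_of_inter hN x.2 y.2 hne hi h)⟩

/-- climbing on a face until the value `M` is reached -/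
private theorem Conn_climb (hN : Nondeg A) (S : Finset (Fin m)) (w : Fin n → ℝ) (b M : ℝ)
    (hb : ∀ y ∈ poly A, S ⊆ tight A y → dot w y ≤ b)
    (hM : ∀ x ∈ Vert A, S ⊆ tight A x → dot w x < M →
      ∃ y ∈ poly A, S ⊆ tight A y ∧ dot w x < dot w y) :
    ∀ (k : ℕ) (x : ↥(Vert A)), S ⊆ tight A (x : Fin n → ℝ) →
      {v ∈ Vert A | dot w x < dot w v}.ncard ≤ k →
      ∃ (x' : ↥(Vert A)) (p : (pgraph A).Walk x x'), S ⊆ tight A (x' : Fin n → ℝ) ∧
        M ≤ dot w x' ∧ ∀ z ∈ p.support, S ⊆ tight A (z : Fin n → ℝ) ∧ dot w x ≤ dot w z := by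
  intro k
  induction k with
  | zero =>
    intro x hx hk
    by_cases hMx : M ≤ dot w x
    · refine ⟨x, SimpleGraph.Walk.nil, hx, hMx, ?_⟩
      intro z hz
      rw [SimpleGraph.Walk.support_nil, List.mem_singleton] at hz
      subst hz
      exact ⟨hx, le_rfl⟩
    · exfalso
      push Not at hMx
      obtain ⟨y, hy, hSy, hlt⟩ := hM x x.2 hx hMx
      obtain ⟨x1, hx1, hS1, hlt1, -⟩ := pivot hN x.2 S hx w b hb hy hSy hlt
      have hfin : {v ∈ Vert A | dot w x < dot w v}.Finite :=
        (vert_finite A).subset fun v hv => hv.1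
      have hne : {v ∈ Vert A | dot w x < dot w v}.Nonempty := ⟨x1, hx1, hlt1⟩
      have := (Set.ncard_pos hfin).mpr hne
      omega
  | succ k ih =>
    intro x hx hk
    by_cases hMx : M ≤ dot w x
    · refine ⟨x, SimpleGraph.Walk.nil, hx, hMx, ?_⟩
      intro z hz
      rw [SimpleGraph.Walk.support_nil, List.mem_singleton] at hz
      subst hz
      exact ⟨hx, le_rfl⟩
    · push Not at hMx
      obtain ⟨y, hy, hSy, hlt⟩ := hM x x.2 hx hMx
      obtain ⟨x1, hx1, hS1, hlt1, i, hi, hij⟩ := pivot hN x.2 S hx w b hb hy hSy hlt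
      have hfin : {v ∈ Vert A | dot w x < dot w v}.Finite :=
        (vert_finite A).subset fun v hv => hv.1
      have hss : {v ∈ Vert A | dot w x1 < dot w v} ⊂ {v ∈ Vert A | dot w x < dot w v} := by
        rw [Set.ssubset_iff_of_subset]
        · exact ⟨x1, ⟨hx1, hlt1⟩, fun h => lt_irrefl _ h.2⟩
        · intro v hv
          exact ⟨hv.1, hlt1.trans hv.2⟩
      have hcard := Set.ncard_lt_ncard hss hfin
      obtain ⟨x', p, h1, h2, h3⟩ := ih ⟨x1, hx1⟩ hS1 (by
        have : {v ∈ Vert A | dot w x1 < dot w v}.ncard < {v ∈ Vert A | dot w x < dot w v}.ncard :=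
          hcard
        simp only
        omega)
      have hadj : (pgraph A).Adj x ⟨x1, hx1⟩ :=
        Conn_adj hN (fun h0 => by
          have h0' : (x : Fin n → ℝ) = x1 := h0
          rw [← h0'] at hlt1
          exact lt_irrefl _ hlt1) hi hij
      refine ⟨x', SimpleGraph.Walk.cons hadj p, h1, h2, ?_⟩
      intro z hz
      rw [SimpleGraph.Walk.support_cons, List.mem_cons] at hz
      rcases hz with rfl | hz
      · exact ⟨hx, le_rfl⟩
      · exact ⟨(h3 z hz).1, hlt1.le.trans (h3 z hz).2⟩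

theorem conn_face (hN : Nondeg A) (x y : ↥(Vert A)) (S : Finset (Fin m))
    (hx : S ⊆ tight A x) (hy : S ⊆ tight A y) :
    ∃ p : (pgraph A).Walk x y, ∀ z ∈ p.support, S ⊆ tight A (z : Fin n → ℝ) := by
  set w : Fin n → ℝ := ∑ i ∈ tight A (y : Fin n → ℝ), A i with hw
  have hdot : ∀ z, dot w z = ∑ i ∈ tight A (y : Fin n → ℝ), dot (A i) z := fun z => sum_dot _ _ _
  have hle : ∀ z ∈ poly A, dot w z ≤ (tight A (y : Fin n → ℝ)).card := by
    intro z hz
    rw [hdot]
    calc ∑ i ∈ tight A (y : Fin n → ℝ), dot (A i) z ≤ ∑ i ∈ tight A (y : Fin n → ℝ), (1 : ℝ) :=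
          Finset.sum_le_sum fun i _ => hz i
      _ = _ := by simp
  have hwy : dot w y = (tight A (y : Fin n → ℝ)).card := by
    rw [hdot, Finset.sum_congr rfl fun i hi => mem_tight.mp hi]
    simp
  have hyP : (y : Fin n → ℝ) ∈ poly A := ((mem_vert_iff A y).mp y.2).1
  obtain ⟨x', p, h1, h2, h3⟩ := Conn_climb hN S w (tight A (y : Fin n → ℝ)).card (dot w y)
    (fun z hz _ => hle z hz) (fun z _ _ hlt => ⟨y, hyP, hy, hlt⟩) _ x hx le_rfl
  have hx'P : (x' : Fin n → ℝ) ∈ poly A := ((mem_vert_iff A x').mp x'.2).1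
  have hsub : tight A (y : Fin n → ℝ) ⊆ tight A (x' : Fin n → ℝ) := by
    intro i hi
    rw [mem_tight]
    by_contra hne
    have hlt : dot (A i) x' < 1 := lt_of_le_of_ne (hx'P i) hne
    have : dot w x' < dot w y := by
      rw [hdot, hdot]
      exact Finset.sum_lt_sum (fun j hj => by rw [mem_tight.mp hj]; exact hx'P j)
        ⟨i, hi, by rw [mem_tight.mp hi]; exact hlt⟩
    linarith
  have hyx' : y = x' := Subtype.ext (vert_eq_of_subset y.2 hsub)
  subst hyx'
  exact ⟨p, fun z hz => (h3 z hz).1⟩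

theorem conn_all (hN : Nondeg A) (x y : ↥(Vert A)) :
    ∃ p : (pgraph A).Walk x y, ∀ z ∈ p.support,
      tight A (x : Fin n → ℝ) ∩ tight A (y : Fin n → ℝ) ⊆ tight A (z : Fin n → ℝ) := by
  exact conn_face hN x y _ Finset.inter_subset_left Finset.inter_subset_right

/-- from a vertex in the cap to an optimal vertex of the face -/
private theorem Conn_to_max (hN : Nondeg A) (S : Finset (Fin m)) (w : Fin n → ℝ) (b c : ℝ)
    (hb : ∀ y ∈ poly A, S ⊆ tight A y → dot w y ≤ b) (v : ↥(Vert A))
    (hv : S ⊆ tight A (v : Fin n → ℝ))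
    (hmax : ∀ u ∈ Vert A, S ⊆ tight A u → dot w u ≤ dot w v)
    (x : ↥(Vert A)) (hx : S ⊆ tight A (x : Fin n → ℝ)) (hc : c ≤ dot w x) :
    ∃ p : (pgraph A).Walk x v, ∀ z ∈ p.support, c ≤ dot w (z : Fin n → ℝ) ∧
      S ⊆ tight A (z : Fin n → ℝ) := by
  have hvP : (v : Fin n → ℝ) ∈ poly A := ((mem_vert_iff A v).mp v.2).1
  obtain ⟨x', p, h1, h2, h3⟩ := Conn_climb hN S w b (dot w v) hb
    (fun z _ _ hlt => ⟨v, hvP, hv, hlt⟩) _ x hx le_rfl
  have hx'P : (x' : Fin n → ℝ) ∈ poly A := ((mem_vert_iff A x').mp x'.2).1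
  have heq : dot w x' = dot w v := le_antisymm (hmax x' x'.2 h1) h2
  have hcx' : c ≤ dot w x' := by
    have := (h3 x' p.end_mem_support).2
    linarith
  obtain ⟨co, hco⟩ := exists_coef hN x'.2 w
  have hdot : ∀ z, dot w z = ∑ i ∈ tight A (x' : Fin n → ℝ), co i * dot (A i) z := by
    intro z
    conv_lhs => rw [hco]
    rw [sum_dot]
    exact Finset.sum_congr rfl fun i _ => smul_dot _ _ _
  have hnonneg : ∀ i ∈ tight A (x' : Fin n → ℝ), i ∉ S → 0 ≤ co i := by
    intro i hi hiS
    by_contra hneg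
    push Not at hneg
    obtain ⟨d, hd1, hd2⟩ := exists_dir hN x'.2 hi
    have hwd : dot w d = -co i := by
      rw [hdot, Finset.sum_eq_single_of_mem i hi (fun j hj hji => by rw [hd2 j hj hji, mul_zero]),
        hd1]
      ring
    have hev : ∀ j, ∀ᶠ e : ℝ in nhdsWithin 0 (Set.Ioi 0), dot (A j) x' + e * dot (A j) d ≤ 1 := by
      intro j
      by_cases hj : j ∈ tight A (x' : Fin n → ℝ)
      · filter_upwards [self_mem_nhdsWithin] with e he
        have he' : 0 < e := he
        rw [mem_tight.mp hj]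
        by_cases hji : j = i
        · subst hji
          rw [hd1]
          linarith
        · rw [hd2 j hj hji]
          linarith
      · have hlt : dot (A j) x' < 1 := lt_of_le_of_ne (hx'P j) fun h => hj (mem_tight.mpr h)
        have hcont : Continuous fun e : ℝ => dot (A j) x' + e * dot (A j) d := by fun_prop
        have h0 : Filter.Tendsto (fun e : ℝ => dot (A j) x' + e * dot (A j) d)
            (nhdsWithin 0 (Set.Ioi 0)) (nhds (dot (A j) x' + 0 * dot (A j) d)) :=
          (hcont.tendsto 0).mono_left nhdsWithin_le_nhds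
        have h1' : ∀ᶠ e : ℝ in nhdsWithin 0 (Set.Ioi 0), dot (A j) x' + e * dot (A j) d < 1 :=
          (tendsto_order.mp h0).2 1 (by rw [zero_mul, add_zero]; exact hlt)
        exact h1'.mono fun e he => he.le
    obtain ⟨e, he, he0⟩ := ((Filter.eventually_all.mpr hev).and self_mem_nhdsWithin).exists
    have he0' : 0 < e := he0
    set y : Fin n → ℝ := x' + e • d with hy
    have hydot : ∀ u, dot u y = dot u x' + e * dot u d := by
      intro u
      rw [hy, dot_add, dot_smul]
    have hyP : y ∈ poly A := fun j => by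
      change dot (A j) y ≤ 1
      rw [hydot]
      exact he j
    have hSy : S ⊆ tight A y := by
      intro j hj
      have hji : j ≠ i := fun h => hiS (h ▸ hj)
      rw [mem_tight, hydot, mem_tight.mp (h1 hj), hd2 j (h1 hj) hji]
      ring
    have hlt : dot w x' < dot w y := by
      rw [hydot, hwd]
      nlinarith
    obtain ⟨x1, hx1, hS1, hlt1, -⟩ := pivot hN x'.2 S h1 w b hb hyP hSy hlt
    have := hmax x1 hx1 hS1
    linarith
  classical
  set S' : Finset (Fin m) := S ∪ (tight A (x' : Fin n → ℝ)).filter (fun i => 0 < co i) with hS'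
  have hS'x : S' ⊆ tight A (x' : Fin n → ℝ) := by
    intro i hi
    rw [hS', Finset.mem_union, Finset.mem_filter] at hi
    rcases hi with hi | hi
    · exact h1 hi
    · exact hi.1
  have hterm : ∀ z ∈ poly A, S ⊆ tight A z → ∀ i ∈ tight A (x' : Fin n → ℝ),
      co i * dot (A i) z ≤ co i := by
    intro z hz hSz i hi
    by_cases hiS : i ∈ S
    · rw [mem_tight.mp (hSz hiS), mul_one]
    · have h5 := hnonneg i hi hiS
      have h6 : dot (A i) z ≤ 1 := hz i
      nlinarith
  have hwx' : dot w x' = ∑ i ∈ tight A (x' : Fin n → ℝ), co i := by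
    rw [hdot]
    exact Finset.sum_congr rfl fun i hi => by rw [mem_tight.mp hi, mul_one]
  have hS'v : S' ⊆ tight A (v : Fin n → ℝ) := by
    intro i hi
    rw [hS', Finset.mem_union, Finset.mem_filter] at hi
    rcases hi with hi | ⟨hi, hpos⟩
    · exact hv hi
    · rw [mem_tight]
      by_contra hne
      have hlt : dot (A i) v < 1 := lt_of_le_of_ne (hvP i) hne
      have : dot w v < dot w x' := by
        rw [hwx', hdot]
        exact Finset.sum_lt_sum (hterm v hvP hv) ⟨i, hi, by nlinarith⟩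
      linarith
  have hval : ∀ z, S' ⊆ tight A z → dot w z = dot w x' := by
    intro z hz
    rw [hwx', hdot]
    apply Finset.sum_congr rfl
    intro i hi
    by_cases hiS : i ∈ S'
    · rw [mem_tight.mp (hz hiS), mul_one]
    · have h5 : i ∉ S := fun h => hiS (Finset.mem_union_left _ h)
      have h6 : ¬ 0 < co i := fun h =>
        hiS (Finset.mem_union_right _ (Finset.mem_filter.mpr ⟨hi, h⟩))
      have h7 : co i = 0 := le_antisymm (not_lt.mp h6) (hnonneg i hi h5)
      rw [h7, zero_mul]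
  obtain ⟨q, hq⟩ := conn_face hN x' v S' hS'x hS'v
  refine ⟨p.append q, ?_⟩
  intro z hz
  rw [SimpleGraph.Walk.mem_support_append_iff] at hz
  rcases hz with hz | hz
  · exact ⟨hc.trans (h3 z hz).2, (h3 z hz).1⟩
  · refine ⟨?_, fun i hi => hq z hz (Finset.mem_union_left _ hi)⟩
    rw [hval z (hq z hz)]
    exact hcx'

theorem conn_super (hN : Nondeg A) (X : ℝ) (hX : ∀ x ∈ poly A, ∀ j, |x j| ≤ X) (w : Fin n → ℝ)
    (c : ℝ) (x y : ↥(Vert A)) (hx : c ≤ dot w x) (hy : c ≤ dot w y) :
    ∃ p : (pgraph A).Walk x y, ∀ z ∈ p.support, c ≤ dot w (z : Fin n → ℝ) ∧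
      tight A (x : Fin n → ℝ) ∩ tight A (y : Fin n → ℝ) ⊆ tight A (z : Fin n → ℝ) := by
  set S := tight A (x : Fin n → ℝ) ∩ tight A (y : Fin n → ℝ) with hS
  have hSx : S ⊆ tight A (x : Fin n → ℝ) := Finset.inter_subset_left
  have hSy : S ⊆ tight A (y : Fin n → ℝ) := Finset.inter_subset_right
  have hfin : {v ∈ Vert A | S ⊆ tight A v}.Finite := (vert_finite A).subset fun v hv => hv.1
  obtain ⟨v, hv, hvmax⟩ := Set.exists_max_image {v ∈ Vert A | S ⊆ tight A v} (fun v => dot w v)
    hfin ⟨x, x.2, hSx⟩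
  have hb : ∀ y ∈ poly A, S ⊆ tight A y → dot w y ≤ (∑ j, |w j|) * X := fun z hz _ =>
    (le_abs_self _).trans (abs_dot_le w z (hX z hz))
  obtain ⟨p, hp⟩ := Conn_to_max hN S w _ c hb ⟨v, hv.1⟩ hv.2
    (fun u hu hSu => hvmax u ⟨hu, hSu⟩) x hSx hx
  obtain ⟨q, hq⟩ := Conn_to_max hN S w _ c hb ⟨v, hv.1⟩ hv.2
    (fun u hu hSu => hvmax u ⟨hu, hSu⟩) y hSy hy
  refine ⟨p.append q.reverse, ?_⟩
  intro z hz
  rw [SimpleGraph.Walk.mem_support_append_iff, SimpleGraph.Walk.support_reverse,
    List.mem_reverse] at hz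
  rcases hz with hz | hz
  · exact hp z hz
  · exact hq z hz

end H44SD
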