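import Mathlib

/-!
Project SD (MP_43ee49_co), helper44. Smoothed diameter of polyhedra. Definitions (complete).
-/

namespace H44SD

open Finset

/-- scalar product of two vectors -/
def dot {n : ℕ} (v x : Fin n → ℝ) : ℝ := ∑ j, v j * x j

/-- the polyhedron `A x ≤ 1` -/
def poly {m n : ℕ} (A : Fin m → Fin n → ℝ) : Set (Fin n → ℝ) := {x | ∀ i, ∑ j, A i j * x j ≤ 1}

/-- the rows which are tight at `x` -/
noncomputable def tight {m n : ℕ} (A : Fin m → Fin n → ℝ) (x : Fin n → ℝ) : Finset (Fin m) :=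
  univ.filter (fun i => dot (A i) x = 1)

/-- the rows which are tight at `x` up to `ρ` -/
noncomputable def near {m n : ℕ} (A : Fin m → Fin n → ℝ) (ρ : ℝ) (x : Fin n → ℝ) :
    Finset (Fin m) :=
  univ.filter (fun i => 1 - ρ ≤ dot (A i) x)

/-- the vertices -/
def Vert {m n : ℕ} (A : Fin m → Fin n → ℝ) : Set (Fin n → ℝ) := Set.extremePoints ℝ (poly A)

/-- the graph of the polyhedron: vertices are joined when the segment is an edge -/
def pgraph {m n : ℕ} (A : Fin m → Fin n → ℝ) : SimpleGraph ↥(Vert A) :=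
  SimpleGraph.fromRel (fun u v => IsExtreme ℝ (poly A) (segment ℝ (u : Fin n → ℝ) (v : Fin n → ℝ)))

/-- the diameter of the graph -/
noncomputable def pdiam {m n : ℕ} (A : Fin m → Fin n → ℝ) : ℕ := (pgraph A).diam

/-- no point of the polyhedron is on more than `n` facets -/
def Nondeg {m n : ℕ} (A : Fin m → Fin n → ℝ) : Prop := ∀ x ∈ poly A, (tight A x).card ≤ n

/-- quantitative properties of a good matrix -/
structure Good {m n : ℕ} (A : Fin m → Fin n → ℝ) (X R ρ τ : ℝ) (q : ℕ) : Prop where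
  /-- the polyhedron is in the cube of radius `X` -/
  bd : ∀ x ∈ poly A, ∀ j, |x j| ≤ X
  /-- the rows have `l1` norm at most `R` -/
  row : ∀ i, ∑ j, |A i j| ≤ R
  /-- at most `q` rows are `ρ`-tight at a point -/
  nt : ∀ x ∈ poly A, (near A ρ x).card ≤ q
  /-- at most `n` rows are `τ`-tight at a point -/
  nd : ∀ x ∈ poly A, (near A τ x).card ≤ n

theorem mem_tight {m n : ℕ} {A : Fin m → Fin n → ℝ} {x : Fin n → ℝ} {i : Fin m} :
    i ∈ tight A x ↔ dot (A i) x = 1 := by
  simp [tight]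

theorem mem_near {m n : ℕ} {A : Fin m → Fin n → ℝ} {ρ : ℝ} {x : Fin n → ℝ} {i : Fin m} :
    i ∈ near A ρ x ↔ 1 - ρ ≤ dot (A i) x := by
  simp [near]

theorem mem_poly {m n : ℕ} {A : Fin m → Fin n → ℝ} {x : Fin n → ℝ} :
    x ∈ poly A ↔ ∀ i, dot (A i) x ≤ 1 := Iff.rfl

theorem dot_add {n : ℕ} (v x y : Fin n → ℝ) : dot v (x + y) = dot v x + dot v y := by
  simp only [dot, Pi.add_apply, mul_add, Finset.sum_add_distrib]

theorem dot_sub {n : ℕ} (v x y : Fin n → ℝ) : dot v (x - y) = dot v x - dot v y := by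
  simp only [dot, Pi.sub_apply, mul_sub, Finset.sum_sub_distrib]

theorem dot_smul {n : ℕ} (v x : Fin n → ℝ) (c : ℝ) : dot v (c • x) = c * dot v x := by
  simp only [dot, Pi.smul_apply, smul_eq_mul, Finset.mul_sum]
  exact Finset.sum_congr rfl (fun j _ => by ring)

theorem add_dot {n : ℕ} (v w x : Fin n → ℝ) : dot (v + w) x = dot v x + dot w x := by
  simp only [dot, Pi.add_apply, add_mul, Finset.sum_add_distrib]

theorem sub_dot {n : ℕ} (v w x : Fin n → ℝ) : dot (v - w) x = dot v x - dot w x := by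
  simp only [dot, Pi.sub_apply, sub_mul, Finset.sum_sub_distrib]

theorem smul_dot {n : ℕ} (v x : Fin n → ℝ) (c : ℝ) : dot (c • v) x = c * dot v x := by
  simp only [dot, Pi.smul_apply, smul_eq_mul, Finset.mul_sum]
  exact Finset.sum_congr rfl (fun j _ => by ring)

theorem dot_zero {n : ℕ} (v : Fin n → ℝ) : dot v 0 = 0 := by simp [dot]

theorem zero_dot {n : ℕ} (x : Fin n → ℝ) : dot 0 x = 0 := by simp [dot]

theorem sum_dot {n : ℕ} {ι : Type*} (s : Finset ι) (v : ι → Fin n → ℝ) (x : Fin n → ℝ) :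
    dot (∑ i ∈ s, v i) x = ∑ i ∈ s, dot (v i) x := by
  classical
  induction s using Finset.induction_on with
  | empty => simp [zero_dot]
  | insert a s ha ih => rw [Finset.sum_insert ha, Finset.sum_insert ha, add_dot, ih]

theorem abs_dot_le {n : ℕ} (v x : Fin n → ℝ) {X : ℝ} (hx : ∀ j, |x j| ≤ X) :
    |dot v x| ≤ (∑ j, |v j|) * X := by
  unfold dot
  calc |∑ j, v j * x j| ≤ ∑ j, |v j * x j| := Finset.abs_sum_le_sum_abs _ _
    _ ≤ ∑ j, |v j| * X := by
        refine Finset.sum_le_sum (fun j _ => ?_)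
        rw [abs_mul]
        exact mul_le_mul_of_nonneg_left (hx j) (abs_nonneg _)
    _ = (∑ j, |v j|) * X := by rw [Finset.sum_mul]

theorem tight_subset_near {m n : ℕ} {A : Fin m → Fin n → ℝ} {ρ : ℝ} (hρ : 0 ≤ ρ)
    (x : Fin n → ℝ) : tight A x ⊆ near A ρ x := by
  intro i hi
  rw [mem_tight] at hi
  rw [mem_near, hi]
  linarith

theorem Good.nondeg {m n : ℕ} {A : Fin m → Fin n → ℝ} {X R ρ τ : ℝ} {q : ℕ}
    (h : Good A X R ρ τ q) (hτ : 0 ≤ τ) : Nondeg A := fun x hx =>
  le_trans (Finset.card_le_card (tight_subset_near hτ x)) (h.nd x hx)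

end H44SD
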