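import Pool.Agent.H44.SD.BadCount

/-!
Project SD (MP_43ee49_co), helper44, module ExistsZ: a direction which is good for finitely many
objective functions.

Given `L` pairs `(c l, s l)` with `s l > 0` and heights `χ * s l`. If
`L * n^2 * (11943936 X^6 χ^2 / α^4) < 1` then there is `z ∈ [0,1]^n` such that no `c l + s l * z` is bad
for any pair `i ≠ j`.

Proof. `K` a natural number with `K ≥ 1` and `α ≤ 24 χ X K` (so `hK` of `bad_count` holds for all `l`
with `h = χ * s l`). By `bad_count` the number of `z : Fin n → Fin K` which are bad for some `l`, `i ≠ j` is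
at most `L * n^2 * (11943936 X^6 χ^2 / α^4) * K^n < K^n` (note `h^2 / s^2 = χ^2`), so some grid `z` is good.
If `α > 12 X^2` then nothing is bad (`|det3| ≤ 8 X^2`), any `z` works. The real direction is `z k / K`
(rewrite `s * z k / K = s * (z k / K)`).
-/

namespace H44SD

open Finset

private theorem ExistsZ_det {n : ℕ} {V : Set (Fin n → ℝ)} {X : ℝ} (hV : ∀ x ∈ V, ∀ k, |x k| ≤ X)
    (hX : 0 < X) (i j : Fin n) {x : Fin 3 → Fin n → ℝ} (hx : ∀ l, x l ∈ V) :
    |det3 i j x| ≤ 8 * X ^ 2 := by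
  have h1 : ∀ l l' k, |x l k - x l' k| ≤ 2 * X := by
    intro l l' k
    have h2 := abs_le.1 (hV _ (hx l) k)
    have h3 := abs_le.1 (hV _ (hx l') k)
    rw [abs_le]
    constructor <;> linarith
  unfold det3
  calc |(x 1 i - x 0 i) * (x 2 j - x 0 j) - (x 1 j - x 0 j) * (x 2 i - x 0 i)|
      ≤ |(x 1 i - x 0 i) * (x 2 j - x 0 j)| + |(x 1 j - x 0 j) * (x 2 i - x 0 i)| := abs_sub _ _
    _ = |x 1 i - x 0 i| * |x 2 j - x 0 j| + |x 1 j - x 0 j| * |x 2 i - x 0 i| := by
        rw [abs_mul, abs_mul]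
    _ ≤ (2 * X) * (2 * X) + (2 * X) * (2 * X) := by
        apply add_le_add
        · exact mul_le_mul (h1 _ _ _) (h1 _ _ _) (abs_nonneg _) (by positivity)
        · exact mul_le_mul (h1 _ _ _) (h1 _ _ _) (abs_nonneg _) (by positivity)
    _ = 8 * X ^ 2 := by ring

theorem exists_z {n : ℕ} {V : Set (Fin n → ℝ)} {X α χ : ℝ} (hV : ∀ x ∈ V, ∀ k, |x k| ≤ X)
    (hX : 0 < X) (hα : 0 < α) (hχ : 0 < χ) (L : ℕ) (c : Fin L → Fin n → ℝ) (s : Fin L → ℝ)
    (hs : ∀ l, 0 < s l)
    (hsmall : (L : ℝ) * (n : ℝ) ^ 2 * (11943936 * X ^ 6 * χ ^ 2 / α ^ 4) < 1) :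
    ∃ z : Fin n → ℝ, (∀ k, 0 ≤ z k ∧ z k ≤ 1) ∧
      ∀ l, ∀ i j, i ≠ j → ¬ Bad V i j α (χ * s l) (fun k => c l k + s l * z k) := by
  classical
  rcases lt_or_ge (12 * X ^ 2) α with hα' | hα'
  · refine ⟨fun _ => 0, fun k => ⟨le_refl 0, zero_le_one⟩, ?_⟩
    intro l i j _ hbad
    obtain ⟨x, hx, hd⟩ := hbad
    have h1 := ExistsZ_det hV hX i j (x := x) (fun l => (hx l).1)
    nlinarith [sq_nonneg X]
  · obtain ⟨K, hK⟩ := exists_nat_ge (α / (24 * χ * X) + 1)
    have hpos : 0 < 24 * χ * X := by positivity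
    have hdiv : 0 ≤ α / (24 * χ * X) := by positivity
    have hK1 : (1 : ℝ) ≤ K := by linarith
    have hK0 : (0 : ℝ) < K := by linarith
    have hK2 : α ≤ 24 * χ * X * K := by
      have h1 : α / (24 * χ * X) ≤ K := by linarith
      rw [div_le_iff₀ hpos] at h1
      linarith
    by_contra hcon
    push Not at hcon
    set T : Fin L × Fin n × Fin n → Finset (Fin n → Fin K) := fun p =>
      if p.2.1 ≠ p.2.2 then (univ : Finset (Fin n → Fin K)).filter
        (fun z => Bad V p.2.1 p.2.2 α (χ * s p.1)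
          (fun k => c p.1 k + s p.1 * (z k : ℝ) / K)) else ∅ with hT
    have hcover : (univ : Finset (Fin n → Fin K)) ⊆ univ.biUnion T := by
      intro z _
      have h1 := hcon (fun k => ((z k : ℕ) : ℝ) / K) (by
        intro k
        refine ⟨by positivity, ?_⟩
        rw [div_le_one hK0]
        exact_mod_cast (z k).isLt.le)
      obtain ⟨l, i, j, hij, hb⟩ := h1
      rw [mem_biUnion]
      refine ⟨(l, i, j), mem_univ _, ?_⟩
      simp only [hT]
      rw [if_pos hij, mem_filter]
      refine ⟨mem_univ _, ?_⟩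
      have h2 : (fun k => c l k + s l * ((z k : ℕ) : ℝ) / K) =
          fun k => c l k + s l * (((z k : ℕ) : ℝ) / K) := by
        funext k
        rw [mul_div_assoc]
      rw [h2]
      exact hb
    set C : ℝ := 11943936 * X ^ 6 * χ ^ 2 / α ^ 4 * (K : ℝ) ^ n with hC
    have hC0 : 0 ≤ C := by positivity
    have hTle : ∀ p, ((T p).card : ℝ) ≤ C := by
      intro p
      simp only [hT]
      split_ifs with hp
      · have h1 := bad_count (n := n) (K := K) (V := V) (X := X) (α := α) (h := χ * s p.1)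
          (s := s p.1) hV hX hα hα' (mul_pos hχ (hs p.1)) (hs p.1) (by
            have h2 := mul_le_mul_of_nonneg_right hK2 (hs p.1).le
            linarith) hp (c p.1)
        refine h1.trans (le_of_eq ?_)
        have hsp := (hs p.1).ne'
        rw [hC]
        field_simp
      · simpa using hC0
    have hcard : ((univ : Finset (Fin n → Fin K)).card : ℝ) = (K : ℝ) ^ n := by
      simp
    have hle : (K : ℝ) ^ n ≤ (L : ℝ) * (n : ℝ) ^ 2 * C := by
      rw [← hcard]
      calc ((univ : Finset (Fin n → Fin K)).card : ℝ)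
          ≤ ((univ.biUnion T).card : ℝ) := by exact_mod_cast card_le_card hcover
        _ ≤ ((∑ p, (T p).card : ℕ) : ℝ) := by exact_mod_cast card_biUnion_le
        _ = ∑ p, ((T p).card : ℝ) := by push_cast; rfl
        _ ≤ ∑ _p : Fin L × Fin n × Fin n, C := sum_le_sum fun p _ => hTle p
        _ = (L : ℝ) * (n : ℝ) ^ 2 * C := by
            rw [sum_const, card_univ, nsmul_eq_mul]
            simp only [Fintype.card_prod, Fintype.card_fin]
            push_cast
            ring
    have hKn : (0 : ℝ) < (K : ℝ) ^ n := by positivity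
    have h3 : (L : ℝ) * (n : ℝ) ^ 2 * C =
        (L : ℝ) * (n : ℝ) ^ 2 * (11943936 * X ^ 6 * χ ^ 2 / α ^ 4) * (K : ℝ) ^ n := by
      rw [hC]
      ring
    rw [h3] at hle
    have h4 := mul_lt_mul_of_pos_right hsmall hKn
    linarith

end H44SD
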