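import Pool.Agent.H44.SD.FinalA

/-!
Project SD (MP_43ee49_co), helper44: the final statements.
-/

namespace H44SD

open MeasureTheory ProbabilityTheory Finset

/-- the explicit bound, in the words of the problem -/
theorem main_bound (m n : ℕ) (σ : ℝ) (hσ : 0 < σ) (Abar : Fin m → Fin n → ℝ)
    (hA : ∑ i, ∑ j, Abar i j ^ 2 ≤ 1) :
    ∫⁻ G : Fin m → Fin n → ℝ,
      (((SimpleGraph.fromRel
          (fun u v : ↥(Set.extremePoints ℝ
              {x : Fin n → ℝ | ∀ i, ∑ j, (Abar i j + σ * G i j) * x j ≤ 1}) =>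
            IsExtreme ℝ
              {x : Fin n → ℝ | ∀ i, ∑ j, (Abar i j + σ * G i j) * x j ≤ 1}
              (segment ℝ (u : Fin n → ℝ) (v : Fin n → ℝ)))).diam : ℕ) : ENNReal)
      ∂(Measure.pi fun _ : Fin m => Measure.pi fun _ : Fin n => gaussianReal 0 1) ≤
    ENNReal.ofReal (((n : ℝ) + 1 / σ + Real.log ((m : ℝ) + 1) + 2) ^ 280 *
      min ((2 : ℝ) ^ n)
        (((n : ℝ) + 1 / σ + Real.log ((m : ℝ) + 1) + 2) ^ (50 * Real.log ((n : ℝ) + 1)))) :=
  lint_bound m n hσ Abar hA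

private theorem log_le_two_sqrt {x : ℝ} (hx : 0 < x) : Real.log x ≤ 2 * √x := by
  have h1 : Real.log x = 2 * Real.log (√x) := by
    rw [Real.log_sqrt hx.le]; ring
  have h2 : Real.log (√x) ≤ √x := by
    have := Real.log_le_sub_one_of_pos (Real.sqrt_pos.2 hx)
    linarith
  linarith

private theorem pow_aux (X : ℝ) (a b : ℕ) :
    (2 * X) ^ a * (2 * X) ^ b = ((2 ^ (a + b) : ℕ) : ℝ) * X ^ (a + b) := by
  rw [← pow_add, mul_pow, Nat.cast_pow, Nat.cast_ofNat]

private theorem fin_aux {Q X M T : ℝ} {a b : ℕ} (hQ : 0 ≤ Q) (hX : 0 ≤ X) (h1 : Q ≤ 2 * X)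
    (h2 : T ≤ (2 * X) ^ b) (h3 : M ≤ T) (hM : 0 ≤ T) :
    Q ^ a * M ≤ ((2 ^ (a + b) : ℕ) : ℝ) * X ^ (a + b) := by
  rw [← pow_aux]
  calc Q ^ a * M ≤ Q ^ a * T := mul_le_mul_of_nonneg_left h3 (pow_nonneg hQ a)
    _ ≤ (2 * X) ^ a * (2 * X) ^ b :=
      mul_le_mul (pow_le_pow_left₀ hQ h1 a) h2 hM (pow_nonneg (by linarith) a)

/-- the bound `FB` is polynomial on the region -/
theorem FB_region (K : ℝ) : ∃ C k : ℕ, ∀ (m n : ℕ) (σ : ℝ), 0 < σ →
    Real.log ((n : ℝ) + 2) * Real.log ((n : ℝ) + 1 / σ + 2) ≤ K * Real.log ((m : ℝ) + 2) →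
    FB m n σ ≤ C * (1 + (m : ℝ) + (n : ℝ) + 1 / σ) ^ k := by
  refine ⟨2 ^ (280 + ⌈50 * (K + 4 * √K)⌉₊), 280 + ⌈50 * (K + 4 * √K)⌉₊, ?_⟩
  intro m n σ hσ hreg
  set k1 := ⌈50 * (K + 4 * √K)⌉₊ with hk1
  have hn0 : (0 : ℝ) ≤ n := Nat.cast_nonneg n
  have hm0 : (0 : ℝ) ≤ m := Nat.cast_nonneg m
  have hs : 0 < 1 / σ := by positivity
  set a := Real.log ((n : ℝ) + 2) with ha
  set b := Real.log ((n : ℝ) + 1 / σ + 2) with hb
  set l := Real.log ((m : ℝ) + 2) with hl
  have hlog2 : (0.69 : ℝ) < Real.log 2 := by have := Real.log_two_gt_d9; linarith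
  have ha0 : Real.log 2 ≤ a := Real.log_le_log (by norm_num) (by linarith)
  have hab : a ≤ b := Real.log_le_log (by linarith) (by linarith)
  have hl0 : Real.log 2 ≤ l := Real.log_le_log (by norm_num) (by linarith)
  have hK : 0 < K := by
    by_contra hcon
    have h1 : K * l ≤ 0 := mul_nonpos_of_nonpos_of_nonneg (not_lt.1 hcon) (by linarith)
    have h2 : 0 < a * b := by nlinarith
    linarith
  -- the logarithm of `Q`
  have hQ2 := QQ_ge_two m n hσ
  have hy0 : 0 ≤ Real.log ((m : ℝ) + 1) := Real.log_nonneg (by linarith)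
  have hyl : Real.log ((m : ℝ) + 1) ≤ l := Real.log_le_log (by linarith) (by linarith)
  have hQle : QQ m n σ ≤ ((n : ℝ) + 1 / σ + 2) * (1 + Real.log ((m : ℝ) + 1)) := by
    unfold QQ
    nlinarith
  have hlogQ : Real.log (QQ m n σ) ≤ b + Real.log (1 + Real.log ((m : ℝ) + 1)) := by
    rw [hb, ← Real.log_mul (by linarith) (by linarith)]
    exact Real.log_le_log (by linarith) hQle
  have h3 : Real.log (1 + Real.log ((m : ℝ) + 1)) ≤ 4 * √l := by
    have h4 := log_le_two_sqrt (x := 1 + Real.log ((m : ℝ) + 1)) (by linarith)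
    have h5 : √(1 + Real.log ((m : ℝ) + 1)) ≤ √(4 * l) := Real.sqrt_le_sqrt (by linarith)
    have h6 : √(4 * l) = 2 * √l := by
      rw [Real.sqrt_mul (by norm_num)]
      congr 1
      rw [show (4 : ℝ) = 2 ^ 2 by norm_num, Real.sqrt_sq (by norm_num)]
    linarith
  have ha2 : a ≤ √K * √l := by
    rw [← Real.sqrt_mul hK.le]
    refine Real.le_sqrt_of_sq_le ?_
    nlinarith
  have hT : a * Real.log (QQ m n σ) ≤ (K + 4 * √K) * l := by
    have h7 : a * Real.log (QQ m n σ) ≤ a * (b + 4 * √l) := by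
      refine mul_le_mul_of_nonneg_left ?_ (by linarith)
      linarith
    have h8 : a * (4 * √l) ≤ 4 * √K * l := by
      have h9 : a * √l ≤ √K * √l * √l := mul_le_mul_of_nonneg_right ha2 (Real.sqrt_nonneg _)
      have h10 : √l * √l = l := Real.mul_self_sqrt (by linarith)
      have h11 : √K * √l * √l = √K * l := by rw [mul_assoc, h10]
      nlinarith
    nlinarith
  have hlogn : Real.log ((n : ℝ) + 1) ≤ a := Real.log_le_log (by linarith) (by linarith)
  have hlogn0 : 0 ≤ Real.log ((n : ℝ) + 1) := Real.log_nonneg (by linarith)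
  have hlogQ0 : 0 ≤ Real.log (QQ m n σ) := Real.log_nonneg (by linarith)
  -- the exponential part
  have hP : 0 < 1 + (m : ℝ) + (n : ℝ) + 1 / σ := by linarith
  have hE : QQ m n σ ^ (50 * Real.log ((n : ℝ) + 1)) ≤
      (2 * (1 + (m : ℝ) + (n : ℝ) + 1 / σ)) ^ k1 := by
    calc QQ m n σ ^ (50 * Real.log ((n : ℝ) + 1))
        = Real.exp (Real.log (QQ m n σ) * (50 * Real.log ((n : ℝ) + 1))) := by
          rw [Real.rpow_def_of_pos (by linarith)]
      _ ≤ Real.exp (l * k1) := by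
          refine Real.exp_le_exp.2 ?_
          have h12 : Real.log (QQ m n σ) * (50 * Real.log ((n : ℝ) + 1)) ≤
              50 * ((K + 4 * √K) * l) := by
            have : Real.log (QQ m n σ) * Real.log ((n : ℝ) + 1) ≤ a * Real.log (QQ m n σ) := by
              rw [mul_comm]
              exact mul_le_mul_of_nonneg_right hlogn hlogQ0
            linarith
          have h13 : 50 * (K + 4 * √K) ≤ k1 := Nat.le_ceil _
          have h14 : 50 * (K + 4 * √K) * l ≤ k1 * l :=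
            mul_le_mul_of_nonneg_right h13 (by linarith)
          linarith
      _ = ((m : ℝ) + 2) ^ k1 := by
          rw [mul_comm, Real.exp_nat_mul, hl, Real.exp_log (by linarith)]
      _ ≤ _ := pow_le_pow_left₀ (by linarith) (by linarith) k1
  have hQ1 : QQ m n σ ≤ 2 * (1 + (m : ℝ) + (n : ℝ) + 1 / σ) := by
    clear hE hT
    unfold QQ
    have : Real.log ((m : ℝ) + 1) ≤ m := by
      have := Real.log_le_sub_one_of_pos (x := (m : ℝ) + 1) (by linarith)
      linarith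
    linarith
  have hQpos : 0 < QQ m n σ := by clear hE hT; linarith
  unfold FB
  exact fin_aux (a := 280) (b := k1) hQpos.le hP.le hQ1 hE (min_le_right _ _)
    (Real.rpow_nonneg hQpos.le _)

theorem main_region (K : ℝ) : ∃ C k : ℕ, ∀ (m n : ℕ) (σ : ℝ), 0 < σ →
    Real.log ((n : ℝ) + 2) * Real.log ((n : ℝ) + 1 / σ + 2) ≤ K * Real.log ((m : ℝ) + 2) →
    ∀ Abar : Fin m → Fin n → ℝ, (∑ i, ∑ j, Abar i j ^ 2 ≤ 1) →
    ∫⁻ G : Fin m → Fin n → ℝ,
      (((SimpleGraph.fromRel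
          (fun u v : ↥(Set.extremePoints ℝ
              {x : Fin n → ℝ | ∀ i, ∑ j, (Abar i j + σ * G i j) * x j ≤ 1}) =>
            IsExtreme ℝ
              {x : Fin n → ℝ | ∀ i, ∑ j, (Abar i j + σ * G i j) * x j ≤ 1}
              (segment ℝ (u : Fin n → ℝ) (v : Fin n → ℝ)))).diam : ℕ) : ENNReal)
      ∂(Measure.pi fun _ : Fin m => Measure.pi fun _ : Fin n => gaussianReal 0 1) ≤
    (C : ENNReal) * ENNReal.ofReal ((1 + (m : ℝ) + (n : ℝ) + 1 / σ) ^ k) := by
  obtain ⟨C, k, h⟩ := FB_region K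
  refine ⟨C, k, fun m n σ hσ hreg Abar hA => ?_⟩
  refine (lint_bound m n hσ Abar hA).trans ?_
  have h1 := h m n σ hσ hreg
  have e : (C : ENNReal) * ENNReal.ofReal ((1 + (m : ℝ) + (n : ℝ) + 1 / σ) ^ k) =
      ENNReal.ofReal (C * (1 + (m : ℝ) + (n : ℝ) + 1 / σ) ^ k) := by
    rw [ENNReal.ofReal_mul (by positivity), ENNReal.ofReal_natCast]
  rw [e]
  exact ENNReal.ofReal_le_ofReal h1

end H44SD
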