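import Mathlib

/-!
Project SD (MP_43ee49_co), helper44, module GaussStrip: one-dimensional Gaussian estimates.

`φ(x) = exp(-x²/2) / √(2π)` is `gaussianPDFReal 0 1 x`; `0.39 < 1/√(2π) < 0.4`.
* `gauss_strip`. Case `b ≤ 1`: `γ(Icc) ≤ 0.4 δ` and `γ(Ioi b) ≥ γ(Ioc 1 2) ≥ φ(2) ≥ 0.39 e^{-2} ≥ 0.05`;
  `0.4 / 0.05 = 8 ≤ 13`. Case `b > 1`: `γ(Ioi b) ≥ γ(Ioc b (b + 1/b)) ≥ (1/b) φ(b + 1/b) =
  (1/b) φ(b) exp(-1 - 1/(2b²)) ≥ (1/b) φ(b) e^{-3/2}`; for `a ∈ [b - δ, b]`,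
  `φ(a) = φ(b) exp((b² - a²)/2) ≤ φ(b) exp(δ b) ≤ e φ(b)` (`b² - a² = (b - a)(b + a) ≤ 2 δ b`: if
  `b + a ≥ 0` use `b + a ≤ 2 b`, otherwise it is `≤ 0`). So `γ(Icc) ≤ δ e φ(b) ≤ e^{5/2} δ b γ(Ioi b)`
  and `e^{5/2} < 12.2 < 13`.
* `gauss_iic_two`: `γ(Ioc 2 (5/2)) ≥ (1/2) φ(5/2) ≥ 1/200` (`e^{-25/8} ≥ 0.0439`, times `0.195`).
* `gauss_abs_tail`: `γ(Ioi Λ) ≤ e^{-Λ²/2}` (for `Λ ≥ 0`: Chernoff, `E e^{Λ N} = e^{Λ²/2}`, Mathlib has
  the moment generating function / sub-Gaussian bound `measure_ge_le`), symmetric.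
-/

namespace H44SD

open MeasureTheory ProbabilityTheory

private noncomputable def cst : ℝ := (Real.sqrt (2 * Real.pi))⁻¹

private theorem cst_up : cst ≤ 0.4 := by
  unfold cst
  have h : (2.5 : ℝ) ≤ Real.sqrt (2 * Real.pi) := by
    apply Real.le_sqrt_of_sq_le
    have := Real.pi_gt_d2
    nlinarith
  calc (Real.sqrt (2 * Real.pi))⁻¹ ≤ (2.5 : ℝ)⁻¹ := inv_anti₀ (by norm_num) h
    _ = 0.4 := by norm_num

private theorem cst_low : 0.39 ≤ cst := by
  unfold cst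
  have h : Real.sqrt (2 * Real.pi) ≤ (2.55 : ℝ) := by
    apply Real.sqrt_le_iff.mpr
    have := Real.pi_lt_d2
    constructor
    · norm_num
    · nlinarith
  have h2 : 0 < Real.sqrt (2 * Real.pi) := Real.sqrt_pos.mpr (by positivity)
  calc (0.39 : ℝ) ≤ (2.55 : ℝ)⁻¹ := by norm_num
    _ ≤ (Real.sqrt (2 * Real.pi))⁻¹ := inv_anti₀ h2 h

private theorem pdf_eq (x : ℝ) : gaussianPDFReal 0 1 x = cst * Real.exp (-x ^ 2 / 2) := by
  unfold gaussianPDFReal cst
  simp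

private theorem up {a b c : ℝ} (h : ∀ x ∈ Set.Icc a b, cst * Real.exp (-x ^ 2 / 2) ≤ c)
    (hc : 0 ≤ c) : gaussianReal 0 1 (Set.Icc a b) ≤ ENNReal.ofReal (c * (b - a)) := by
  rw [gaussianReal_apply 0 (by norm_num) (Set.Icc a b)]
  calc ∫⁻ x in Set.Icc a b, gaussianPDF 0 1 x
      ≤ ∫⁻ _x in Set.Icc a b, ENNReal.ofReal c := by
        refine setLIntegral_mono measurable_const ?_
        intro x hx
        unfold gaussianPDF
        rw [pdf_eq]
        exact ENNReal.ofReal_le_ofReal (h x hx)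
    _ = ENNReal.ofReal (c * (b - a)) := by
        rw [setLIntegral_const, Real.volume_Icc, ← ENNReal.ofReal_mul hc]

private theorem low {a b c : ℝ} (h : ∀ x ∈ Set.Ioc a b, c ≤ cst * Real.exp (-x ^ 2 / 2))
    (hc : 0 ≤ c) : ENNReal.ofReal (c * (b - a)) ≤ gaussianReal 0 1 (Set.Ioc a b) := by
  rw [gaussianReal_apply 0 (by norm_num) (Set.Ioc a b)]
  calc ENNReal.ofReal (c * (b - a)) = ∫⁻ _x in Set.Ioc a b, ENNReal.ofReal c := by
        rw [setLIntegral_const, Real.volume_Ioc, ← ENNReal.ofReal_mul hc]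
    _ ≤ ∫⁻ x in Set.Ioc a b, gaussianPDF 0 1 x := by
        refine setLIntegral_mono (measurable_gaussianPDF 0 1) ?_
        intro x hx
        unfold gaussianPDF
        rw [pdf_eq]
        exact ENNReal.ofReal_le_ofReal (h x hx)

private theorem exp_low {x y : ℝ} (h : |x| ≤ y) :
    Real.exp (-y ^ 2 / 2) ≤ Real.exp (-x ^ 2 / 2) := by
  apply Real.exp_le_exp.mpr
  have h1 : x ^ 2 ≤ y ^ 2 := by
    have := abs_le.mp h
    nlinarith [abs_nonneg x]
  linarith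

private theorem exp_neg_ge {n : ℕ} {t c : ℝ} (ht : 2 * t ≤ n) (hc : 0 < c)
    (h : (2.7182818286 : ℝ) ^ n ≤ c ^ 2) : c⁻¹ ≤ Real.exp (-t) := by
  rw [Real.exp_neg]
  refine inv_anti₀ (Real.exp_pos t) ?_
  have h1 : Real.exp t ^ 2 ≤ c ^ 2 := by
    calc Real.exp t ^ 2 = Real.exp (2 * t) := by rw [← Real.exp_nat_mul]; norm_num
      _ ≤ Real.exp (n : ℝ) := Real.exp_le_exp.mpr ht
      _ = Real.exp 1 ^ n := by rw [← Real.exp_nat_mul]; simp
      _ ≤ (2.7182818286 : ℝ) ^ n :=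
          pow_le_pow_left₀ (Real.exp_pos 1).le Real.exp_one_lt_d9.le n
      _ ≤ c ^ 2 := h
  exact le_of_sq_le_sq h1 hc.le

theorem gauss_strip {b δ : ℝ} (hδ : 0 ≤ δ) (h : δ * b ≤ 1) :
    gaussianReal 0 1 (Set.Icc (b - δ) b) ≤
      ENNReal.ofReal (13 * δ * max 1 b) * gaussianReal 0 1 (Set.Ioi b) := by
  have hcl := cst_low
  have hcu := cst_up
  have hc0 : 0 < cst := by linarith
  have key : ∀ A B : ℝ, 0 ≤ B → gaussianReal 0 1 (Set.Icc (b - δ) b) ≤ ENNReal.ofReal A →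
      ENNReal.ofReal B ≤ gaussianReal 0 1 (Set.Ioi b) → A ≤ 13 * δ * max 1 b * B →
      gaussianReal 0 1 (Set.Icc (b - δ) b) ≤
      ENNReal.ofReal (13 * δ * max 1 b) * gaussianReal 0 1 (Set.Ioi b) := by
    intro A B _ h1 h2 h3
    have hp : 0 ≤ 13 * δ * max 1 b := by positivity
    calc gaussianReal 0 1 (Set.Icc (b - δ) b) ≤ ENNReal.ofReal A := h1
      _ ≤ ENNReal.ofReal (13 * δ * max 1 b * B) := ENNReal.ofReal_le_ofReal h3
      _ = ENNReal.ofReal (13 * δ * max 1 b) * ENNReal.ofReal B := ENNReal.ofReal_mul hp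
      _ ≤ _ := mul_le_mul' le_rfl h2
  rcases le_or_gt b 1 with hb | hb
  · have e2 : (7.5 : ℝ)⁻¹ ≤ Real.exp (-2) := exp_neg_ge (n := 4) (by norm_num) (by norm_num)
      (by norm_num)
    refine key (0.4 * (b - (b - δ))) (0.05 * (2 - 1)) (by norm_num)
      (up (c := 0.4) ?_ (by norm_num)) ?_ ?_
    · intro x _
      calc cst * Real.exp (-x ^ 2 / 2) ≤ 0.4 * 1 := by
            refine mul_le_mul hcu ?_ (Real.exp_pos _).le (by norm_num)
            rw [Real.exp_le_one_iff]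
            nlinarith [sq_nonneg x]
        _ = 0.4 := by norm_num
    · refine (low (a := 1) (b := 2) (c := 0.05) ?_ (by norm_num)).trans
        (measure_mono ?_)
      · intro x hx
        have h1 : Real.exp (-(2 : ℝ) ^ 2 / 2) ≤ Real.exp (-x ^ 2 / 2) :=
          exp_low (by rw [abs_of_pos (by linarith [hx.1])]; exact hx.2)
        have h2 : Real.exp (-(2 : ℝ) ^ 2 / 2) = Real.exp (-2) := by norm_num
        rw [h2] at h1
        have h3 : (7.5 : ℝ)⁻¹ ≤ Real.exp (-x ^ 2 / 2) := e2.trans h1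
        calc (0.05 : ℝ) ≤ 0.39 * (7.5 : ℝ)⁻¹ := by norm_num
          _ ≤ cst * Real.exp (-x ^ 2 / 2) := by
              refine mul_le_mul hcl h3 (by norm_num) hc0.le
      · intro x hx
        exact lt_of_le_of_lt hb hx.1
    · have : (1 : ℝ) ≤ max 1 b := le_max_left _ _
      nlinarith [mul_nonneg hδ (sub_nonneg.mpr this)]
  · have hb0 : 0 < b := by linarith
    have hmax : max 1 b = b := max_eq_right hb.le
    have e1 : (13 : ℝ)⁻¹ ≤ Real.exp (-(5 / 2)) := exp_neg_ge (n := 5) (by norm_num) (by norm_num)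
      (by norm_num)
    refine key (cst * (Real.exp 1 * Real.exp (-b ^ 2 / 2)) * (b - (b - δ)))
      (cst * (Real.exp (-(3 / 2)) * Real.exp (-b ^ 2 / 2)) * (b + 1 / b - b)) ?_
      (up ?_ (by positivity)) ?_ ?_
    · have : 0 ≤ b + 1 / b - b := by
        have : 0 < 1 / b := by positivity
        linarith
      positivity
    · intro x hx
      refine mul_le_mul_of_nonneg_left ?_ hc0.le
      rw [← Real.exp_add]
      apply Real.exp_le_exp.mpr
      have h1 : (b - x) * (b + x) ≤ 2 := by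
        rcases le_or_gt 0 (b + x) with hs | hs
        · have h2 : (b - x) * (b + x) ≤ δ * (2 * b) := by
            refine mul_le_mul (by linarith [hx.1]) (by linarith [hx.2]) hs hδ
          linarith
        · have : (b - x) * (b + x) ≤ 0 :=
            mul_nonpos_of_nonneg_of_nonpos (by linarith [hx.2]) hs.le
          linarith
      nlinarith
    · refine (low (a := b) (b := b + 1 / b)
        (c := cst * (Real.exp (-(3 / 2)) * Real.exp (-b ^ 2 / 2))) ?_ (by positivity)).trans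
        (measure_mono fun x hx => hx.1)
      intro x hx
      refine mul_le_mul_of_nonneg_left ?_ hc0.le
      have h1 : Real.exp (-(b + 1 / b) ^ 2 / 2) ≤ Real.exp (-x ^ 2 / 2) :=
        exp_low (by rw [abs_of_pos (by linarith [hx.1])]; exact hx.2)
      refine le_trans ?_ h1
      rw [← Real.exp_add]
      apply Real.exp_le_exp.mpr
      have h2 : (1 / b) ^ 2 ≤ 1 := by
        have : 1 / b ≤ 1 := by
          rw [div_le_one hb0]; exact hb.le
        have h0 : 0 ≤ 1 / b := by positivity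
        nlinarith
      have h3 : (b + 1 / b) ^ 2 = b ^ 2 + 2 + (1 / b) ^ 2 := by
        field_simp
        ring
      rw [h3]
      linarith
    · rw [hmax]
      have h1 : b + 1 / b - b = 1 / b := by ring
      rw [h1]
      have h2 : 13 * δ * b * (cst * (Real.exp (-(3 / 2)) * Real.exp (-b ^ 2 / 2)) * (1 / b)) =
          δ * cst * Real.exp (-b ^ 2 / 2) * (13 * Real.exp (-(3 / 2))) := by
        field_simp
      have h3 : cst * (Real.exp 1 * Real.exp (-b ^ 2 / 2)) * (b - (b - δ)) =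
          δ * cst * Real.exp (-b ^ 2 / 2) * Real.exp 1 := by ring
      rw [h2, h3]
      refine mul_le_mul_of_nonneg_left ?_ (by positivity)
      have h4 : Real.exp (-(3 / 2)) = Real.exp 1 * Real.exp (-(5 / 2)) := by
        rw [← Real.exp_add]; norm_num
      rw [h4]
      have h5 : 0 < Real.exp 1 := Real.exp_pos 1
      nlinarith

theorem gauss_iic_two : gaussianReal 0 1 (Set.Iic 2) ≤ ENNReal.ofReal (199 / 200) := by
  have hcl := cst_low
  have hc0 : 0 < cst := by linarith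
  have e1 : (39 : ℝ)⁻¹ ≤ Real.exp (-(7 / 2)) := exp_neg_ge (n := 7) (by norm_num) (by norm_num)
      (by norm_num)
  have h1 : ENNReal.ofReal (1 / 200) ≤ gaussianReal 0 1 (Set.Ioi 2) := by
    have h2 := low (a := 2) (b := 5 / 2) (c := 0.01) ?_ (by norm_num)
    · refine le_trans ?_ (h2.trans (measure_mono fun x hx => hx.1))
      apply ENNReal.ofReal_le_ofReal
      norm_num
    · intro x hx
      have h1 : Real.exp (-(5 / 2 : ℝ) ^ 2 / 2) ≤ Real.exp (-x ^ 2 / 2) :=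
        exp_low (by rw [abs_of_pos (by linarith [hx.1])]; exact hx.2)
      have h2 : Real.exp (-(7 / 2)) ≤ Real.exp (-(5 / 2 : ℝ) ^ 2 / 2) := by
        apply Real.exp_le_exp.mpr; norm_num
      have h3 := e1.trans (h2.trans h1)
      calc (0.01 : ℝ) ≤ 0.39 * (39 : ℝ)⁻¹ := by norm_num
        _ ≤ cst * Real.exp (-x ^ 2 / 2) := mul_le_mul hcl h3 (by norm_num) hc0.le
  have h2 : gaussianReal 0 1 (Set.Iic 2) = 1 - gaussianReal 0 1 (Set.Ioi 2) := by
    rw [← Set.compl_Ioi, prob_compl_eq_one_sub measurableSet_Ioi]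
  rw [h2]
  have h3 : (1 : ENNReal) - ENNReal.ofReal (1 / 200) = ENNReal.ofReal (199 / 200) := by
    rw [← ENNReal.ofReal_one, ← ENNReal.ofReal_sub _ (by norm_num)]
    norm_num
  rw [← h3]
  exact tsub_le_tsub_left h1 1

theorem gauss_abs_tail {Λ : ℝ} (hΛ : 0 ≤ Λ) :
    gaussianReal 0 1 {x | Λ < |x|} ≤ ENNReal.ofReal (2 * Real.exp (-Λ ^ 2 / 2)) := by
  have hi : ∀ t : ℝ, Integrable (fun x : ℝ => Real.exp (t * id x)) (gaussianReal 0 1) :=
    fun t => integrable_exp_mul_gaussianReal t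
  have hm : ∀ t : ℝ, mgf (id : ℝ → ℝ) (gaussianReal 0 1) t = Real.exp (t ^ 2 / 2) := by
    intro t
    have := mgf_gaussianReal (p := gaussianReal 0 1) (X := (id : ℝ → ℝ)) (μ := 0) (v := 1)
      (by simp) t
    rw [this]
    simp
  have h1 := measure_ge_le_exp_mul_mgf (μ := gaussianReal 0 1) (X := (id : ℝ → ℝ)) (t := Λ) Λ hΛ
    (hi Λ)
  have h2 := measure_le_le_exp_mul_mgf (μ := gaussianReal 0 1) (X := (id : ℝ → ℝ)) (t := -Λ) (-Λ)
    (by linarith) (hi (-Λ))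
  rw [hm, ← Real.exp_add] at h1 h2
  have e1 : -Λ * Λ + Λ ^ 2 / 2 = -Λ ^ 2 / 2 := by ring
  have e2 : - -Λ * -Λ + (-Λ) ^ 2 / 2 = -Λ ^ 2 / 2 := by ring
  rw [e1] at h1
  rw [e2] at h2
  have hsub : {x : ℝ | Λ < |x|} ⊆ {x | Λ ≤ id x} ∪ {x | id x ≤ -Λ} := by
    intro x hx
    rcases lt_abs.mp (show Λ < |x| from hx) with h | h
    · left; exact h.le
    · right
      show x ≤ -Λ
      linarith
  have conv : ∀ s : Set ℝ, (gaussianReal 0 1).real s ≤ Real.exp (-Λ ^ 2 / 2) →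
      gaussianReal 0 1 s ≤ ENNReal.ofReal (Real.exp (-Λ ^ 2 / 2)) := by
    intro s hs
    have h3 : gaussianReal 0 1 s = ENNReal.ofReal ((gaussianReal 0 1).real s) := by
      rw [ofReal_measureReal]
    rw [h3]
    exact ENNReal.ofReal_le_ofReal hs
  calc gaussianReal 0 1 {x | Λ < |x|}
      ≤ gaussianReal 0 1 ({x | Λ ≤ id x} ∪ {x | id x ≤ -Λ}) := measure_mono hsub
    _ ≤ gaussianReal 0 1 {x | Λ ≤ id x} + gaussianReal 0 1 {x | id x ≤ -Λ} :=
        measure_union_le _ _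
    _ ≤ ENNReal.ofReal (Real.exp (-Λ ^ 2 / 2)) + ENNReal.ofReal (Real.exp (-Λ ^ 2 / 2)) :=
        add_le_add (conv _ h1) (conv _ h2)
    _ = ENNReal.ofReal (2 * Real.exp (-Λ ^ 2 / 2)) := by
        rw [← ENNReal.ofReal_add (Real.exp_pos _).le (Real.exp_pos _).le, two_mul]

end H44SD
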