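import Pool.Agent.H44.SD.ProbDefs
import Pool.Agent.H44.SD.GaussStrip

/-!
Project SD (MP_43ee49_co), helper44, module TailProb: all entries are bounded with high probability.

Union bound over the `m n` entries; under `gm m n` the entry `G i j` has law `gaussianReal 0 1`
(`measurePreserving_eval` twice, or `Measure.pi_pi` for a set which restricts one coordinate), and
`gauss_abs_tail`.
-/

namespace H44SD

open MeasureTheory ProbabilityTheory Finset

private theorem TailProb_mp (m n : ℕ) (i : Fin m) (j : Fin n) :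
    MeasurePreserving (fun G : Fin m → Fin n → ℝ => G i j) (gm m n) (gaussianReal 0 1) := by
  have h1 : MeasurePreserving (Function.eval i) (gm m n) (rowm n) := by
    rw [gm_eq]
    exact measurePreserving_eval (fun _ : Fin m => rowm n) i
  have h2 : MeasurePreserving (Function.eval j) (rowm n) (gaussianReal 0 1) := by
    unfold rowm
    exact measurePreserving_eval (fun _ : Fin n => gaussianReal 0 1) j
  exact h2.comp h1

private theorem TailProb_entry (m n : ℕ) (i : Fin m) (j : Fin n) {Λ : ℝ} (hΛ : 0 ≤ Λ) :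
    gm m n {G | Λ < |G i j|} ≤ ENNReal.ofReal (2 * Real.exp (-Λ ^ 2 / 2)) := by
  have hms : MeasurableSet {x : ℝ | Λ < |x|} :=
    measurableSet_lt measurable_const measurable_abs
  have h := (TailProb_mp m n i j).measure_preimage hms.nullMeasurableSet
  have h' : (fun G : Fin m → Fin n → ℝ => G i j) ⁻¹' {x : ℝ | Λ < |x|}
      = {G | Λ < |G i j|} := rfl
  rw [h'] at h
  rw [h]
  exact gauss_abs_tail hΛ

theorem tail_prob (m n : ℕ) {Λ : ℝ} (hΛ : 0 ≤ Λ) :
    gm m n {G | ∃ i j, Λ < |G i j|} ≤
      ENNReal.ofReal (m * n * (2 * Real.exp (-Λ ^ 2 / 2))) := by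
  have hset : {G : Fin m → Fin n → ℝ | ∃ i j, Λ < |G i j|}
      = ⋃ p : Fin m × Fin n, {G | Λ < |G p.1 p.2|} := by
    ext G
    simp only [Set.mem_ofPred_eq, Set.mem_iUnion, Prod.exists]
  have hpos : (0 : ℝ) ≤ 2 * Real.exp (-Λ ^ 2 / 2) := by positivity
  rw [hset]
  calc gm m n (⋃ p : Fin m × Fin n, {G | Λ < |G p.1 p.2|})
      ≤ ∑ p : Fin m × Fin n, gm m n {G | Λ < |G p.1 p.2|} :=
        measure_iUnion_fintype_le _ _
    _ ≤ ∑ _p : Fin m × Fin n, ENNReal.ofReal (2 * Real.exp (-Λ ^ 2 / 2)) :=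
        Finset.sum_le_sum fun p _ => TailProb_entry m n p.1 p.2 hΛ
    _ = ENNReal.ofReal (m * n * (2 * Real.exp (-Λ ^ 2 / 2))) := by
        rw [Finset.sum_const, Finset.card_univ, Fintype.card_prod, Fintype.card_fin,
          Fintype.card_fin, ← ENNReal.ofReal_nsmul, nsmul_eq_mul]
        push_cast
        rfl

end H44SD
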