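import Pool.Agent.H44.SD.Param
import Pool.Agent.H44.SD.BddProb
import Pool.Agent.H44.SD.TailProb

/-!
Project SD (MP_43ee49_co), helper44, module GoodProb: the perturbed matrix is good with high
probability.

Let `X = 4 / σ`, `R = RR m n σ = n (1 + σ Λ)`, `Λ = Lam m n`, `ρ = rho m n σ` (`520 ρ R² / σ² = 1/4`,
`ρ ≤ 1/2080` since `σ ≤ R`), `q = qq m n σ`, `τ = tau m n σ`. If `Good` fails then one of
* (a) `Λ < |G i j|` for some `i, j`: `tail_prob`, `m n 2 exp(-Λ²/2) ≤ 1 / (m+1)^n` because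
  `Λ²/2 ≥ (n+1) (1 + log (m+1)) ≥ log (2 m n) + n log (m+1)`;
* (b) not (a), and some `x ∈ poly` has a coordinate `> 4 / σ`: `bdd_prob` and the hypothesis `hm`;
* (c) not (a), not (b) and some `x ∈ poly` has at least `q + 1` rows in `near ρ`: `cell_nt` with `q + 1`:
  `(2 X R / ρ + 3)^n (1/4)^(q+1) ≤ 1 / (m+1)^n` since `q ≥ n log ((2 X R / ρ + 3)(m+1))`, `4 ≥ e`;
* (d) not (a), not (b) and some `x ∈ poly` has at least `n + 1` rows in `near τ`: `cell_nt` with `n + 1`,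
  `ρ := τ`: with `θ = R / σ ≥ 1`, `X R = 4 θ`, `2 X R + 3 τ ≤ 5 X R = 20 θ`, so
  `(2 X R / τ + 3)^n (520 τ θ²)^(n+1) ≤ (20 θ · 520 θ²)^n · 520 θ² τ = 1 / (m+1)^n`; also
  `520 τ θ² ≤ 1`, `τ ≤ 1/4`;
happens (the row bound is `row_l1` when (a) fails). Sum of four bounds.
-/

namespace H44SD

open MeasureTheory Finset

private theorem GoodProb_a {m n : ℕ} (hn : 1 ≤ n) :
    (m : ℝ) * n * (2 * Real.exp (-Lam m n ^ 2 / 2)) ≤ 1 / ((m : ℝ) + 1) ^ n := by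
  have hm0 : (0 : ℝ) ≤ m := Nat.cast_nonneg m
  have hm1 : (0 : ℝ) < (m : ℝ) + 1 := by linarith
  have hn1 : (1 : ℝ) ≤ n := by exact_mod_cast hn
  set L : ℝ := Real.log ((m : ℝ) + 1) with hL
  have hL0 : 0 ≤ L := Real.log_nonneg (by linarith)
  have heL : Real.exp L = (m : ℝ) + 1 := Real.exp_log hm1
  set u : ℝ := ((n : ℝ) + 1) * (1 + L) with hu
  have hu1 : 1 ≤ u := by
    rw [hu]
    nlinarith
  have hΛ : Lam m n = 2 * u := by
    unfold Lam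
    rw [hu]
    ring
  rw [hΛ]
  rw [le_div_iff₀ (by positivity)]
  have h1 : (m : ℝ) ≤ Real.exp L := by
    rw [heL]
    linarith
  have h2 : (n : ℝ) ≤ Real.exp n := by
    have := Real.add_one_le_exp (n : ℝ)
    linarith
  have h3 : (2 : ℝ) ≤ Real.exp 1 := by
    have := Real.add_one_le_exp (1 : ℝ)
    linarith
  have h4 : ((m : ℝ) + 1) ^ n = Real.exp (n * L) := by
    rw [← heL, ← Real.exp_nat_mul]
  have h5 : (m : ℝ) * n * (2 * Real.exp (-(2 * u) ^ 2 / 2)) * ((m : ℝ) + 1) ^ n ≤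
      Real.exp L * Real.exp n * (Real.exp 1 * Real.exp (-(2 * u) ^ 2 / 2)) *
        Real.exp (n * L) := by
    rw [h4]
    gcongr
  refine h5.trans ?_
  rw [← Real.exp_add, ← Real.exp_add, ← Real.exp_add, ← Real.exp_add]
  rw [Real.exp_le_one_iff]
  have h6 : L + n + (1 + -(2 * u) ^ 2 / 2) + n * L = u - 2 * u ^ 2 := by
    rw [hu]
    ring
  rw [h6]
  nlinarith

private theorem GoodProb_c {m n : ℕ} {C : ℝ} (hC : 0 < C) {q : ℕ}
    (hq : n * Real.log (C * ((m : ℝ) + 1)) ≤ q) :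
    C ^ n * (1 / 4 : ℝ) ^ (q + 1) ≤ 1 / ((m : ℝ) + 1) ^ n := by
  have hm0 : (0 : ℝ) ≤ m := Nat.cast_nonneg m
  have hm1 : (0 : ℝ) < (m : ℝ) + 1 := by linarith
  have hCm : 0 < C * ((m : ℝ) + 1) := by positivity
  have h1 : (C * ((m : ℝ) + 1)) ^ n ≤ Real.exp q := by
    calc (C * ((m : ℝ) + 1)) ^ n = Real.exp (n * Real.log (C * ((m : ℝ) + 1))) := by
          rw [Real.exp_nat_mul, Real.exp_log hCm]
      _ ≤ Real.exp q := Real.exp_le_exp.2 hq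
  have h2 : Real.exp q ≤ (4 : ℝ) ^ (q + 1) := by
    have he : Real.exp 1 ≤ 4 := by
      have := Real.exp_one_lt_d9
      linarith
    calc Real.exp q = Real.exp 1 ^ q := by
          rw [← Real.exp_nat_mul]
          simp
      _ ≤ (4 : ℝ) ^ q := by gcongr
      _ ≤ (4 : ℝ) ^ (q + 1) := pow_le_pow_right₀ (by norm_num) (Nat.le_succ q)
  have h3 : C ^ n * ((m : ℝ) + 1) ^ n ≤ (4 : ℝ) ^ (q + 1) := by
    rw [← mul_pow]
    exact h1.trans h2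
  rw [one_div, inv_pow, ← div_eq_mul_inv, div_le_div_iff₀ (by positivity) (by positivity)]
  linarith

private theorem GoodProb_d {m n : ℕ} {θ τ : ℝ} (hθ : 1 ≤ θ) (hτ : 0 < τ)
    (hτe : 520 * θ ^ 2 * τ * (10400 * θ ^ 3 * ((m : ℝ) + 1)) ^ n = 1) (hτ1 : τ ≤ 1 / 4) :
    (8 * θ / τ + 3) ^ n * (520 * θ ^ 2 * τ) ^ (n + 1) ≤ 1 / ((m : ℝ) + 1) ^ n := by
  have hm0 : (0 : ℝ) ≤ m := Nat.cast_nonneg m
  have hm1 : (0 : ℝ) < (m : ℝ) + 1 := by linarith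
  have hθ0 : 0 < θ := by linarith
  have h1 : 8 * θ / τ + 3 ≤ 20 * θ / τ := by
    have h2 : 8 * θ / τ + 3 = (8 * θ + 3 * τ) / τ := by
      field_simp
    rw [h2]
    gcongr
    linarith
  have h3 : (8 * θ / τ + 3) ^ n * (520 * θ ^ 2 * τ) ^ (n + 1) ≤
      (20 * θ / τ) ^ n * (520 * θ ^ 2 * τ) ^ (n + 1) := by
    gcongr
  refine h3.trans (le_of_eq ?_)
  have h4 : (20 * θ / τ) ^ n * (520 * θ ^ 2 * τ) ^ (n + 1) =
      (10400 * θ ^ 3) ^ n * (520 * θ ^ 2 * τ) := by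
    rw [pow_succ, ← mul_assoc, ← mul_pow]
    congr 2
    field_simp
    ring
  rw [h4, eq_div_iff (by positivity)]
  have h5 := hτe
  rw [mul_pow (10400 * θ ^ 3) ((m : ℝ) + 1) n] at h5
  linear_combination h5

theorem good_prob {m n : ℕ} (hm1 : 1 ≤ m) (hn : 1 ≤ n) (Abar : Fin m → Fin n → ℝ)
    (hA : ∑ i, ∑ j, Abar i j ^ 2 ≤ 1) {σ : ℝ} (hσ : 0 < σ) (hmσ : 2 ≤ m * σ ^ 2)
    (hm : (11 * RR m n σ / σ) ^ n * Real.exp (-(m : ℝ) / 400) ≤ 1 / ((m : ℝ) + 1) ^ n) :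
    gm m n {G | ¬ Good (pert Abar σ G) (4 / σ) (RR m n σ) (rho m n σ) (tau m n σ) (qq m n σ)} ≤
      ENNReal.ofReal (4 / ((m : ℝ) + 1) ^ n) := by
  have hm0 : (0 : ℝ) ≤ m := Nat.cast_nonneg m
  have hmp : (0 : ℝ) < (m : ℝ) + 1 := by linarith
  have hR0 := RR_pos (m := m) hn hσ
  have hR1 := RR_ge_one (m := m) hn hσ
  have hRσ := RR_ge_sigma (m := m) hn hσ
  have hρ0 := rho_pos (m := m) hn hσ
  have hτ0 := tau_pos (m := m) hn hσ
  have hΛ2 := Lam_ge (m := m) (n := n)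
  have hRdef : n * (1 + σ * Lam m n) ≤ RR m n σ := le_refl _
  set Λ : ℝ := Lam m n with hΛ
  set R : ℝ := RR m n σ with hR
  set ρ : ℝ := rho m n σ with hρ
  set τ : ℝ := tau m n σ with hτ
  set X : ℝ := 4 / σ with hX
  have hX0 : 0 < X := by positivity
  have hκ : 520 * ρ * R ^ 2 / σ ^ 2 = 1 / 4 := by
    rw [hρ]
    unfold rho
    rw [← hR]
    field_simp
    norm_num
  have hρ4 : ρ ≤ 1 / 4 := by
    have h1 : ρ = σ ^ 2 / (2080 * R ^ 2) := rfl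
    rw [h1, div_le_iff₀ (by positivity)]
    have h2 : σ ^ 2 ≤ R ^ 2 := by gcongr
    nlinarith
  -- the microscopic scale
  set θ : ℝ := R / σ with hθ
  have hθ1 : 1 ≤ θ := by
    rw [hθ, le_div_iff₀ hσ]
    linarith
  have hθ0 : 0 < θ := by linarith
  have hτdef : τ = 1 / (520 * θ ^ 2 * (10400 * θ ^ 3 * ((m : ℝ) + 1)) ^ n) := rfl
  have hbase : 1 ≤ 10400 * θ ^ 3 * ((m : ℝ) + 1) := by
    have h1 : (1 : ℝ) ≤ θ ^ 3 := one_le_pow₀ hθ1
    nlinarith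
  have hpow : 1 ≤ (10400 * θ ^ 3 * ((m : ℝ) + 1)) ^ n := one_le_pow₀ hbase
  have hτe : 520 * θ ^ 2 * τ * (10400 * θ ^ 3 * ((m : ℝ) + 1)) ^ n = 1 := by
    rw [hτdef]
    field_simp
  have hκτ : 520 * θ ^ 2 * τ ≤ 1 := by
    have h1 : 0 ≤ 520 * θ ^ 2 * τ := by positivity
    nlinarith
  have hτ4 : τ ≤ 1 / 4 := by
    have h1 : (1 : ℝ) ≤ θ ^ 2 := one_le_pow₀ hθ1
    nlinarith
  have hκτ' : 520 * τ * R ^ 2 / σ ^ 2 = 520 * θ ^ 2 * τ := by
    rw [hθ]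
    field_simp
  have hXR : 2 * X * R = 8 * θ := by
    rw [hX, hθ]
    ring
  -- the four events
  have ea := tail_prob m n (Λ := Λ) (by linarith)
  have eb := bdd_prob Abar hA hσ hRdef hR1 hRσ hmσ
  have ec := cell_nt Abar hA hσ hRdef hR1 hRσ hX0 hρ0 hρ4 (by rw [hκ]; norm_num)
    (qq m n σ + 1) (Nat.le_add_left 1 _)
  have ed := cell_nt Abar hA hσ hRdef hR1 hRσ hX0 hτ0 hτ4 (by rw [hκτ']; exact hκτ)
    (n + 1) (Nat.le_add_left 1 _)
  rw [hκ] at ec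
  rw [hκτ', hXR] at ed
  have fa := ea.trans (ENNReal.ofReal_le_ofReal (GoodProb_a (m := m) hn))
  have fb := eb.trans (ENNReal.ofReal_le_ofReal hm)
  have hC : 0 < 2 * X * R / ρ + 3 := by positivity
  have hq : n * Real.log ((2 * X * R / ρ + 3) * ((m : ℝ) + 1)) ≤ (qq m n σ : ℝ) := by
    exact Nat.le_ceil _
  have fc := ec.trans (ENNReal.ofReal_le_ofReal (GoodProb_c hC hq))
  have fd := ed.trans (ENNReal.ofReal_le_ofReal (GoodProb_d hθ1 hτ0 hτe hτ4))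
  have hsub : {G | ¬ Good (pert Abar σ G) X R ρ τ (qq m n σ)} ⊆
      {G | ∃ i j, Λ < |G i j|} ∪
      {G | (∀ i j, |G i j| ≤ Λ) ∧ ∃ x ∈ poly (pert Abar σ G), ∃ j, 4 / σ < |x j|} ∪
      {G | (∀ i j, |G i j| ≤ Λ) ∧ ∃ x ∈ poly (pert Abar σ G), (∀ j, |x j| ≤ X) ∧
        qq m n σ + 1 ≤ (near (pert Abar σ G) ρ x).card} ∪
      {G | (∀ i j, |G i j| ≤ Λ) ∧ ∃ x ∈ poly (pert Abar σ G), (∀ j, |x j| ≤ X) ∧
        n + 1 ≤ (near (pert Abar σ G) τ x).card} := by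
    intro G hG
    by_contra hcon
    simp only [Set.mem_union, Set.mem_ofPred_eq, not_or] at hcon
    obtain ⟨⟨⟨c1, c2⟩, c3⟩, c4⟩ := hcon
    push Not at c1
    have d2 : ∀ x ∈ poly (pert Abar σ G), ∀ j, |x j| ≤ X := by
      intro x hx j
      by_contra h
      push Not at h
      exact c2 ⟨c1, x, hx, j, h⟩
    apply hG
    refine ⟨d2, fun i => row_l1 Abar hA hσ hRdef c1 i, ?_, ?_⟩
    · intro x hx
      by_contra h
      push Not at h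
      exact c3 ⟨c1, x, hx, d2 x hx, h⟩
    · intro x hx
      by_contra h
      push Not at h
      exact c4 ⟨c1, x, hx, d2 x hx, h⟩
  refine (measure_mono hsub).trans ?_
  refine (measure_union_le _ _).trans ?_
  refine (add_le_add ((measure_union_le _ _).trans
    (add_le_add ((measure_union_le _ _).trans (add_le_add fa fb)) fc)) fd).trans ?_
  have hp : (0 : ℝ) ≤ 1 / ((m : ℝ) + 1) ^ n := by positivity
  rw [← ENNReal.ofReal_add hp hp, ← ENNReal.ofReal_add (by positivity) hp,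
    ← ENNReal.ofReal_add (by positivity) hp]
  refine ENNReal.ofReal_le_ofReal (le_of_eq ?_)
  ring

end H44SD
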