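import Pool.Agent.H44.SD.CellNT

/-!
Project SD (MP_43ee49_co), helper44, module NondegAE: almost surely at most `n` rows are tight at any
point.

If `Nondeg (pert Abar σ G)` fails there is `x ∈ poly B` with at least `n + 1` tight rows; with natural
numbers `Λ ≥ max |G i j|` and `X ≥ max |x j|`, `X ≥ 1`, `G` is in the event `E X Λ ρ` of `cell_nt` with
`q = n + 1`, for every `ρ > 0` (`tight_subset_near`), where `R = n (1 + σ Λ) + 1 + σ`. For fixed `X, Λ` its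
measure is at most `(2 X R / ρ + 3)^n (520 ρ R² / σ²)^(n+1) ≤ (2 X R + 3 ρ)^n (520 R² / σ²)^(n+1) ρ` which
tends to `0` as `ρ → 0`. So the set `{G | ∃ x ∈ poly B, |x j| ≤ X, n + 1 ≤ (tight B x).card, |G i j| ≤ Λ}` has
measure `0`; countable union over `X, Λ ∈ ℕ` (`measure_iUnion_null`).
-/

namespace H44SD

open MeasureTheory Finset

private theorem NondegAE_null {m n : ℕ} (Abar : Fin m → Fin n → ℝ)
    (hA : ∑ i, ∑ j, Abar i j ^ 2 ≤ 1) {σ : ℝ} (hσ : 0 < σ) (X Λ : ℕ) :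
    gm m n {G | (∀ i j, |G i j| ≤ (Λ : ℝ)) ∧ ∃ x ∈ poly (pert Abar σ G),
      (∀ j, |x j| ≤ (X : ℝ) + 1) ∧ n + 1 ≤ (tight (pert Abar σ G) x).card} = 0 := by
  set R : ℝ := n * (1 + σ * Λ) + 1 + σ with hR_def
  have hΛ0 : (0 : ℝ) ≤ Λ := Nat.cast_nonneg _
  have hn0 : (0 : ℝ) ≤ n := Nat.cast_nonneg _
  have hX0 : (0 : ℝ) < (X : ℝ) + 1 := by positivity
  have hnR : 0 ≤ (n : ℝ) * (1 + σ * Λ) := by positivity
  have hR1 : 1 ≤ R := by linarith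
  have hσR : σ ≤ R := by linarith
  have hR0 : 0 < R := by linarith
  set C : ℝ := 520 * R ^ 2 / σ ^ 2 with hC_def
  have hC : 0 < C := by positivity
  set K : ℝ := (2 * ((X : ℝ) + 1) * R + 3) ^ n * C ^ (n + 1) with hK_def
  have hK : 0 < K := by positivity
  rw [← nonpos_iff_eq_zero]
  refine ENNReal.le_of_forall_pos_le_add fun ε hε _ => ?_
  rw [zero_add]
  have hε' : (0 : ℝ) < ε := by exact_mod_cast hε
  set ρ : ℝ := min (1 / 4) (min (1 / C) (ε / K)) with hρ_def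
  have hρ : 0 < ρ := by positivity
  have hρ4 : ρ ≤ 1 / 4 := min_le_left _ _
  have hρC : ρ ≤ 1 / C := (min_le_right _ _).trans (min_le_left _ _)
  have hρK : ρ ≤ ε / K := (min_le_right _ _).trans (min_le_right _ _)
  have hCρ : 520 * ρ * R ^ 2 / σ ^ 2 = C * ρ := by
    rw [hC_def]
    ring
  have hκ : 520 * ρ * R ^ 2 / σ ^ 2 ≤ 1 := by
    rw [hCρ]
    rw [le_div_iff₀ hC] at hρC
    linarith
  have h1 := cell_nt Abar hA (σ := σ) (Λ := (Λ : ℝ)) (R := R) (X := (X : ℝ) + 1) (ρ := ρ) hσ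
    (by linarith) hR1 hσR hX0 hρ hρ4 hκ (n + 1) (by omega)
  have hsub : {G : Fin m → Fin n → ℝ | (∀ i j, |G i j| ≤ (Λ : ℝ)) ∧ ∃ x ∈ poly (pert Abar σ G),
      (∀ j, |x j| ≤ (X : ℝ) + 1) ∧ n + 1 ≤ (tight (pert Abar σ G) x).card} ⊆
      {G | (∀ i j, |G i j| ≤ (Λ : ℝ)) ∧ ∃ x ∈ poly (pert Abar σ G),
      (∀ j, |x j| ≤ (X : ℝ) + 1) ∧ n + 1 ≤ (near (pert Abar σ G) ρ x).card} := by
    rintro G ⟨hG, x, hx, hxX, hc⟩
    exact ⟨hG, x, hx, hxX, hc.trans (Finset.card_le_card (tight_subset_near hρ.le x))⟩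
  refine (measure_mono hsub).trans (h1.trans ?_)
  have h2 : (2 * ((X : ℝ) + 1) * R / ρ + 3) ^ n * (520 * ρ * R ^ 2 / σ ^ 2) ^ (n + 1) ≤ ε := by
    rw [hCρ]
    have h3 : (2 * ((X : ℝ) + 1) * R / ρ + 3) ^ n * (C * ρ) ^ (n + 1) =
        (2 * ((X : ℝ) + 1) * R + 3 * ρ) ^ n * C ^ (n + 1) * ρ := by
      have h4 : 2 * ((X : ℝ) + 1) * R + 3 * ρ = (2 * ((X : ℝ) + 1) * R / ρ + 3) * ρ := by
        field_simp
      rw [h4, mul_pow, mul_pow, pow_succ ρ n]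
      ring
    rw [h3]
    have h5 : (2 * ((X : ℝ) + 1) * R + 3 * ρ) ^ n ≤ (2 * ((X : ℝ) + 1) * R + 3) ^ n := by
      refine pow_le_pow_left₀ (by positivity) ?_ n
      linarith
    calc (2 * ((X : ℝ) + 1) * R + 3 * ρ) ^ n * C ^ (n + 1) * ρ ≤ K * ρ := by
          rw [hK_def]
          gcongr
      _ ≤ ε := by
          rw [le_div_iff₀ hK] at hρK
          linarith
  calc ENNReal.ofReal ((2 * ((X : ℝ) + 1) * R / ρ + 3) ^ n * (520 * ρ * R ^ 2 / σ ^ 2) ^ (n + 1)) ≤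
        ENNReal.ofReal ε := ENNReal.ofReal_le_ofReal h2
    _ = ε := ENNReal.ofReal_coe_nnreal

theorem nondeg_ae {m n : ℕ} (Abar : Fin m → Fin n → ℝ) (hA : ∑ i, ∑ j, Abar i j ^ 2 ≤ 1)
    {σ : ℝ} (hσ : 0 < σ) : ∀ᵐ G ∂(gm m n), Nondeg (pert Abar σ G) := by
  rw [ae_iff]
  have h1 : gm m n (⋃ X : ℕ, ⋃ Λ : ℕ, {G | (∀ i j, |G i j| ≤ (Λ : ℝ)) ∧
      ∃ x ∈ poly (pert Abar σ G), (∀ j, |x j| ≤ (X : ℝ) + 1) ∧
      n + 1 ≤ (tight (pert Abar σ G) x).card}) = 0 :=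
    measure_iUnion_null fun X => measure_iUnion_null fun Λ => NondegAE_null Abar hA hσ X Λ
  refine measure_mono_null ?_ h1
  intro G hG
  have hG' : ¬ Nondeg (pert Abar σ G) := hG
  unfold Nondeg at hG'
  push Not at hG'
  obtain ⟨x, hx, hc⟩ := hG'
  obtain ⟨Λ, hΛ⟩ := exists_nat_ge (∑ i, ∑ j, |G i j|)
  obtain ⟨X, hX⟩ := exists_nat_ge (∑ j, |x j|)
  rw [Set.mem_iUnion]
  refine ⟨X, ?_⟩
  rw [Set.mem_iUnion]
  refine ⟨Λ, ?_, x, hx, ?_, hc⟩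
  · intro i j
    have h2 : |G i j| ≤ ∑ j, |G i j| :=
      Finset.single_le_sum (f := fun j => |G i j|) (fun j _ => abs_nonneg _) (Finset.mem_univ j)
    have h3 : ∑ j, |G i j| ≤ ∑ i, ∑ j, |G i j| :=
      Finset.single_le_sum (f := fun i => ∑ j, |G i j|)
        (fun i _ => Finset.sum_nonneg fun j _ => abs_nonneg _) (Finset.mem_univ i)
    linarith
  · intro j
    have h2 : |x j| ≤ ∑ j, |x j| :=
      Finset.single_le_sum (f := fun j => |x j|) (fun j _ => abs_nonneg _) (Finset.mem_univ j)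
    linarith

end H44SD
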