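import Mathlib

/-!
Project SD (MP_43ee49_co), helper44, module NumB: choice of the parameters of the path.

Take `ζ = 1 / Q^210`, `N = ⌈Q^218⌉₊`, `K = ⌊8 X R / ρ⌋₊ + 1`, `t = Nat.log 2 (K q) + 1`.
* `(1 + ζ)^N ≥ 2 n X R / (ζ τ)`: logarithms; `log (1 + ζ) ≥ ζ / 2` (`0 < ζ ≤ 1`), so
  `N log (1 + ζ) ≥ Q^218 / (2 Q^210) = Q^8 / 2`; and
  `log (2 n X R / (ζ τ)) ≤ log (Q · Q · Q^6 · Q^210) + Q^5 = 218 log Q + Q^5 ≤ 218 Q + Q^5 ≤ Q^8 / 2`.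
* `hsmall`: `11943936 X^6 (2 n X ζ)^2 / (ρ^2 / (4 R^2))^4 = 12230590464 n² ζ² (X R)^8 / ρ^8` and
  `12230590464 ≤ 3^22`; `2 N + 1 ≤ 2 Q^218 + 3 ≤ Q^219`; the total is at most
  `Q^(219 + 4 + 22 + 48 + 120 - 420) = Q^(-7) < 1`.
* `K ≤ 8 Q^21 + 1 ≤ Q^23`, `K q ≤ Q^28`, `K q < 2^t ≤ 2 max(K q, 1) ≤ 2 Q^28 ≤ Q^29`
  (`Nat.lt_pow_succ_log_self`, `Nat.pow_log_le_self`).
* `2 (N + 1) ≤ 2 Q^218 + 4 ≤ Q^219`.
-/

namespace H44SD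

private theorem NumB_a {n : ℕ} {Q X R τ : ℝ} (hQ : 3 ≤ Q) (hn : 1 ≤ n) (hnQ : (n : ℝ) ≤ Q)
    (hX : 0 < X) (hR : 0 < R) (hXR : X * R ≤ Q ^ 6) (hτ : 0 < τ)
    (hτQ : Real.log (1 / τ) ≤ Q ^ 5) {N : ℕ} (hN : Q ^ 218 ≤ N) :
    2 * n * X * R / (1 / Q ^ 210 * τ) ≤ (1 + 1 / Q ^ 210) ^ N := by
  have hQ0 : 0 < Q := by linarith
  have hn0 : (0 : ℝ) < n := by exact_mod_cast hn
  have hζ0 : 0 < 1 / Q ^ 210 := by positivity
  have hζ1 : 1 / Q ^ 210 ≤ 1 := by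
    rw [div_le_one (by positivity)]
    exact one_le_pow₀ (by linarith)
  -- the upper bound of the left side
  have e1 : 2 * n * X * R / (1 / Q ^ 210 * τ) = (2 * n * (X * R) * Q ^ 210) * (1 / τ) := by
    field_simp
  have h1 : 2 * n * (X * R) * Q ^ 210 ≤ Q ^ 218 := by
    have a1 : 2 * (n : ℝ) ≤ Q * Q := mul_le_mul (by linarith) hnQ hn0.le hQ0.le
    have a2 : 2 * (n : ℝ) * (X * R) ≤ Q * Q * Q ^ 6 :=
      mul_le_mul a1 hXR (by positivity) (by positivity)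
    have a3 : 2 * (n : ℝ) * (X * R) * Q ^ 210 ≤ Q * Q * Q ^ 6 * Q ^ 210 :=
      mul_le_mul_of_nonneg_right a2 (by positivity)
    refine a3.trans (le_of_eq (by ring))
  have hL : Real.log (2 * n * X * R / (1 / Q ^ 210 * τ)) ≤ 218 * Q + Q ^ 5 := by
    rw [e1, Real.log_mul (by positivity) (by positivity)]
    have b1 : Real.log (2 * n * (X * R) * Q ^ 210) ≤ Real.log (Q ^ 218) :=
      Real.log_le_log (by positivity) h1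
    rw [Real.log_pow] at b1
    have b2 : Real.log Q ≤ Q - 1 := Real.log_le_sub_one_of_pos hQ0
    push_cast at b1
    linarith
  have hpoly : 218 * Q + Q ^ 5 ≤ Q ^ 8 / 2 := by
    have c1 : (3 : ℝ) ^ 7 ≤ Q ^ 7 := pow_le_pow_left₀ (by norm_num) hQ 7
    have c2 : (3 : ℝ) ^ 3 ≤ Q ^ 3 := pow_le_pow_left₀ (by norm_num) hQ 3
    have c3 : (3 : ℝ) ^ 7 * Q ≤ Q ^ 7 * Q := mul_le_mul_of_nonneg_right c1 hQ0.le
    have c4 : (3 : ℝ) ^ 3 * Q ^ 5 ≤ Q ^ 3 * Q ^ 5 := mul_le_mul_of_nonneg_right c2 (by positivity)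
    have c5 : Q ^ 7 * Q = Q ^ 8 := by ring
    have c6 : Q ^ 3 * Q ^ 5 = Q ^ 8 := by ring
    have c7 : 0 < Q ^ 5 := by positivity
    norm_num at c3 c4
    linarith
  have hlow : Q ^ 8 / 2 ≤ N * Real.log (1 + 1 / Q ^ 210) := by
    have d1 : 1 / Q ^ 210 / 2 ≤ Real.log (1 + 1 / Q ^ 210) := by
      have d2 := Real.one_sub_inv_le_log_of_pos (by positivity : 0 < 1 + 1 / Q ^ 210)
      refine le_trans ?_ d2
      generalize 1 / Q ^ 210 = z at hζ0 hζ1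
      have hz : 0 < 1 + z := by linarith
      have : 1 - (1 + z)⁻¹ = z / (1 + z) := by field_simp; ring
      rw [this, div_le_div_iff₀ (by norm_num) hz]
      nlinarith
    have d3 : Q ^ 218 * (1 / Q ^ 210 / 2) ≤ N * Real.log (1 + 1 / Q ^ 210) :=
      mul_le_mul hN d1 (by positivity) (Nat.cast_nonneg _)
    have d4 : Q ^ 218 * (1 / Q ^ 210 / 2) = Q ^ 8 / 2 := by
      have : Q ^ 218 = Q ^ 8 * Q ^ 210 := by rw [← pow_add]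
      rw [this]
      field_simp
    linarith
  have hpos : 0 < 2 * n * X * R / (1 / Q ^ 210 * τ) := by positivity
  have hpos2 : 0 < (1 + 1 / Q ^ 210) ^ N := by positivity
  rw [← Real.log_le_log_iff hpos hpos2, Real.log_pow]
  linarith

private theorem NumB_b {n : ℕ} {Q X R ρ : ℝ} (hQ : 3 ≤ Q) (hnQ : (n : ℝ) ≤ Q)
    (hX : 0 < X) (hR : 0 < R) (hXR : X * R ≤ Q ^ 6) (hρ : 0 < ρ) (hρQ : 1 / ρ ≤ Q ^ 15)
    {B : ℝ} (hB : B ≤ Q ^ 219) :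
    B * (n : ℝ) ^ 2 * (11943936 * X ^ 6 * (2 * n * X * (1 / Q ^ 210)) ^ 2
      / (ρ ^ 2 / (4 * R ^ 2)) ^ 4) < 1 := by
  have hQ0 : 0 < Q := by linarith
  have hn0 : (0 : ℝ) ≤ n := Nat.cast_nonneg _
  have e1 : B * (n : ℝ) ^ 2 * (11943936 * X ^ 6 * (2 * n * X * (1 / Q ^ 210)) ^ 2
      / (ρ ^ 2 / (4 * R ^ 2)) ^ 4)
      = (B * (n : ℝ) ^ 2 * (12230590464 * (n : ℝ) ^ 2 * (X * R) ^ 8 * (1 / ρ) ^ 8)) / Q ^ 420 := by
    field_simp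
    ring
  have h0 : (12230590464 : ℝ) ≤ Q ^ 22 := by
    have : (3 : ℝ) ^ 22 ≤ Q ^ 22 := pow_le_pow_left₀ (by norm_num) hQ 22
    have h3 : (12230590464 : ℝ) ≤ 3 ^ 22 := by norm_num
    linarith
  have h1 : (n : ℝ) ^ 2 ≤ Q ^ 2 := pow_le_pow_left₀ hn0 hnQ 2
  have h2 : (X * R) ^ 8 ≤ Q ^ 48 := by
    have := pow_le_pow_left₀ (by positivity) hXR 8
    rwa [← pow_mul] at this
  have h3 : (1 / ρ) ^ 8 ≤ Q ^ 120 := by
    have := pow_le_pow_left₀ (by positivity) hρQ 8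
    rwa [← pow_mul] at this
  have h4 : 12230590464 * (n : ℝ) ^ 2 * (X * R) ^ 8 * (1 / ρ) ^ 8
      ≤ Q ^ 22 * Q ^ 2 * Q ^ 48 * Q ^ 120 :=
    mul_le_mul (mul_le_mul (mul_le_mul h0 h1 (by positivity) (by positivity)) h2 (by positivity)
      (by positivity)) h3 (by positivity) (by positivity)
  have h5 : B * (n : ℝ) ^ 2 * (12230590464 * (n : ℝ) ^ 2 * (X * R) ^ 8 * (1 / ρ) ^ 8)
      ≤ Q ^ 219 * Q ^ 2 * (Q ^ 22 * Q ^ 2 * Q ^ 48 * Q ^ 120) :=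
    mul_le_mul (mul_le_mul hB h1 (by positivity) (by positivity)) h4 (by positivity)
      (by positivity)
  rw [e1, div_lt_one (by positivity)]
  refine h5.trans_lt ?_
  have h6 : Q ^ 219 * Q ^ 2 * (Q ^ 22 * Q ^ 2 * Q ^ 48 * Q ^ 120) = Q ^ 413 := by
    rw [← pow_add, ← pow_add, ← pow_add, ← pow_add, ← pow_add]
  rw [h6]
  exact pow_lt_pow_right₀ (by linarith) (by norm_num)

theorem num_choice {n : ℕ} {Q X R ρ τ : ℝ} {q : ℕ} (hQ : 3 ≤ Q) (hn : 1 ≤ n) (hnQ : (n : ℝ) ≤ Q)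
    (hX : 0 < X) (hR : 0 < R) (hXR : X * R ≤ Q ^ 6) (hρ : 0 < ρ) (hρQ : 1 / ρ ≤ Q ^ 15)
    (hq : (q : ℝ) ≤ Q ^ 5) (hτ : 0 < τ) (hτQ : Real.log (1 / τ) ≤ Q ^ 5) :
    ∃ ζ : ℝ, 0 < ζ ∧ ∃ N K t : ℕ, 2 * n * X * R / (ζ * τ) ≤ (1 + ζ) ^ N ∧
      ((2 * N + 1 : ℕ) : ℝ) * (n : ℝ) ^ 2 *
        (11943936 * X ^ 6 * (2 * n * X * ζ) ^ 2 / (ρ ^ 2 / (4 * R ^ 2)) ^ 4) < 1 ∧
      8 * X * R / ρ < K ∧ K * q < 2 ^ t ∧ (2 : ℝ) ^ t ≤ Q ^ 29 ∧ 2 * ((N : ℝ) + 1) ≤ Q ^ 219 := by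
  have hQ0 : 0 < Q := by linarith
  have hQ1 : 1 ≤ Q := by linarith
  have hbig : (3 : ℝ) ^ 218 ≤ Q ^ 218 := pow_le_pow_left₀ (by norm_num) hQ 218
  have hbig' : (10 : ℝ) ≤ Q ^ 218 := by
    refine le_trans ?_ hbig
    have : (3 : ℝ) ^ 3 ≤ 3 ^ 218 := pow_le_pow_right₀ (by norm_num) (by norm_num)
    norm_num at this ⊢
  have h219 : 3 * Q ^ 218 ≤ Q ^ 219 := by
    have : Q ^ 219 = Q * Q ^ 218 := by rw [← pow_succ']
    rw [this]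
    exact mul_le_mul_of_nonneg_right hQ (by positivity)
  set N := ⌈Q ^ 218⌉₊ with hN
  have hN1 : Q ^ 218 ≤ N := Nat.le_ceil _
  have hN2 : (N : ℝ) < Q ^ 218 + 1 := Nat.ceil_lt_add_one (by positivity)
  set K := ⌊8 * X * R / ρ⌋₊ + 1 with hK
  have hK0 : 0 ≤ 8 * X * R / ρ := by positivity
  have hK1 : 8 * X * R / ρ < K := by
    rw [hK]; push_cast; exact Nat.lt_floor_add_one _
  have hK2 : (K : ℝ) ≤ Q ^ 23 := by
    have h1 : (K : ℝ) ≤ 8 * X * R / ρ + 1 := by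
      rw [hK]; push_cast
      have := Nat.floor_le hK0
      linarith
    have h2 : 8 * X * R / ρ = 8 * ((X * R) * (1 / ρ)) := by field_simp
    have h3 : (X * R) * (1 / ρ) ≤ Q ^ 6 * Q ^ 15 :=
      mul_le_mul hXR hρQ (by positivity) (by positivity)
    have h4 : Q ^ 6 * Q ^ 15 = Q ^ 21 := by rw [← pow_add]
    have h5 : 1 ≤ Q ^ 21 := one_le_pow₀ hQ1
    have h6 : (3 : ℝ) ^ 2 ≤ Q ^ 2 := pow_le_pow_left₀ (by norm_num) hQ 2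
    have h7 : (3 : ℝ) ^ 2 * Q ^ 21 ≤ Q ^ 2 * Q ^ 21 :=
      mul_le_mul_of_nonneg_right h6 (by positivity)
    have h8 : Q ^ 2 * Q ^ 21 = Q ^ 23 := by rw [← pow_add]
    rw [h2] at h1
    linarith
  refine ⟨1 / Q ^ 210, by positivity, N, K, Nat.log 2 (K * q) + 1,
    NumB_a hQ hn hnQ hX hR hXR hτ hτQ hN1, ?_, hK1, Nat.lt_pow_succ_log_self (by norm_num) _,
    ?_, by linarith⟩
  · refine NumB_b hQ hnQ hX hR hXR hρ hρQ ?_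
    push_cast
    linarith
  · have h29 : 2 * Q ^ 28 ≤ Q ^ 29 := by
      have : Q ^ 29 = Q * Q ^ 28 := by rw [← pow_succ']
      rw [this]
      exact mul_le_mul_of_nonneg_right (by linarith) (by positivity)
    rcases Nat.eq_zero_or_pos (K * q) with h0 | h0
    · rw [h0, Nat.log_zero_right]
      have : 1 ≤ Q ^ 28 := one_le_pow₀ hQ1
      norm_num
      linarith
    · have h1 : 2 ^ Nat.log 2 (K * q) ≤ K * q := Nat.pow_log_le_self 2 h0.ne'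
      have h2 : (2 : ℝ) ^ Nat.log 2 (K * q) ≤ (K : ℝ) * q := by exact_mod_cast h1
      have h3 : (K : ℝ) * q ≤ Q ^ 23 * Q ^ 5 :=
        mul_le_mul hK2 hq (Nat.cast_nonneg _) (by positivity)
      have h4 : Q ^ 23 * Q ^ 5 = Q ^ 28 := by rw [← pow_add]
      rw [pow_succ]
      linarith

end H44SD
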