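import Mathlib

/-!
Project SD (MP_43ee49_co), helper44, module NumC: the Kalai-Kleitman number.

If `2^t ≤ Q^29`, `Q ≥ 3`: `(n + t).choose n ≤ 2^(n+t)` gives
`2^t (n + t).choose n ≤ 2^n 2^t 2^t ≤ 2^n Q^58`; and `(n + t).choose n = (n + t).choose t ≤ (n + 1)^t`
(`∏_{i=1}^t (n + i) / i`, or induction / `Nat.choose_le...`), `t log 2 ≤ 29 log Q`, `log 2 > 0.69`, so
`t ≤ 50 log Q` and `(n + 1)^t ≤ exp(50 log Q log(n+1)) = Q^(50 log(n+1))` (real power), and
`2^t ≤ Q^29 ≤ Q^58`.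
-/

namespace H44SD

theorem choose_le_pow (n t : ℕ) : (n + t).choose n ≤ (n + 1) ^ t := by
  induction t with
  | zero => simp
  | succ t ih =>
    have h1 : (n + t + 1) * (n + t).choose t = (n + t + 1).choose (t + 1) * (t + 1) :=
      Nat.add_one_mul_choose_eq (n + t) t
    have h2 : (n + t).choose t = (n + t).choose n := by
      rw [Nat.add_comm n t]
      exact (Nat.choose_symm_add).symm ▸ rfl
    have h3 : (n + t + 1).choose (t + 1) = (n + (t + 1)).choose n := by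
      have := Nat.choose_symm_add (a := n) (b := t + 1)
      rw [← add_assoc] at this ⊢
      exact this.symm
    rw [h2, h3] at h1
    have h4 : n + t + 1 ≤ (n + 1) * (t + 1) := by nlinarith [Nat.zero_le (n * t)]
    have h5 : (n + (t + 1)).choose n * (t + 1) ≤ (n + 1) ^ (t + 1) * (t + 1) := by
      rw [← h1]
      calc (n + t + 1) * (n + t).choose n ≤ ((n + 1) * (t + 1)) * (n + 1) ^ t :=
            Nat.mul_le_mul h4 ih
        _ = (n + 1) ^ (t + 1) * (t + 1) := by ring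
    exact Nat.le_of_mul_le_mul_right h5 (Nat.succ_pos t)

theorem kk_bound {n t : ℕ} {Q : ℝ} (hQ : 3 ≤ Q) (ht : (2 : ℝ) ^ t ≤ Q ^ 29) :
    (2 : ℝ) ^ t * ((n + t).choose n : ℝ) ≤
      Q ^ 58 * min ((2 : ℝ) ^ n) (Q ^ (50 * Real.log ((n : ℝ) + 1))) := by
  have hQ0 : (0 : ℝ) < Q := by linarith
  have hQ1 : (1 : ℝ) ≤ Q := by linarith
  have h2t : (0 : ℝ) < (2 : ℝ) ^ t := by positivity
  have hlogQ : 0 < Real.log Q := Real.log_pos (by linarith)
  have hA : (2 : ℝ) ^ t * ((n + t).choose n : ℝ) ≤ Q ^ 58 * (2 : ℝ) ^ n := by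
    have h1 : ((n + t).choose n : ℝ) ≤ (2 : ℝ) ^ (n + t) := by
      exact_mod_cast Nat.choose_le_two_pow (n + t) n
    calc (2 : ℝ) ^ t * ((n + t).choose n : ℝ) ≤ (2 : ℝ) ^ t * (2 : ℝ) ^ (n + t) :=
          mul_le_mul_of_nonneg_left h1 h2t.le
      _ = ((2 : ℝ) ^ t * (2 : ℝ) ^ t) * (2 : ℝ) ^ n := by ring
      _ ≤ (Q ^ 29 * Q ^ 29) * (2 : ℝ) ^ n :=
          mul_le_mul_of_nonneg_right (mul_le_mul ht ht h2t.le (by positivity)) (by positivity)
      _ = Q ^ 58 * (2 : ℝ) ^ n := by ring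
  have hB : (2 : ℝ) ^ t * ((n + t).choose n : ℝ) ≤
      Q ^ 58 * Q ^ (50 * Real.log ((n : ℝ) + 1)) := by
    have h1 : (2 : ℝ) ^ t ≤ Q ^ 58 := ht.trans (pow_le_pow_right₀ hQ1 (by norm_num))
    have h2 : (t : ℝ) * Real.log 2 ≤ 29 * Real.log Q := by
      have := Real.log_le_log h2t ht
      rw [Real.log_pow, Real.log_pow] at this
      exact_mod_cast this
    have h3 : (t : ℝ) ≤ 50 * Real.log Q := by
      have h4 := Real.log_two_gt_d9
      have h5 : (t : ℝ) * 0.58 ≤ (t : ℝ) * Real.log 2 :=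
        mul_le_mul_of_nonneg_left (by linarith) (Nat.cast_nonneg t)
      linarith
    have hn0 : (0 : ℝ) ≤ Real.log ((n : ℝ) + 1) :=
      Real.log_nonneg (by linarith [(Nat.cast_nonneg n : (0 : ℝ) ≤ (n : ℝ))])
    have hn1 : (0 : ℝ) < (n : ℝ) + 1 := by positivity
    have h6 : ((n + t).choose n : ℝ) ≤ Q ^ (50 * Real.log ((n : ℝ) + 1)) := by
      have h7 : ((n + t).choose n : ℝ) ≤ ((n : ℝ) + 1) ^ t := by
        exact_mod_cast choose_le_pow n t
      refine h7.trans ?_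
      rw [← Real.rpow_natCast, Real.rpow_def_of_pos hn1, Real.rpow_def_of_pos hQ0]
      apply Real.exp_le_exp.mpr
      calc Real.log ((n : ℝ) + 1) * (t : ℝ) ≤ Real.log ((n : ℝ) + 1) * (50 * Real.log Q) :=
            mul_le_mul_of_nonneg_left h3 hn0
        _ = Real.log Q * (50 * Real.log ((n : ℝ) + 1)) := by ring
    exact mul_le_mul h1 h6 (by positivity) (by positivity)
  rcases min_choice ((2 : ℝ) ^ n) (Q ^ (50 * Real.log ((n : ℝ) + 1))) with h | h
  · rw [h]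
    exact hA
  · rw [h]
    exact hB

end H44SD
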