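import Pool.Agent.H44.SD.PathB
import Pool.Agent.H44.SD.ExistsZ

/-!
Project SD (MP_43ee49_co), helper44, module Path: the deterministic theorem.

Given two vertices `x, y`, `exists_z` (with `V = Vert A`, `α = ρ^2 / (4 R^2)`, `χ = 2 n X ζ`,
`L = 2 N + 1`, data: `(c_x, s_ν)` and `(c_y, s_ν)` for `ν = 1..N`, `s_ν = τ / (2 n X) * (1 + ζ)^ν`, and
`(0, 1)`; enumerate them by `Fin (2 N + 1)`, for example `l < N` ↦ `(c_x, s_{l+1})`,
`N ≤ l < 2 N` ↦ `(c_y, s_{l-N+1})`, `l = 2 N` ↦ `(0, 1)`) gives `z ∈ [0,1]^n` for which nothing is bad;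
`hsmall` is the required inequality. Let `xs` be a maximiser of `dot z` on `Vert A` (finite, nonempty).
`to_opt` for `x` and for `y` gives `edist x y ≤ 2 (N + 1) F`. Conclude with
`SimpleGraph.ediam_le_of_edist_le`, and `pdiam = ediam.toNat`.
-/

namespace H44SD

open Finset

variable {m n : ℕ} {A : Fin m → Fin n → ℝ}

/-- the scale number `ν` -/
private noncomputable def Path_s (n : ℕ) (X τ ζ : ℝ) (ν : ℕ) : ℝ := τ / (2 * n * X) * (1 + ζ) ^ ν

private theorem Path_pair {X R ρ τ : ℝ} {q : ℕ} (hG : Good A X R ρ τ q) (hn : 1 ≤ n) (hX : 0 < X)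
    (hR : 0 < R) (hρ : 0 < ρ) (hτ : 0 < τ) {ζ : ℝ} (hζ : 0 < ζ) (N : ℕ)
    (hN : 2 * n * X * R / (ζ * τ) ≤ (1 + ζ) ^ N)
    (hsmall : ((2 * N + 1 : ℕ) : ℝ) * (n : ℝ) ^ 2 *
      (11943936 * X ^ 6 * (2 * n * X * ζ) ^ 2 / (ρ ^ 2 / (4 * R ^ 2)) ^ 4) < 1)
    (K : ℕ) (hK : 8 * X * R / ρ < K) (t : ℕ) (ht : K * q < 2 ^ t) (x y : ↥(Vert A)) :
    (pgraph A).edist x y ≤ ((2 * (N + 1) * (2 ^ t * (n + t).choose n) : ℕ) : ℕ∞) := by
  have hn0 : (0 : ℝ) < n := by exact_mod_cast hn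
  have hV : ∀ x ∈ Vert A, ∀ k, |x k| ≤ X := fun x hx k => hG.bd x hx.1 k
  let cc : (Fin n → ℝ) → Fin n → ℝ := fun u => ∑ l ∈ tight A u, A l
  let c : Fin (2 * N + 1) → Fin n → ℝ := fun l =>
    if (l : ℕ) < N then cc x else if (l : ℕ) < 2 * N then cc y else 0
  let s : Fin (2 * N + 1) → ℝ := fun l =>
    if (l : ℕ) < N then Path_s n X τ ζ (l + 1) else if (l : ℕ) < 2 * N then
      Path_s n X τ ζ (l - N + 1) else 1
  have hSpos : ∀ ν, 0 < Path_s n X τ ζ ν := fun ν => by unfold Path_s; positivity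
  have hs : ∀ l, 0 < s l := by
    intro l
    simp only [s]
    split_ifs
    · exact hSpos _
    · exact hSpos _
    · exact one_pos
  obtain ⟨z, hz, hbad⟩ := exists_z (V := Vert A) (X := X) (α := ρ ^ 2 / (4 * R ^ 2))
    (χ := 2 * n * X * ζ) hV hX (by positivity) (by positivity) (2 * N + 1) c s hs hsmall
  obtain ⟨xs, hxsV, hxs⟩ := Set.exists_max_image (Vert A) (dot z) (vert_finite A) ⟨x, x.2⟩
  have hbad0 : ∀ i j, i ≠ j → ¬ Bad (Vert A) i j (ρ ^ 2 / (4 * R ^ 2)) (2 * n * X * ζ) z := by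
    intro i j hij
    have h := hbad ⟨2 * N, by omega⟩ i j hij
    have hc : c ⟨2 * N, by omega⟩ = 0 := by
      simp only [c]
      rw [if_neg (by omega), if_neg (by omega)]
    have hs1 : s ⟨2 * N, by omega⟩ = 1 := by
      simp only [s]
      rw [if_neg (by omega), if_neg (by omega)]
    rw [hc, hs1] at h
    simpa using h
  have hx := to_opt hG hn hX hR hρ hτ hζ N hN K hK t ht hz x ⟨xs, hxsV⟩ hxs (by
    intro ν h1 h2 i j hij
    have h := hbad ⟨ν - 1, by omega⟩ i j hij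
    have hc : c ⟨ν - 1, by omega⟩ = cc x := by
      simp only [c]
      rw [if_pos (by omega)]
    have hs1 : s ⟨ν - 1, by omega⟩ = Path_s n X τ ζ ν := by
      simp only [s]
      rw [if_pos (by omega)]
      congr 1
      omega
    rw [hc, hs1] at h
    exact h) hbad0
  have hy := to_opt hG hn hX hR hρ hτ hζ N hN K hK t ht hz y ⟨xs, hxsV⟩ hxs (by
    intro ν h1 h2 i j hij
    have h := hbad ⟨N + (ν - 1), by omega⟩ i j hij
    have hc : c ⟨N + (ν - 1), by omega⟩ = cc y := by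
      simp only [c]
      rw [if_neg (by omega), if_pos (by omega)]
    have hs1 : s ⟨N + (ν - 1), by omega⟩ = Path_s n X τ ζ ν := by
      simp only [s]
      rw [if_neg (by omega), if_pos (by omega)]
      congr 1
      omega
    rw [hc, hs1] at h
    exact h) hbad0
  have htri : (pgraph A).edist x y ≤ (pgraph A).edist x ⟨xs, hxsV⟩
      + (pgraph A).edist ⟨xs, hxsV⟩ y := SimpleGraph.edist_triangle
  rw [SimpleGraph.edist_comm (u := ⟨xs, hxsV⟩) (v := y)] at htri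
  refine htri.trans ((add_le_add hx hy).trans (le_of_eq ?_))
  rw [← Nat.cast_add]
  congr 1
  ring

theorem pdiam_le_det {X R ρ τ : ℝ} {q : ℕ} (hG : Good A X R ρ τ q) (hn : 1 ≤ n) (hX : 0 < X)
    (hR : 0 < R) (hρ : 0 < ρ) (hτ : 0 < τ) {ζ : ℝ} (hζ : 0 < ζ) (N : ℕ)
    (hN : 2 * n * X * R / (ζ * τ) ≤ (1 + ζ) ^ N)
    (hsmall : ((2 * N + 1 : ℕ) : ℝ) * (n : ℝ) ^ 2 *
      (11943936 * X ^ 6 * (2 * n * X * ζ) ^ 2 / (ρ ^ 2 / (4 * R ^ 2)) ^ 4) < 1)
    (K : ℕ) (hK : 8 * X * R / ρ < K) (t : ℕ) (ht : K * q < 2 ^ t) :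
    pdiam A ≤ 2 * (N + 1) * (2 ^ t * (n + t).choose n) := by
  have h : (pgraph A).ediam ≤ ((2 * (N + 1) * (2 ^ t * (n + t).choose n) : ℕ) : ℕ∞) :=
    SimpleGraph.ediam_le_of_edist_le fun x y =>
      Path_pair hG hn hX hR hρ hτ hζ N hN hsmall K hK t ht x y
  unfold pdiam SimpleGraph.diam
  exact ENat.toNat_le_of_le_natCast h

end H44SD
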