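import Pool.Agent.H44.SD.NumA
import Pool.Agent.H44.SD.NumB
import Pool.Agent.H44.SD.NumC
import Pool.Agent.H44.SD.Path
import Pool.Agent.H44.SD.GoodProb
import Pool.Agent.H44.SD.NondegAE

/-!
Project SD (MP_43ee49_co), helper44, module FinalA: the bound of the expected diameter.

* `pdiam_good`: if `pert Abar σ G` is `Good` for the parameters of `Param` then
  `pdiam ≤ Q^277 min(2^n, Q^(50 log(n+1)))`: `num_choice` (`X R = 4 RR / σ ≤ 12 Q³ ≤ Q^6`), `pdiam_le_det`,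
  `kk_bound`.
* `pdiam_small`: if `m ≤ Q^13` and the matrix is nondegenerate: `t = Nat.log 2 m + 1`, `2^t ≤ 2 m ≤ Q^29`,
  `pdiam_le_kk`, `kk_bound`.
* `lint_bound`: case split on the hypotheses of `good_prob`; if they hold, split the integral on the
  event of `good_prob`: off it `pdiam_good`, on it `pdiam ≤ m ^ n` (`pdiam_le_pow`) and the measure is
  `≤ 4 / (m+1)^n`; otherwise `m_le`, `nondeg_ae` and `pdiam_small`. For `n = 0` or `m = 0` use
  `pdiam_le_pow`.
-/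

namespace H44SD

open MeasureTheory Finset

/-- the final bound -/
noncomputable def FB (m n : ℕ) (σ : ℝ) : ℝ :=
  QQ m n σ ^ 280 * min ((2 : ℝ) ^ n) (QQ m n σ ^ (50 * Real.log ((n : ℝ) + 1)))

theorem QQ_ge_two (m n : ℕ) {σ : ℝ} (hσ : 0 < σ) : 2 ≤ QQ m n σ := by
  unfold QQ
  have h1 : (0 : ℝ) ≤ n := Nat.cast_nonneg n
  have h2 : 0 ≤ Real.log ((m : ℝ) + 1) := Real.log_nonneg (by
    have : (0 : ℝ) ≤ m := Nat.cast_nonneg m
    linarith)
  have h3 : 0 < 1 / σ := by positivity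
  linarith

theorem min_ge_one (n : ℕ) {Q : ℝ} (hQ : 1 ≤ Q) :
    1 ≤ min ((2 : ℝ) ^ n) (Q ^ (50 * Real.log ((n : ℝ) + 1))) := by
  have h1 : (0 : ℝ) ≤ n := Nat.cast_nonneg n
  refine le_min (one_le_pow₀ (by norm_num)) ?_
  refine Real.one_le_rpow hQ ?_
  have : 0 ≤ Real.log ((n : ℝ) + 1) := Real.log_nonneg (by linarith)
  linarith

theorem n_le_QQ (m n : ℕ) {σ : ℝ} (hσ : 0 < σ) : (n : ℝ) ≤ QQ m n σ := by
  unfold QQ
  have h2 : 0 ≤ Real.log ((m : ℝ) + 1) := Real.log_nonneg (by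
    have : (0 : ℝ) ≤ m := Nat.cast_nonneg m
    linarith)
  have h3 : 0 < 1 / σ := by positivity
  linarith

theorem pdiam_good {m n : ℕ} (hm : 1 ≤ m) (hn : 1 ≤ n) {σ : ℝ} (hσ : 0 < σ)
    {A : Fin m → Fin n → ℝ}
    (hG : Good A (4 / σ) (RR m n σ) (rho m n σ) (tau m n σ) (qq m n σ)) :
    (pdiam A : ℝ) ≤ QQ m n σ ^ 277 *
      min ((2 : ℝ) ^ n) (QQ m n σ ^ (50 * Real.log ((n : ℝ) + 1))) := by
  have hQ := QQ_ge hm hn hσ
  have hth := theta_le hm hn hσ
  have hXR : 4 / σ * RR m n σ ≤ QQ m n σ ^ 6 := by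
    have e : 4 / σ * RR m n σ = 4 * (RR m n σ / σ) := by ring
    rw [e]
    have h3 : (3 : ℝ) ^ 3 ≤ QQ m n σ ^ 3 := pow_le_pow_left₀ (by norm_num) hQ 3
    have h4 : QQ m n σ ^ 6 = QQ m n σ ^ 3 * QQ m n σ ^ 3 := by ring
    rw [h4]
    nlinarith
  have hX : 0 < 4 / σ := by positivity
  obtain ⟨ζ, hζ, N, K, t, hN, hsmall, hK, ht, h2t, hN2⟩ :=
    num_choice hQ hn (n_le_QQ m n hσ) hX (RR_pos hn hσ) hXR (rho_pos hn hσ)
      (rho_inv_le hm hn hσ) (qq_le hm hn hσ) (tau_pos hn hσ) (log_tau_le hm hn hσ)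
  have h1 := pdiam_le_det hG hn hX (RR_pos hn hσ) (rho_pos hn hσ) (tau_pos hn hσ) hζ N hN
    hsmall K hK t ht
  have h2 := kk_bound (n := n) hQ h2t
  have h3 : (pdiam A : ℝ) ≤ (2 * ((N : ℝ) + 1)) * ((2 : ℝ) ^ t * ((n + t).choose n : ℝ)) := by
    have : (pdiam A : ℝ) ≤ ((2 * (N + 1) * (2 ^ t * (n + t).choose n) : ℕ) : ℝ) := by
      exact_mod_cast h1
    refine this.trans (le_of_eq ?_)
    push_cast
    ring
  have hQ0 : 0 < QQ m n σ := by linarith
  calc (pdiam A : ℝ) ≤ (2 * ((N : ℝ) + 1)) * ((2 : ℝ) ^ t * ((n + t).choose n : ℝ)) := h3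
    _ ≤ QQ m n σ ^ 219 * (QQ m n σ ^ 58 *
        min ((2 : ℝ) ^ n) (QQ m n σ ^ (50 * Real.log ((n : ℝ) + 1)))) := by
        refine mul_le_mul hN2 h2 (by positivity) (by positivity)
    _ = _ := by ring

theorem pdiam_small {m n : ℕ} (hm : 1 ≤ m) {Q : ℝ} (hQ : 3 ≤ Q) (hmQ : (m : ℝ) ≤ Q ^ 13)
    {A : Fin m → Fin n → ℝ} (hN : Nondeg A) :
    (pdiam A : ℝ) ≤ Q ^ 58 *
      min ((2 : ℝ) ^ n) (Q ^ (50 * Real.log ((n : ℝ) + 1))) := by
  have h1 : m < 2 ^ (Nat.log 2 m + 1) := Nat.lt_pow_succ_log_self (by norm_num) m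
  have h2 : 2 ^ (Nat.log 2 m) ≤ m := Nat.pow_log_le_self 2 (by omega)
  have h3 := pdiam_le_kk hN _ h1
  have h4 : (2 : ℝ) ^ (Nat.log 2 m + 1) ≤ Q ^ 29 := by
    have h5 : (2 : ℝ) ^ (Nat.log 2 m) ≤ m := by exact_mod_cast h2
    rw [pow_succ]
    have h6 : Q ^ 29 = Q ^ 13 * Q ^ 16 := by ring
    rw [h6]
    have h7 : (2 : ℝ) ≤ Q ^ 16 := by
      have : (1 : ℝ) ≤ Q ^ 15 := one_le_pow₀ (by linarith)
      have e : Q ^ 16 = Q ^ 15 * Q := by ring
      rw [e]
      nlinarith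
    exact mul_le_mul (h5.trans hmQ) h7 (by norm_num) (by positivity)
  have h8 := kk_bound (n := n) hQ h4
  have h9 : (pdiam A : ℝ) ≤ (2 : ℝ) ^ (Nat.log 2 m + 1) *
      ((n + (Nat.log 2 m + 1)).choose n : ℝ) := by
    exact_mod_cast h3
  exact h9.trans h8

theorem lint_bound (m n : ℕ) {σ : ℝ} (hσ : 0 < σ) (Abar : Fin m → Fin n → ℝ)
    (hA : ∑ i, ∑ j, Abar i j ^ 2 ≤ 1) :
    ∫⁻ G, (pdiam (pert Abar σ G) : ENNReal) ∂(gm m n) ≤ ENNReal.ofReal (FB m n σ) := by
  have hQ2 := QQ_ge_two m n hσ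
  have hQ1 : 1 ≤ QQ m n σ := by linarith
  have hmin := min_ge_one n hQ1
  have hFB1 : 1 ≤ FB m n σ := by
    unfold FB
    have h1 : 1 ≤ QQ m n σ ^ 280 := one_le_pow₀ hQ1
    nlinarith
  rcases Nat.eq_zero_or_pos n with hn | hn
  · subst hn
    have h1 : ∀ G, (pdiam (pert Abar σ G) : ENNReal) ≤ 1 := by
      intro G
      have := pdiam_le_pow (pert Abar σ G)
      rw [pow_zero] at this
      exact_mod_cast this
    calc ∫⁻ G, (pdiam (pert Abar σ G) : ENNReal) ∂(gm m 0) ≤ ∫⁻ _G, 1 ∂(gm m 0) :=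
          lintegral_mono h1
      _ = 1 := by simp
      _ ≤ ENNReal.ofReal (FB m 0 σ) := by
          rw [← ENNReal.ofReal_one]
          exact ENNReal.ofReal_le_ofReal hFB1
  rcases Nat.eq_zero_or_pos m with hm | hm
  · subst hm
    have h1 : ∀ G, (pdiam (pert Abar σ G) : ENNReal) ≤ 1 := by
      intro G
      have := pdiam_le_pow (pert Abar σ G)
      rw [zero_pow (by omega)] at this
      have h0 : pdiam (pert Abar σ G) = 0 := by omega
      rw [h0]
      simp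
    calc ∫⁻ G, (pdiam (pert Abar σ G) : ENNReal) ∂(gm 0 n) ≤ ∫⁻ _G, 1 ∂(gm 0 n) :=
          lintegral_mono h1
      _ = 1 := by simp
      _ ≤ ENNReal.ofReal (FB 0 n σ) := by
          rw [← ENNReal.ofReal_one]
          exact ENNReal.ofReal_le_ofReal hFB1
  have hQ3 := QQ_ge (m := m) (n := n) hm hn hσ
  set M := min ((2 : ℝ) ^ n) (QQ m n σ ^ (50 * Real.log ((n : ℝ) + 1))) with hM
  have hM1 : 1 ≤ M := hmin
  have hQ0 : 0 < QQ m n σ := by linarith
  by_cases hc : (2 ≤ m * σ ^ 2 ∧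
      (11 * RR m n σ / σ) ^ n * Real.exp (-(m : ℝ) / 400) ≤ 1 / ((m : ℝ) + 1) ^ n)
  · have hS := good_prob hm hn Abar hA hσ hc.1 hc.2
    set S := {G | ¬ Good (pert Abar σ G) (4 / σ) (RR m n σ) (rho m n σ) (tau m n σ)
      (qq m n σ)} with hSdef
    have h1 : ∀ G, (pdiam (pert Abar σ G) : ENNReal) ≤
        ENNReal.ofReal (QQ m n σ ^ 277 * M) + S.indicator (fun _ => ((m : ENNReal) ^ n)) G := by
      intro G
      by_cases hG : G ∈ S
      · rw [Set.indicator_of_mem hG]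
        refine le_trans ?_ le_add_self
        have := pdiam_le_pow (pert Abar σ G)
        exact_mod_cast this
      · have hG' : Good (pert Abar σ G) (4 / σ) (RR m n σ) (rho m n σ) (tau m n σ)
            (qq m n σ) := by
          by_contra hcon
          exact hG hcon
        refine le_trans ?_ le_self_add
        have := pdiam_good hm hn hσ hG'
        rw [← ENNReal.ofReal_natCast]
        exact ENNReal.ofReal_le_ofReal this
    have h2 : ∫⁻ G, (pdiam (pert Abar σ G) : ENNReal) ∂(gm m n) ≤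
        ENNReal.ofReal (QQ m n σ ^ 277 * M) + (m : ENNReal) ^ n * gm m n S := by
      calc ∫⁻ G, (pdiam (pert Abar σ G) : ENNReal) ∂(gm m n)
          ≤ ∫⁻ G, (ENNReal.ofReal (QQ m n σ ^ 277 * M) +
            S.indicator (fun _ => ((m : ENNReal) ^ n)) G) ∂(gm m n) := lintegral_mono h1
        _ = ENNReal.ofReal (QQ m n σ ^ 277 * M) +
            ∫⁻ G, S.indicator (fun _ => ((m : ENNReal) ^ n)) G ∂(gm m n) := by
            rw [lintegral_add_left measurable_const]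
            simp
        _ ≤ _ := by
            gcongr
            exact lintegral_indicator_const_le _ _
    have h3 : (m : ENNReal) ^ n * gm m n S ≤ ENNReal.ofReal 4 := by
      calc (m : ENNReal) ^ n * gm m n S
          ≤ (m : ENNReal) ^ n * ENNReal.ofReal (4 / ((m : ℝ) + 1) ^ n) := by gcongr
        _ = ENNReal.ofReal ((m : ℝ) ^ n * (4 / ((m : ℝ) + 1) ^ n)) := by
            rw [ENNReal.ofReal_mul (by positivity), ENNReal.ofReal_pow (by positivity),
              ENNReal.ofReal_natCast]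
        _ ≤ ENNReal.ofReal 4 := by
            refine ENNReal.ofReal_le_ofReal ?_
            have h4 : (m : ℝ) ^ n ≤ ((m : ℝ) + 1) ^ n :=
              pow_le_pow_left₀ (by positivity) (by linarith) n
            have h5 : 0 < ((m : ℝ) + 1) ^ n := by positivity
            rw [mul_div_assoc', div_le_iff₀ h5]
            linarith
    calc ∫⁻ G, (pdiam (pert Abar σ G) : ENNReal) ∂(gm m n)
        ≤ ENNReal.ofReal (QQ m n σ ^ 277 * M) + ENNReal.ofReal 4 := by
          refine h2.trans ?_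
          gcongr
      _ = ENNReal.ofReal (QQ m n σ ^ 277 * M + 4) := by
          rw [ENNReal.ofReal_add (by positivity) (by norm_num)]
      _ ≤ ENNReal.ofReal (FB m n σ) := by
          refine ENNReal.ofReal_le_ofReal ?_
          unfold FB
          rw [← hM]
          have h6 : 1 ≤ QQ m n σ ^ 277 := one_le_pow₀ hQ1
          have h7 : (27 : ℝ) ≤ QQ m n σ ^ 3 := by
            have := pow_le_pow_left₀ (by norm_num : (0 : ℝ) ≤ 3) hQ3 3
            linarith
          have h8 : QQ m n σ ^ 280 = QQ m n σ ^ 277 * QQ m n σ ^ 3 := by ring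
          rw [h8]
          have h9 : 1 ≤ QQ m n σ ^ 277 * M := one_le_mul_of_one_le_of_one_le h6 hM1
          nlinarith
  · have hmQ := m_le hm hn hσ hc
    calc ∫⁻ G, (pdiam (pert Abar σ G) : ENNReal) ∂(gm m n)
        ≤ ∫⁻ _G, ENNReal.ofReal (FB m n σ) ∂(gm m n) := by
          refine lintegral_mono_ae ?_
          filter_upwards [nondeg_ae Abar hA hσ] with G hG
          rw [← ENNReal.ofReal_natCast]
          refine ENNReal.ofReal_le_ofReal ?_
          refine (pdiam_small hm hQ3 hmQ hG).trans ?_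
          unfold FB
          rw [← hM]
          refine mul_le_mul_of_nonneg_right ?_ (by linarith)
          exact pow_le_pow_right₀ hQ1 (by norm_num)
      _ = ENNReal.ofReal (FB m n σ) := by simp

end H44SD
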