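import Pool.Agent.H44.SD.Conn
import Pool.Agent.H44.SD.ClfDist

/-!
Project SD (MP_43ee49_co), helper44, module KKDet: distance bounds in `pgraph A`.

* `super_edist`: `clf_dist` for `G = pgraph A`, `lab z = tight A z`, `V = {z | c ≤ dot w z}`,
  with `conn_super`; `lab` is injective by `vert_eq_of_subset`, cardinalities by `vert_card`.
* `pdiam_le_kk`: the same with `V = univ`, `U = univ`, `conn_all`; then
  `SimpleGraph.ediam_le_of_edist_le` and `ENat.toNat`.
-/

namespace H44SD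

open Finset

variable {m n : ℕ} {A : Fin m → Fin n → ℝ}

theorem super_edist (hN : Nondeg A) (X : ℝ) (hX : ∀ x ∈ poly A, ∀ j, |x j| ≤ X) (w : Fin n → ℝ)
    (c : ℝ) (U : Finset (Fin m)) (t : ℕ) (hU : ∀ z ∈ Vert A, c ≤ dot w z → tight A z ⊆ U)
    (hUt : U.card < 2 ^ t) (x y : ↥(Vert A)) (hx : c ≤ dot w x) (hy : c ≤ dot w y) :
    (pgraph A).edist x y ≤ ((2 ^ t * (n + t).choose n : ℕ) : ℕ∞) := by
  have hP : ∀ z : ↥(Vert A), (z : Fin n → ℝ) ∈ Vert A := fun z => z.2
  have := clf_dist (pgraph A) (fun z : ↥(Vert A) => tight A (z : Fin n → ℝ))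
    {z | c ≤ dot w (z : Fin n → ℝ)} U n t (fun z _ => vert_card hN z.2)
    (fun z hz => hU z z.2 hz) hUt
    (fun a _ b _ hab => Subtype.ext (vert_eq_of_subset a.2 (le_of_eq hab)))
    (fun a ha b hb => conn_super hN X hX w c a b ha hb) x hx y hy
  exact this

theorem pdiam_le_kk (hN : Nondeg A) (t : ℕ) (ht : m < 2 ^ t) :
    pdiam A ≤ 2 ^ t * (n + t).choose n := by
  have h : ∀ x y : ↥(Vert A), (pgraph A).edist x y ≤ ((2 ^ t * (n + t).choose n : ℕ) : ℕ∞) := by
    intro x y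
    refine clf_dist (pgraph A) (fun z : ↥(Vert A) => tight A (z : Fin n → ℝ))
      Set.univ Finset.univ n t (fun z _ => vert_card hN z.2)
      (fun z _ => Finset.subset_univ _) (by simpa using ht)
      (fun a _ b _ hab => Subtype.ext (vert_eq_of_subset a.2 (le_of_eq hab)))
      (fun a _ b _ => ?_) x (Set.mem_univ _) y (Set.mem_univ _)
    obtain ⟨p, hp⟩ := conn_all hN a b
    exact ⟨p, fun z hz => ⟨Set.mem_univ _, hp z hz⟩⟩
  have h2 := SimpleGraph.ediam_le_of_edist_le h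
  unfold pdiam SimpleGraph.diam
  have h3 := ENat.toNat_le_toNat h2 (ENat.natCast_ne_top _)
  rwa [ENat.toNat_natCast] at h3

end H44SD
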