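import Pool.Agent.H44.SD.Param

/-!
Project SD (MP_43ee49_co), helper44, module NumA: bounds for the parameters by powers of
`Q = QQ m n σ`.

`Q = n + 1/σ + log(m+1) + 2`, so `n + 2 ≤ Q`, `1/σ ≤ Q`, `1 + log(m+1) ≤ Q`, and `Q ≥ 3 + log 2`, `Q ≥ 3`
(`m ≥ 1`, `n ≥ 1`).
* `theta_le`: `RR / σ = n (1/σ + Λ)`, `Λ ≤ 2 Q²`, so `≤ Q (Q + 2 Q²) ≤ 3 Q³`.
* `rho_inv_le`: `1/ρ = 2080 (RR/σ)² ≤ 18720 Q⁶ ≤ Q^15` (`3^9 = 19683`).
* `qq_le`: `2 (4/σ) RR / ρ + 3 ≤ 24 Q³ · 18720 Q⁶ + 3 ≤ Q^21` (`3^12 = 531441 ≥ 449283`), its logarithm is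
  `≤ 21 log Q ≤ 21 Q`; `qq ≤ n (21 Q + Q) + 1 ≤ 23 Q² ≤ Q^5`.
* `log_tau_le`: `log (1/τ) = log (520 θ²) + n (log (10400 θ³) + log (m+1))`, `θ = RR/σ ≤ 3 Q³`;
  `520 θ² ≤ 4680 Q⁶ ≤ Q^14`, `10400 θ³ ≤ 280800 Q⁹ ≤ Q^21`; so `≤ 14 Q + Q (21 Q + Q) ≤ 27 Q² ≤ Q^5`.
* `m_le`: if the conditions of `good_prob` fail then `m ≤ Q^13`: either `m σ² < 2` and `m < 2 Q²`, or
  `(11 θ)^n exp(-m/400) > 1 / (m+1)^n`, take logarithms: `m / 400 < n (log (11 θ) + log (m+1)) ≤ Q (7 Q + Q)`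
  (`11 θ ≤ 33 Q³ ≤ Q^7`), `m ≤ 3200 Q² ≤ Q^10`.
-/

namespace H44SD

variable {m n : ℕ} {σ : ℝ}

private theorem NumA_log_nonneg (m : ℕ) : 0 ≤ Real.log ((m : ℝ) + 1) :=
  Real.log_nonneg (by
    have : (0 : ℝ) ≤ m := Nat.cast_nonneg m
    linarith)

theorem QQ_ge (hm : 1 ≤ m) (hn : 1 ≤ n) (hσ : 0 < σ) : 3 ≤ QQ m n σ := by
  unfold QQ
  have h1 : (1 : ℝ) ≤ n := by exact_mod_cast hn
  have h2 : 0 ≤ 1 / σ := by positivity
  have h3 := NumA_log_nonneg m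
  linarith

private theorem NumA_n_le (m : ℕ) {n : ℕ} {σ : ℝ} (hσ : 0 < σ) : (n : ℝ) + 2 ≤ QQ m n σ := by
  unfold QQ
  have h2 : 0 ≤ 1 / σ := by positivity
  have h3 := NumA_log_nonneg m
  linarith

private theorem NumA_sigma_le (m n : ℕ) {σ : ℝ} : 1 / σ ≤ QQ m n σ := by
  unfold QQ
  have h2 : (0 : ℝ) ≤ n := Nat.cast_nonneg n
  have h3 := NumA_log_nonneg m
  linarith

private theorem NumA_log_le (m n : ℕ) {σ : ℝ} (hσ : 0 < σ) :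
    Real.log ((m : ℝ) + 1) + 2 ≤ QQ m n σ := by
  unfold QQ
  have h1 : (0 : ℝ) ≤ n := Nat.cast_nonneg n
  have h2 : 0 ≤ 1 / σ := by positivity
  linarith

theorem theta_le (hm : 1 ≤ m) (hn : 1 ≤ n) (hσ : 0 < σ) :
    RR m n σ / σ ≤ 3 * QQ m n σ ^ 3 := by
  have hQ := QQ_ge hm hn hσ
  have h1 := NumA_n_le m (n := n) hσ
  have h2 := NumA_sigma_le m n (σ := σ)
  have h3 := NumA_log_le m n hσ
  have h4 := NumA_log_nonneg m
  have h5 : (0 : ℝ) ≤ n := Nat.cast_nonneg n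
  have h6 : RR m n σ / σ = n * (1 / σ + Lam m n) := by
    unfold RR
    field_simp
  rw [h6]
  set Q := QQ m n σ
  have hσ' : 0 ≤ 1 / σ := by positivity
  have h7 : Lam m n ≤ 2 * Q ^ 2 := by
    unfold Lam
    have h8 : ((n : ℝ) + 1) * (1 + Real.log ((m : ℝ) + 1)) ≤ Q * Q :=
      mul_le_mul (by linarith) (by linarith) (by linarith) (by linarith)
    nlinarith
  have h9 : 0 ≤ Lam m n := le_trans (by norm_num) Lam_ge
  calc (n : ℝ) * (1 / σ + Lam m n) ≤ Q * (Q + 2 * Q ^ 2) :=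
        mul_le_mul (by linarith) (by linarith) (by linarith) (by linarith)
    _ ≤ 3 * Q ^ 3 := by nlinarith [sq_nonneg Q]

private theorem NumA_pow {Q : ℝ} (hQ : 3 ≤ Q) (k : ℕ) : (3 : ℝ) ^ k ≤ Q ^ k :=
  pow_le_pow_left₀ (by norm_num) hQ k

private theorem NumA_coef {Q c : ℝ} (hQ : 3 ≤ Q) (a k : ℕ) (hc : c ≤ 3 ^ k) :
    c * Q ^ a ≤ Q ^ (a + k) := by
  have h1 := NumA_pow hQ k
  have h2 : 0 < Q ^ a := by positivity
  rw [pow_add]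
  nlinarith

theorem rho_inv_le (hm : 1 ≤ m) (hn : 1 ≤ n) (hσ : 0 < σ) :
    1 / rho m n σ ≤ QQ m n σ ^ 15 := by
  have hQ := QQ_ge hm hn hσ
  have hθ := theta_le hm hn hσ
  have hR := RR_pos (m := m) hn hσ
  have hθ0 : 0 < RR m n σ / σ := by positivity
  have h1 : 1 / rho m n σ = 2080 * (RR m n σ / σ) ^ 2 := by
    unfold rho
    field_simp
  rw [h1]
  set Q := QQ m n σ
  have h2 : (RR m n σ / σ) ^ 2 ≤ (3 * Q ^ 3) ^ 2 := pow_le_pow_left₀ hθ0.le hθ 2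
  have h3 : (3 * Q ^ 3) ^ 2 = 9 * Q ^ 6 := by ring
  have h4 : (18720 : ℝ) * Q ^ 6 ≤ Q ^ (6 + 9) := NumA_coef hQ 6 9 (by norm_num)
  have h5 : (6 + 9 : ℕ) = 15 := rfl
  rw [h5] at h4
  linarith

private theorem NumA_rho (hm : 1 ≤ m) (hn : 1 ≤ n) (hσ : 0 < σ) :
    1 / rho m n σ ≤ 18720 * QQ m n σ ^ 6 := by
  have hQ := QQ_ge hm hn hσ
  have hθ := theta_le hm hn hσ
  have hR := RR_pos (m := m) hn hσ
  have hθ0 : 0 < RR m n σ / σ := by positivity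
  have h1 : 1 / rho m n σ = 2080 * (RR m n σ / σ) ^ 2 := by
    unfold rho
    field_simp
  rw [h1]
  set Q := QQ m n σ
  have h2 : (RR m n σ / σ) ^ 2 ≤ (3 * Q ^ 3) ^ 2 := pow_le_pow_left₀ hθ0.le hθ 2
  have h3 : (3 * Q ^ 3) ^ 2 = 9 * Q ^ 6 := by ring
  linarith

private theorem NumA_logpow {Q y : ℝ} (hQ : 3 ≤ Q) (hy : 0 < y) (k : ℕ) (h : y ≤ Q ^ k) :
    Real.log y ≤ k * Q := by
  have h1 : Real.log y ≤ Real.log (Q ^ k) := Real.log_le_log hy h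
  rw [Real.log_pow] at h1
  have h2 : Real.log Q ≤ Q := (Real.log_le_sub_one_of_pos (by linarith)).trans (by linarith)
  have h3 : (k : ℝ) * Real.log Q ≤ k * Q := mul_le_mul_of_nonneg_left h2 (Nat.cast_nonneg k)
  linarith

theorem qq_le (hm : 1 ≤ m) (hn : 1 ≤ n) (hσ : 0 < σ) : (qq m n σ : ℝ) ≤ QQ m n σ ^ 5 := by
  have hQ := QQ_ge hm hn hσ
  have hθ := theta_le hm hn hσ
  have hR := RR_pos (m := m) hn hσ
  have hρ := rho_pos (m := m) hn hσ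
  have hθ0 : 0 < RR m n σ / σ := by positivity
  have h1 := NumA_n_le m (n := n) hσ
  have h3 := NumA_log_le m n hσ
  have h4 := NumA_log_nonneg m
  have h5 : (0 : ℝ) ≤ n := Nat.cast_nonneg n
  have h6 := NumA_rho hm hn hσ
  have hρ' : 0 < 1 / rho m n σ := by positivity
  unfold qq
  set Q := QQ m n σ
  have e1 : 2 * (4 / σ) * RR m n σ / rho m n σ = 8 * ((RR m n σ / σ) * (1 / rho m n σ)) := by
    field_simp
    ring
  have h7 : (RR m n σ / σ) * (1 / rho m n σ) ≤ (3 * Q ^ 3) * (18720 * Q ^ 6) :=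
    mul_le_mul hθ h6 hρ'.le (by positivity)
  have h8 : (3 * Q ^ 3) * (18720 * Q ^ 6) = 56160 * Q ^ 9 := by ring
  have hQ9 : 1 ≤ Q ^ 9 := one_le_pow₀ (by linarith)
  have h9 : 2 * (4 / σ) * RR m n σ / rho m n σ + 3 ≤ 449283 * Q ^ 9 := by
    rw [e1]
    linarith
  have h10 : (449283 : ℝ) * Q ^ 9 ≤ Q ^ (9 + 12) := NumA_coef hQ 9 12 (by norm_num)
  have h11 : 0 < 2 * (4 / σ) * RR m n σ / rho m n σ + 3 := by positivity
  have h12 : Real.log (2 * (4 / σ) * RR m n σ / rho m n σ + 3) ≤ ((9 + 12 : ℕ) : ℝ) * Q :=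
    NumA_logpow hQ h11 (9 + 12) (h9.trans h10)
  have h13 : Real.log ((2 * (4 / σ) * RR m n σ / rho m n σ + 3) * ((m : ℝ) + 1)) =
      Real.log (2 * (4 / σ) * RR m n σ / rho m n σ + 3) + Real.log ((m : ℝ) + 1) :=
    Real.log_mul h11.ne' (by positivity)
  have h14 : Real.log ((2 * (4 / σ) * RR m n σ / rho m n σ + 3) * ((m : ℝ) + 1)) ≤ 22 * Q := by
    rw [h13]
    push_cast at h12
    linarith
  have h15 : 0 ≤ Real.log ((2 * (4 / σ) * RR m n σ / rho m n σ + 3) * ((m : ℝ) + 1)) := by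
    refine Real.log_nonneg ?_
    have h16 : 3 ≤ 2 * (4 / σ) * RR m n σ / rho m n σ + 3 := by
      have : 0 < 2 * (4 / σ) * RR m n σ / rho m n σ := by positivity
      linarith
    have h17 : (0 : ℝ) ≤ m := Nat.cast_nonneg m
    nlinarith
  have h18 : (n : ℝ) * Real.log ((2 * (4 / σ) * RR m n σ / rho m n σ + 3) * ((m : ℝ) + 1)) ≤
      Q * (22 * Q) := mul_le_mul (by linarith) h14 h15 (by linarith)
  have h19 := Nat.ceil_lt_add_one (mul_nonneg h5 h15)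
  have hQ3 : (27 : ℝ) ≤ Q ^ 3 := by
    have := NumA_pow hQ 3
    norm_num at this
    exact this
  have h20 : Q ^ 5 = Q ^ 3 * Q ^ 2 := by ring
  have h21 : 9 ≤ Q ^ 2 := by nlinarith
  rw [h20]
  nlinarith

theorem log_tau_le (hm : 1 ≤ m) (hn : 1 ≤ n) (hσ : 0 < σ) :
    Real.log (1 / tau m n σ) ≤ QQ m n σ ^ 5 := by
  have hQ := QQ_ge hm hn hσ
  have hθ := theta_le hm hn hσ
  have hR := RR_pos (m := m) hn hσ
  have hθ0 : 0 < RR m n σ / σ := by positivity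
  have h1 := NumA_n_le m (n := n) hσ
  have h3 := NumA_log_le m n hσ
  have h4 := NumA_log_nonneg m
  have h5 : (0 : ℝ) ≤ n := Nat.cast_nonneg n
  unfold tau
  rw [one_div_one_div]
  set Q := QQ m n σ
  set θ := RR m n σ / σ
  have h6 : θ ^ 2 ≤ (3 * Q ^ 3) ^ 2 := pow_le_pow_left₀ hθ0.le hθ 2
  have h7 : θ ^ 3 ≤ (3 * Q ^ 3) ^ 3 := pow_le_pow_left₀ hθ0.le hθ 3
  have e1 : (3 * Q ^ 3) ^ 2 = 9 * Q ^ 6 := by ring
  have e2 : (3 * Q ^ 3) ^ 3 = 27 * Q ^ 9 := by ring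
  have h8 : (4680 : ℝ) * Q ^ 6 ≤ Q ^ (6 + 8) := NumA_coef hQ 6 8 (by norm_num)
  have h9 : (280800 : ℝ) * Q ^ 9 ≤ Q ^ (9 + 12) := NumA_coef hQ 9 12 (by norm_num)
  have h10 : Real.log (520 * θ ^ 2) ≤ ((6 + 8 : ℕ) : ℝ) * Q :=
    NumA_logpow hQ (by positivity) (6 + 8) (by linarith)
  have h11 : Real.log (10400 * θ ^ 3) ≤ ((9 + 12 : ℕ) : ℝ) * Q :=
    NumA_logpow hQ (by positivity) (9 + 12) (by linarith)
  push_cast at h10 h11
  have hm1 : (0 : ℝ) < (m : ℝ) + 1 := by positivity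
  have h12 : Real.log (520 * θ ^ 2 * (10400 * θ ^ 3 * ((m : ℝ) + 1)) ^ n) =
      Real.log (520 * θ ^ 2) + n * (Real.log (10400 * θ ^ 3) + Real.log ((m : ℝ) + 1)) := by
    rw [Real.log_mul (x := 520 * θ ^ 2) (by positivity) (by positivity), Real.log_pow,
      Real.log_mul (x := 10400 * θ ^ 3) (by positivity) (by positivity)]
  rw [h12]
  have h13 : (n : ℝ) * (Real.log (10400 * θ ^ 3) + Real.log ((m : ℝ) + 1)) ≤ n * (22 * Q) :=
    mul_le_mul_of_nonneg_left (by linarith) h5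
  have h14 : (n : ℝ) * (22 * Q) ≤ Q * (22 * Q) :=
    mul_le_mul_of_nonneg_right (by linarith) (by linarith)
  have hQ3 : (27 : ℝ) ≤ Q ^ 3 := by
    have := NumA_pow hQ 3
    norm_num at this
    exact this
  have h20 : Q ^ 5 = Q ^ 3 * Q ^ 2 := by ring
  have h21 : 3 * Q ≤ Q ^ 2 := by nlinarith
  rw [h20]
  nlinarith

theorem m_le (hm : 1 ≤ m) (hn : 1 ≤ n) (hσ : 0 < σ)
    (h : ¬ (2 ≤ m * σ ^ 2 ∧
      (11 * RR m n σ / σ) ^ n * Real.exp (-(m : ℝ) / 400) ≤ 1 / ((m : ℝ) + 1) ^ n)) :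
    (m : ℝ) ≤ QQ m n σ ^ 13 := by
  have hQ := QQ_ge hm hn hσ
  have hθ := theta_le hm hn hσ
  have hR := RR_pos (m := m) hn hσ
  have hθ0 : 0 < RR m n σ / σ := by positivity
  have h1 := NumA_n_le m (n := n) hσ
  have h2 := NumA_sigma_le m n (σ := σ)
  have h3 := NumA_log_le m n hσ
  have h4 := NumA_log_nonneg m
  have h5 : (0 : ℝ) ≤ n := Nat.cast_nonneg n
  set Q := QQ m n σ
  by_cases hA : 2 ≤ (m : ℝ) * σ ^ 2
  · have hB : 1 / ((m : ℝ) + 1) ^ n <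
        (11 * RR m n σ / σ) ^ n * Real.exp (-(m : ℝ) / 400) := by
      by_contra hc
      exact h ⟨hA, not_lt.1 hc⟩
    have e1 : 11 * RR m n σ / σ = 11 * (RR m n σ / σ) := by ring
    rw [e1] at hB
    set θ := RR m n σ / σ
    have hm1 : (0 : ℝ) < (m : ℝ) + 1 := by positivity
    have h6 := Real.log_lt_log (by positivity) hB
    rw [Real.log_mul (by positivity) (Real.exp_pos _).ne', Real.log_exp, Real.log_pow,
      one_div, Real.log_inv, Real.log_pow] at h6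
    have h7 : (33 : ℝ) * Q ^ 3 ≤ Q ^ (3 + 4) := NumA_coef hQ 3 4 (by norm_num)
    have h8 : Real.log (11 * θ) ≤ ((3 + 4 : ℕ) : ℝ) * Q :=
      NumA_logpow hQ (by positivity) (3 + 4) (by linarith)
    push_cast at h8
    have h9 : (n : ℝ) * Real.log (11 * θ) ≤ n * (7 * Q) :=
      mul_le_mul_of_nonneg_left (by linarith) h5
    have h10 : (n : ℝ) * Real.log ((m : ℝ) + 1) ≤ n * Q :=
      mul_le_mul_of_nonneg_left (by linarith) h5
    have h11 : (n : ℝ) * (8 * Q) ≤ Q * (8 * Q) :=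
      mul_le_mul_of_nonneg_right (by linarith) (by linarith)
    have h12 : (m : ℝ) ≤ 3200 * Q ^ 2 := by nlinarith
    have h13 : (3200 : ℝ) * Q ^ 2 ≤ Q ^ (2 + 11) := NumA_coef hQ 2 11 (by norm_num)
    have h14 : (2 + 11 : ℕ) = 13 := rfl
    rw [h14] at h13
    linarith
  · push Not at hA
    have h6 : (m : ℝ) ≤ 2 * Q ^ 2 := by
      have h7 : (m : ℝ) = (m * σ ^ 2) * (1 / σ) ^ 2 := by
        field_simp
      have h8 : 0 ≤ 1 / σ := by positivity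
      have h9 : (1 / σ) ^ 2 ≤ Q ^ 2 := pow_le_pow_left₀ h8 h2 2
      rw [h7]
      calc (m * σ ^ 2) * (1 / σ) ^ 2 ≤ 2 * (1 / σ) ^ 2 :=
            mul_le_mul_of_nonneg_right hA.le (sq_nonneg _)
        _ ≤ 2 * Q ^ 2 := by linarith
    have h13 : (2 : ℝ) * Q ^ 2 ≤ Q ^ (2 + 11) := NumA_coef hQ 2 11 (by norm_num)
    have h14 : (2 + 11 : ℕ) = 13 := rfl
    rw [h14] at h13
    linarith

end H44SD
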