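import Pool.Agent.H44.SD.ProbDefs

/-!
Project SD (MP_43ee49_co), helper44. The parameters (complete).
-/

namespace H44SD

/-- the base of all bounds -/
noncomputable def QQ (m n : ℕ) (σ : ℝ) : ℝ := n + 1 / σ + Real.log (m + 1) + 2

/-- bound for the entries of the Gaussian matrix -/
noncomputable def Lam (m n : ℕ) : ℝ := 2 * (n + 1) * (1 + Real.log (m + 1))

/-- bound for the `l1` norm of the rows -/
noncomputable def RR (m n : ℕ) (σ : ℝ) : ℝ := n * (1 + σ * Lam m n)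

/-- the macroscopic scale of near tightness -/
noncomputable def rho (m n : ℕ) (σ : ℝ) : ℝ := σ ^ 2 / (2080 * RR m n σ ^ 2)

/-- the number of nearly tight rows -/
noncomputable def qq (m n : ℕ) (σ : ℝ) : ℕ :=
  ⌈n * Real.log ((2 * (4 / σ) * RR m n σ / rho m n σ + 3) * (m + 1))⌉₊

/-- the microscopic scale of near tightness -/
noncomputable def tau (m n : ℕ) (σ : ℝ) : ℝ :=
  1 / (520 * (RR m n σ / σ) ^ 2 * (10400 * (RR m n σ / σ) ^ 3 * (m + 1)) ^ n)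

theorem Lam_ge {m n : ℕ} : 2 ≤ Lam m n := by
  unfold Lam
  have h1 : 0 ≤ Real.log ((m : ℝ) + 1) := Real.log_nonneg (by
    have : (0 : ℝ) ≤ m := Nat.cast_nonneg m
    linarith)
  have h2 : (0 : ℝ) ≤ n := Nat.cast_nonneg n
  nlinarith

theorem RR_ge_one {m n : ℕ} (hn : 1 ≤ n) {σ : ℝ} (hσ : 0 < σ) : 1 ≤ RR m n σ := by
  unfold RR
  have h1 : (1 : ℝ) ≤ n := by exact_mod_cast hn
  have h2 := Lam_ge (m := m) (n := n)
  have h3 : 0 ≤ σ * Lam m n := by positivity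
  nlinarith

theorem RR_ge_sigma {m n : ℕ} (hn : 1 ≤ n) {σ : ℝ} (hσ : 0 < σ) : σ ≤ RR m n σ := by
  unfold RR
  have h1 : (1 : ℝ) ≤ n := by exact_mod_cast hn
  have h2 := Lam_ge (m := m) (n := n)
  have h3 : 2 * σ ≤ σ * Lam m n := by nlinarith
  nlinarith

theorem RR_pos {m n : ℕ} (hn : 1 ≤ n) {σ : ℝ} (hσ : 0 < σ) : 0 < RR m n σ :=
  lt_of_lt_of_le one_pos (RR_ge_one hn hσ)

theorem rho_pos {m n : ℕ} (hn : 1 ≤ n) {σ : ℝ} (hσ : 0 < σ) : 0 < rho m n σ := by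
  unfold rho
  have := RR_pos (m := m) hn hσ
  positivity

theorem tau_pos {m n : ℕ} (hn : 1 ≤ n) {σ : ℝ} (hσ : 0 < σ) : 0 < tau m n σ := by
  unfold tau
  have := RR_pos (m := m) hn hσ
  positivity

end H44SD
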