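import Pool.Agent.H44.SD.VertBasic

/-!
Project SD (MP_43ee49_co), helper44, module PathA: the start of the path of objective functions.

`x` maximises `dot (c_x + (τ / (2 n X)) • z)` on `Vert A`, `c_x = ∑ i ∈ tight A x, A i`, for every
`z ∈ [0,1]^n`. Let `y ≠ x` be a vertex. Some `i ∈ tight A x` is not in `near A τ y`: `near A τ y` has at
most `n` elements (`nd`) and contains `tight A y` (`tight_subset_near`), which has `n` elements
(`vert_card`, `Good.nondeg`), so it equals `tight A y`, and `tight A x ⊆ tight A y` would give `x = y`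
(`vert_eq_of_subset`). So `dot c_x x - dot c_x y = ∑ (1 - dot (A i) y) ≥ τ` (one term `> τ`, the others
`≥ 0`), while `|dot z (y - x)| ≤ (∑ |z k|) * 2 X ≤ 2 n X` (`abs_dot_le`; vertices are in `poly A`, `bd`).
-/

namespace H44SD

open Finset

variable {m n : ℕ} {A : Fin m → Fin n → ℝ}

theorem abs_dot_z_le {X : ℝ} {z : Fin n → ℝ} (hz : ∀ k, 0 ≤ z k ∧ z k ≤ 1) {x y : Fin n → ℝ}
    (hx : ∀ k, |x k| ≤ X) (hy : ∀ k, |y k| ≤ X) : |dot z (y - x)| ≤ 2 * n * X := by
  unfold dot
  have h1 : ∀ k ∈ (univ : Finset (Fin n)), |z k * (y - x) k| ≤ 2 * X := by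
    intro k _
    have ha := abs_le.mp (hx k)
    have hb := abs_le.mp (hy k)
    have hd : |(y - x) k| ≤ 2 * X := by
      rw [Pi.sub_apply, abs_le]
      constructor <;> linarith
    have h0 : 0 ≤ 2 * X := (abs_nonneg _).trans hd
    rw [abs_mul, abs_of_nonneg (hz k).1]
    calc z k * |(y - x) k| ≤ 1 * (2 * X) :=
          mul_le_mul (hz k).2 hd (abs_nonneg _) zero_le_one
      _ = 2 * X := by ring
  calc |∑ k, z k * (y - x) k| ≤ ∑ k, |z k * (y - x) k| := abs_sum_le_sum_abs _ _
    _ ≤ ∑ _k : Fin n, 2 * X := sum_le_sum h1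
    _ = 2 * n * X := by
        rw [sum_const, card_univ, Fintype.card_fin, nsmul_eq_mul]; ring

private lemma PathA_sum_dot (S : Finset (Fin m)) (v : Fin n → ℝ) :
    dot (∑ i ∈ S, A i) v = ∑ i ∈ S, dot (A i) v := by
  simp only [dot, Finset.sum_apply, Finset.sum_mul]
  exact Finset.sum_comm

theorem start_opt {X R ρ τ : ℝ} {q : ℕ} (hG : Good A X R ρ τ q) (hn : 1 ≤ n) (hX : 0 < X)
    (hτ : 0 < τ) {x : Fin n → ℝ} (hx : x ∈ Vert A) {z : Fin n → ℝ}
    (hz : ∀ k, 0 ≤ z k ∧ z k ≤ 1) {y : Fin n → ℝ} (hy : y ∈ Vert A) :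
    dot ((∑ i ∈ tight A x, A i) + (τ / (2 * n * X)) • z) y ≤
      dot ((∑ i ∈ tight A x, A i) + (τ / (2 * n * X)) • z) x := by
  by_cases hxy : y = x
  · rw [hxy]
  have hN : Nondeg A := by
    intro u hu
    refine (card_le_card ?_).trans (hG.nd u hu)
    intro i hi
    rw [mem_tight] at hi
    rw [mem_near, hi]
    linarith
  have hyP : y ∈ poly A := ((mem_vert_iff A y).mp hy).1
  have hxP : x ∈ poly A := ((mem_vert_iff A x).mp hx).1
  have hyP' := mem_poly.mp hyP
  -- a tight row of `x` which is not nearly tight at `y`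
  obtain ⟨i, hi, hi2⟩ : ∃ i ∈ tight A x, i ∉ near A τ y := by
    by_contra hc
    push Not at hc
    have hsub : tight A x ⊆ near A τ y := hc
    have hty : tight A y ⊆ near A τ y := by
      intro i hi
      rw [mem_tight] at hi
      rw [mem_near, hi]
      linarith
    have h1 := vert_card hN hy
    have h2 := hG.nd y hyP
    have heq : tight A y = near A τ y := eq_of_subset_of_card_le hty (by rw [h1]; exact h2)
    rw [← heq] at hsub
    exact hxy (vert_eq_of_subset hx hsub).symm
  rw [mem_near, not_le] at hi2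
  have hsum : dot (∑ i ∈ tight A x, A i) x - dot (∑ i ∈ tight A x, A i) y =
      ∑ k ∈ tight A x, (1 - dot (A k) y) := by
    rw [PathA_sum_dot, PathA_sum_dot, ← sum_sub_distrib]
    apply sum_congr rfl
    intro k hk
    rw [mem_tight] at hk
    rw [hk]
  have hge : τ ≤ ∑ k ∈ tight A x, (1 - dot (A k) y) := by
    have h1 : 1 - dot (A i) y ≤ ∑ k ∈ tight A x, (1 - dot (A k) y) :=
      single_le_sum (f := fun k => 1 - dot (A k) y)
        (fun k _ => by have := hyP' k; linarith) hi
    linarith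
  have hz2 := abs_dot_z_le hz (hG.bd x hxP) (hG.bd y hyP)
  have hz3 := (abs_le.mp hz2).2
  rw [dot_sub] at hz3
  rw [add_dot, add_dot, smul_dot, smul_dot]
  have hn' : (0 : ℝ) < n := by exact_mod_cast hn
  have hc0 : 0 < 2 * (n : ℝ) * X := by positivity
  have h5 : τ / (2 * n * X) * (dot z y - dot z x) ≤ τ := by
    calc τ / (2 * n * X) * (dot z y - dot z x) ≤ τ / (2 * n * X) * (2 * n * X) :=
          mul_le_mul_of_nonneg_left hz3 (by positivity)
      _ = τ := by field_simp
  nlinarith [hsum, hge, h5]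

end H44SD
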