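import Pool.Agent.H44.SD.RelCard
import Pool.Agent.H44.SD.PathA

/-!
Project SD (MP_43ee49_co), helper44, module PathB: from a vertex to the optimum of a good direction.

Let `χ = 2 n X ζ`, `s ν = τ / (2 n X) * (1 + ζ)^ν`, `c_x = ∑ i ∈ tight A x, A i`, `w ν = c_x + s ν • z`.
1. Let `x_ν` be a maximiser of `dot (w ν)` on `Vert A` (finite, nonempty), with `x_0 = x`
   (`start_opt`). For `y ∈ Vert A`, `dot (w (ν+1)) (y - x_ν) = dot (w ν) (y - x_ν) + ζ s_ν dot z (y - x_ν)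
   ≤ ζ s_ν n 2 X = χ s_ν ≤ χ s_{ν+1}` (`abs_dot_z_le`); so both `x_ν` and `x_{ν+1}` are in
   `NearOpt (Vert A) (w (ν+1)) (χ s_{ν+1})`. By `hop` (with `hbad`) their distance is at most `F`.
2. `xs` maximises `dot z` on `Vert A`. For `y ∈ Vert A`: `dot (z + (1 / s_N) • c_x) (y - x_N) ≤ 0`, so
   `dot z (y - x_N) ≤ (1 / s_N) |dot c_x (y - x_N)| ≤ n R 2 X / s_N ≤ χ` since `s_N ≥ R / ζ`, which is
   `hN`. (`c_x` is a sum of `n` rows of `l1` norm `≤ R`.) So `x_N, xs ∈ NearOpt (Vert A) z χ`, and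
   `hop` applies with `hbad0` and `w = z`, `h = χ`.
3. Total: `N + 1` hops (induction on `ν`: `edist x x_ν ≤ ν F`).
-/

namespace H44SD

open Finset

variable {m n : ℕ} {A : Fin m → Fin n → ℝ}

private theorem PathB_bd {X R ρ τ : ℝ} {q : ℕ} (hG : Good A X R ρ τ q) {y : Fin n → ℝ}
    (hy : y ∈ Vert A) : ∀ k, |y k| ≤ X :=
  hG.bd y (extremePoints_subset hy)

private theorem PathB_csum {X R ρ τ : ℝ} {q : ℕ} (hG : Good A X R ρ τ q) (hR : 0 < R)
    (hτ : 0 < τ) {x : Fin n → ℝ} (hx : x ∈ Vert A) :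
    ∑ k, |(∑ l ∈ tight A x, A l) k| ≤ n * R := by
  have h1 : ∀ k, |(∑ l ∈ tight A x, A l) k| ≤ ∑ l ∈ tight A x, |A l k| := by
    intro k
    rw [Finset.sum_apply]
    exact Finset.abs_sum_le_sum_abs _ _
  calc ∑ k, |(∑ l ∈ tight A x, A l) k| ≤ ∑ k, ∑ l ∈ tight A x, |A l k| :=
        Finset.sum_le_sum (fun k _ => h1 k)
    _ = ∑ l ∈ tight A x, ∑ k, |A l k| := Finset.sum_comm
    _ ≤ ∑ l ∈ tight A x, R := Finset.sum_le_sum (fun l _ => hG.row l)
    _ = (tight A x).card * R := by rw [Finset.sum_const, nsmul_eq_mul]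
    _ ≤ n * R := by
        refine mul_le_mul_of_nonneg_right ?_ hR.le
        exact_mod_cast (hG.nondeg hτ.le) x (extremePoints_subset hx)

theorem to_opt {X R ρ τ : ℝ} {q : ℕ} (hG : Good A X R ρ τ q) (hn : 1 ≤ n) (hX : 0 < X)
    (hR : 0 < R) (hρ : 0 < ρ) (hτ : 0 < τ) {ζ : ℝ} (hζ : 0 < ζ) (N : ℕ)
    (hN : 2 * n * X * R / (ζ * τ) ≤ (1 + ζ) ^ N) (K : ℕ) (hK : 8 * X * R / ρ < K) (t : ℕ)
    (ht : K * q < 2 ^ t) {z : Fin n → ℝ} (hz : ∀ k, 0 ≤ z k ∧ z k ≤ 1) (x xs : ↥(Vert A))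
    (hxs : ∀ y ∈ Vert A, dot z y ≤ dot z xs)
    (hbad : ∀ ν : ℕ, 1 ≤ ν → ν ≤ N → ∀ i j, i ≠ j →
      ¬ Bad (Vert A) i j (ρ ^ 2 / (4 * R ^ 2)) (2 * n * X * ζ * (τ / (2 * n * X) * (1 + ζ) ^ ν))
        (fun k => (∑ l ∈ tight A (x : Fin n → ℝ), A l) k + τ / (2 * n * X) * (1 + ζ) ^ ν * z k))
    (hbad0 : ∀ i j, i ≠ j → ¬ Bad (Vert A) i j (ρ ^ 2 / (4 * R ^ 2)) (2 * n * X * ζ) z) :
    (pgraph A).edist x xs ≤ (((N + 1) * (2 ^ t * (n + t).choose n) : ℕ) : ℕ∞) := by
  classical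
  have hnpos : (0 : ℝ) < n := by exact_mod_cast hn
  set c : Fin n → ℝ := ∑ l ∈ tight A (x : Fin n → ℝ), A l with hc
  set s : ℕ → ℝ := fun ν => τ / (2 * n * X) * (1 + ζ) ^ ν with hs
  have hspos : ∀ ν, 0 < s ν := fun ν => by
    simp only [hs]; positivity
  have hssucc : ∀ ν, s (ν + 1) = s ν + ζ * s ν := fun ν => by
    simp only [hs, pow_succ]; ring
  set F : ℕ := 2 ^ t * (n + t).choose n with hF
  have hfin := vert_finite A
  -- maximisers
  have hex : ∀ ν : ℕ, ∃ v : ↥(Vert A), (ν = 0 → v = x) ∧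
      ∀ y ∈ Vert A, dot (c + s ν • z) y ≤ dot (c + s ν • z) (v : Fin n → ℝ) := by
    intro ν
    rcases Nat.eq_zero_or_pos ν with h0 | h0
    · subst h0
      refine ⟨x, fun _ => rfl, fun y hy => ?_⟩
      have h := start_opt hG hn hX hτ x.2 hz hy
      have hs0 : s 0 = τ / (2 * n * X) := by simp [hs]
      rw [hs0]
      exact h
    · obtain ⟨v, hv, hvm⟩ := Set.exists_max_image (Vert A) (fun y => dot (c + s ν • z) y) hfin
        ⟨x, x.2⟩
      exact ⟨⟨v, hv⟩, fun h => absurd h (by omega), fun y hy => hvm y hy⟩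
  choose xv hx0 hxm using hex
  have hdiff : ∀ (y v : Fin n → ℝ), y ∈ Vert A → v ∈ Vert A → |dot z (y - v)| ≤ 2 * n * X :=
    fun y v hy hv => abs_dot_z_le hz (PathB_bd hG hv) (PathB_bd hG hy)
  -- one hop
  have hhop : ∀ ν, ν + 1 ≤ N → (pgraph A).edist (xv ν) (xv (ν + 1)) ≤ (F : ℕ∞) := by
    intro ν hν
    have hb := hbad (ν + 1) (by omega) hν
    have hpos : 0 ≤ 2 * n * X * ζ * s (ν + 1) := by
      have := (hspos (ν + 1)).le
      positivity
    refine hop hG hX hR hρ hτ.le (c + s (ν + 1) • z) (2 * n * X * ζ * s (ν + 1)) ?_ K hK t ht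
      (xv ν) (xv (ν + 1)) ?_ ?_
    · intro i j hij
      exact hb i j hij
    · refine ⟨(xv ν).2, fun y hy => ?_⟩
      have h1 := hxm ν y hy
      have h2 := hdiff y (xv ν) hy (xv ν).2
      rw [add_dot, smul_dot, add_dot, smul_dot] at h1 ⊢
      rw [dot_sub] at h2
      have h3 := (abs_le.mp h2).2
      rw [hssucc]
      have hsν := hspos ν
      have h4 : ζ * s ν * (dot z y - dot z (xv ν : Fin n → ℝ)) ≤ ζ * s ν * (2 * n * X) :=
        mul_le_mul_of_nonneg_left h3 (by positivity)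
      have h5 : 0 ≤ 2 * n * X * ζ * (ζ * s ν) := by positivity
      nlinarith
    · refine ⟨(xv (ν + 1)).2, fun y hy => ?_⟩
      have h1 := hxm (ν + 1) y hy
      linarith
  -- induction
  have hind : ∀ ν, ν ≤ N → (pgraph A).edist x (xv ν) ≤ ((ν * F : ℕ) : ℕ∞) := by
    intro ν
    induction ν with
    | zero =>
      intro _
      rw [hx0 0 rfl]
      simp
    | succ ν ih =>
      intro hν
      calc (pgraph A).edist x (xv (ν + 1)) ≤
          (pgraph A).edist x (xv ν) + (pgraph A).edist (xv ν) (xv (ν + 1)) :=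
            SimpleGraph.edist_triangle
        _ ≤ ((ν * F : ℕ) : ℕ∞) + (F : ℕ∞) := add_le_add (ih (by omega)) (hhop ν hν)
        _ = (((ν + 1) * F : ℕ) : ℕ∞) := by rw [Nat.succ_mul]; push_cast; rfl
  -- last hop
  have hlast : (pgraph A).edist (xv N) xs ≤ (F : ℕ∞) := by
    refine hop hG hX hR hρ hτ.le z (2 * n * X * ζ) hbad0 K hK t ht (xv N) xs ?_ ?_
    · refine ⟨(xv N).2, fun y hy => ?_⟩
      have h1 := hxm N y hy
      rw [add_dot, smul_dot, add_dot, smul_dot] at h1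
      have hsN := hspos N
      have hcs := PathB_csum hG hR hτ x.2
      have h2 : |dot c (y - (xv N : Fin n → ℝ))| ≤ (∑ k, |c k|) * (2 * X) := by
        refine abs_dot_le c _ (fun j => ?_)
        have ha := PathB_bd hG hy j
        have hb := PathB_bd hG (xv N).2 j
        rw [abs_le] at ha hb ⊢
        simp only [Pi.sub_apply]
        constructor <;> linarith [ha.1, ha.2, hb.1, hb.2]
      have h3 : |dot c (y - (xv N : Fin n → ℝ))| ≤ n * R * (2 * X) :=
        le_trans h2 (mul_le_mul_of_nonneg_right hcs (by positivity))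
      rw [dot_sub] at h3
      have h4 := (abs_le.mp h3).1
      have h5 : R / ζ ≤ s N := by
        simp only [hs]
        have e1 : R / ζ = τ / (2 * n * X) * (2 * n * X * R / (ζ * τ)) := by
          field_simp
        rw [e1]
        exact mul_le_mul_of_nonneg_left hN (by positivity)
      have h6 : R ≤ s N * ζ := by
        rw [div_le_iff₀ hζ] at h5
        exact h5
      have h7 : s N * (dot z y - dot z (xv N : Fin n → ℝ)) ≤ s N * (2 * n * X * ζ) := by
        have h8 : R * (2 * n * X) ≤ s N * ζ * (2 * n * X) :=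
          mul_le_mul_of_nonneg_right h6 (by positivity)
        nlinarith
      have h9 := le_of_mul_le_mul_left h7 hsN
      linarith
    · refine ⟨xs.2, fun y hy => ?_⟩
      have h1 := hxs y hy
      have : 0 ≤ 2 * n * X * ζ := by positivity
      linarith
  calc (pgraph A).edist x xs ≤ (pgraph A).edist x (xv N) + (pgraph A).edist (xv N) xs :=
        SimpleGraph.edist_triangle
    _ ≤ ((N * F : ℕ) : ℕ∞) + (F : ℕ∞) := add_le_add (hind N le_rfl) hlast
    _ = (((N + 1) * F : ℕ) : ℕ∞) := by rw [Nat.succ_mul]; push_cast; rfl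

end H44SD
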