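import Pool.Agent.H44.SD.VertBasic

/-!
Project SD (MP_43ee49_co), helper44, module Pivot: edges and one step of the simplex method.

* `edge_of_inter`. Let `d` be the direction of `exists_dir` for `i`. For `z ∈ poly A` with
  `dot (A j) z = 1` for all `j ∈ tight A x`, `j ≠ i`: `z - x = γ d` with `γ = 1 - dot (A i) z ≥ 0`
  (the difference is orthogonal to all tight rows, `mem_vert_iff`). In particular `y = x + β d`, `β > 0`
  (`β = 0` would give `y = x`). There is `k ∈ tight A y` which is not tight at `x` (otherwise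
  `y = x` by `vert_eq_of_subset`), so `dot (A k) d = (1 - dot (A k) x) / β > 0`, and
  `dot (A k) z ≤ 1` gives `γ ≤ β`: `z` is in the segment. Finally if a point of the segment is in the open
  segment of `z1, z2 ∈ poly A` then `z1, z2` satisfy `dot (A j) z = 1` for those `j`.
* `pivot`. Write `w = ∑ c i • A i` over the tight rows of `x` (`exists_coef`). If `c i ≥ 0` for all
  tight `i ∉ S` then `dot w y = ∑ c i (dot (A i) y) ≤ ∑ c i = dot w x` since for `i ∈ S` the value is `1`:
  contradiction. So there is `i ∈ tight A x`, `i ∉ S`, `c i < 0`. Let `d` be its direction: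
  `dot w d = - c i > 0`. The ray `x + t d` stays in the face `S` (`dot (A j) d = 0` for `j ∈ S`) and
  `dot w` is unbounded on it, so it leaves `poly A`: the set `J` of rows `j` with `dot (A j) d > 0` is
  nonempty (these rows are not tight at `x`). Let `t = min_{j ∈ J} (1 - dot (A j) x) / dot (A j) d > 0`,
  attained at `j0`, `x' = x + t d ∈ poly A`. Rows tight at `x'`: all `j ∈ tight A x`, `j ≠ i`, and `j0`.
  `x'` is a vertex by `mem_vert_iff`: if `e` is orthogonal to the rows tight at `x'` then it is
  orthogonal to the tight rows of `x` other than `i`, so `e` is a multiple of `d` (`e = - (dot (A i) e) d`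
  up to sign), and `dot (A j0) e = 0` with `dot (A j0) d > 0` gives `e = 0`.
-/

namespace H44SD

open Finset

variable {m n : ℕ} {A : Fin m → Fin n → ℝ}

private theorem Pivot_ray {x : Fin n → ℝ} (hx : x ∈ Vert A) {i : Fin m} {d : Fin n → ℝ}
    (hd : dot (A i) d = -1) (hd' : ∀ j ∈ tight A x, j ≠ i → dot (A j) d = 0) {z : Fin n → ℝ}
    (hz : ∀ j ∈ tight A x, j ≠ i → dot (A j) z = 1) (hi : i ∈ tight A x) :
    z = x + (1 - dot (A i) z) • d := by
  have h0 := ((mem_vert_iff A x).1 hx).2 (z - x - (1 - dot (A i) z) • d) ?_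
  · have h1 : z - x = (1 - dot (A i) z) • d := by
      rwa [sub_eq_zero] at h0
    rw [← h1]
    abel
  · intro j hj
    rw [dot_sub, dot_sub, dot_smul, mem_tight.1 hj]
    by_cases hji : j = i
    · rw [hji, hd]
      ring
    · rw [hd' j hj hji, hz j hj hji]
      ring

theorem edge_of_inter (hN : Nondeg A) {x y : Fin n → ℝ} (hx : x ∈ Vert A) (hy : y ∈ Vert A)
    (hne : x ≠ y) {i : Fin m} (hi : i ∈ tight A x)
    (h : ∀ j ∈ tight A x, j ≠ i → j ∈ tight A y) : IsExtreme ℝ (poly A) (segment ℝ x y) := by
  obtain ⟨d, hd, hd'⟩ := exists_dir hN hx hi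
  have hxP : x ∈ poly A := ((mem_vert_iff A x).1 hx).1
  have hyP : y ∈ poly A := ((mem_vert_iff A y).1 hy).1
  set β := 1 - dot (A i) y with hβ
  have hyr : y = x + β • d := Pivot_ray hx hd hd' (fun j hj hji => mem_tight.1 (h j hj hji)) hi
  have hβ0 : 0 ≤ β := by
    have := mem_poly.1 hyP i
    linarith
  have hβ1 : 0 < β := by
    rcases hβ0.lt_or_eq with h1 | h1
    · exact h1
    · exfalso
      apply hne
      rw [hyr, ← h1]
      simp
  obtain ⟨k, hk, hkx⟩ : ∃ k ∈ tight A y, k ∉ tight A x := by
    by_contra hcon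
    push Not at hcon
    exact hne (vert_eq_of_subset hy hcon).symm
  have hky : dot (A k) x + β * dot (A k) d = 1 := by
    have := mem_tight.1 hk
    rw [hyr, dot_add, dot_smul] at this
    exact this
  have hkx1 : dot (A k) x < 1 := by
    rcases (mem_poly.1 hxP k).lt_or_eq with h1 | h1
    · exact h1
    · exact absurd (mem_tight.2 h1) hkx
  have hkd : 0 < dot (A k) d := by
    by_contra hcon
    push Not at hcon
    nlinarith
  -- points of the polyhedron on the line are in the segment
  have hseg : ∀ z ∈ poly A, (∀ j ∈ tight A x, j ≠ i → dot (A j) z = 1) → z ∈ segment ℝ x y := by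
    intro z hz hz1
    have hzr := Pivot_ray hx hd hd' hz1 hi
    have hg0 : 0 ≤ 1 - dot (A i) z := by
      have := mem_poly.1 hz i
      linarith
    generalize 1 - dot (A i) z = γ at hzr hg0
    have hgb : γ ≤ β := by
      have h1 := mem_poly.1 hz k
      rw [hzr, dot_add, dot_smul] at h1
      by_contra hcon
      push Not at hcon
      nlinarith
    rw [segment_eq_image]
    refine ⟨γ / β, ⟨by positivity, (div_le_one hβ1).2 hgb⟩, ?_⟩
    have hb : γ / β * β = γ := div_mul_cancel₀ _ hβ1.ne'
    rw [hyr, hzr]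
    change (1 - γ / β) • x + (γ / β) • (x + β • d) = x + γ • d
    rw [smul_add, smul_smul, hb, sub_smul, one_smul]
    abel
  have hconv : Convex ℝ (poly A) := by
    intro u hu v hv a b ha hb hab
    rw [mem_poly] at hu hv ⊢
    intro j
    rw [dot_add, dot_smul, dot_smul]
    have h1 := hu j
    have h2 := hv j
    nlinarith [mul_le_mul_of_nonneg_left h1 ha, mul_le_mul_of_nonneg_left h2 hb]
  refine ⟨hconv.segment_subset hxP hyP, ?_⟩
  intro z1 hz1 z2 hz2 z hz hzz
  refine hseg z1 hz1 ?_
  intro j hj hji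
  obtain ⟨a, b, ha, hb, hab, rfl⟩ := hzz
  obtain ⟨a', b', ha', hb', hab', he⟩ := hz
  have h1 : dot (A j) (a • z1 + b • z2) = 1 := by
    rw [← he, dot_add, dot_smul, dot_smul, mem_tight.1 hj, mem_tight.1 (h j hj hji)]
    linarith
  rw [dot_add, dot_smul, dot_smul] at h1
  have h2 := mem_poly.1 hz1 j
  have h3 := mem_poly.1 hz2 j
  have h4 : a * (1 - dot (A j) z1) + b * (1 - dot (A j) z2) = 0 := by
    linear_combination hab - h1
  have h5 : 0 ≤ b * (1 - dot (A j) z2) := mul_nonneg hb.le (by linarith)
  have h6 : 0 ≤ a * (1 - dot (A j) z1) := mul_nonneg ha.le (by linarith)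
  have h7 : a * (1 - dot (A j) z1) = 0 := by linarith
  rcases mul_eq_zero.1 h7 with h8 | h8
  · exact absurd h8 ha.ne'
  · linarith

theorem pivot (hN : Nondeg A) {x : Fin n → ℝ} (hx : x ∈ Vert A) (S : Finset (Fin m))
    (hS : S ⊆ tight A x) (w : Fin n → ℝ) (b : ℝ)
    (hb : ∀ y ∈ poly A, S ⊆ tight A y → dot w y ≤ b) {y : Fin n → ℝ} (hy : y ∈ poly A)
    (hSy : S ⊆ tight A y) (hlt : dot w x < dot w y) :
    ∃ x' ∈ Vert A, S ⊆ tight A x' ∧ dot w x < dot w x' ∧
      ∃ i ∈ tight A x, ∀ j ∈ tight A x, j ≠ i → j ∈ tight A x' := by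
  classical
  have hxP : x ∈ poly A := ((mem_vert_iff A x).1 hx).1
  obtain ⟨c, hc⟩ := exists_coef hN hx w
  have hwdot : ∀ z, dot w z = ∑ i ∈ tight A x, c i * dot (A i) z := by
    intro z
    rw [hc, sum_dot]
    exact Finset.sum_congr rfl (fun i _ => smul_dot _ _ _)
  -- a row with a negative coefficient
  obtain ⟨i, hi, hiS, hci⟩ : ∃ i ∈ tight A x, i ∉ S ∧ c i < 0 := by
    by_contra hcon
    push Not at hcon
    have h1 : dot w y ≤ dot w x := by
      rw [hwdot, hwdot]
      refine Finset.sum_le_sum (fun j hj => ?_)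
      by_cases hjS : j ∈ S
      · rw [mem_tight.1 (hSy hjS), mem_tight.1 hj]
      · have h2 := hcon j hj hjS
        rw [mem_tight.1 hj]
        exact mul_le_mul_of_nonneg_left (mem_poly.1 hy j) h2
    linarith
  obtain ⟨d, hd, hd'⟩ := exists_dir hN hx hi
  have hwd : dot w d = -c i := by
    rw [hwdot, Finset.sum_eq_single_of_mem i hi]
    · rw [hd]
      ring
    · intro j hj hji
      rw [hd' j hj hji]
      ring
  have hwd0 : 0 < dot w d := by
    rw [hwd]
    linarith
  have hval : ∀ t : ℝ, ∀ j ∈ tight A x, j ≠ i → dot (A j) (x + t • d) = 1 := by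
    intro t j hj hji
    rw [dot_add, dot_smul, hd' j hj hji, mem_tight.1 hj]
    ring
  have hSt : ∀ t : ℝ, S ⊆ tight A (x + t • d) := by
    intro t j hj
    rw [mem_tight]
    refine hval t j (hS hj) ?_
    rintro rfl
    exact hiS hj
  set J : Finset (Fin m) := univ.filter (fun j => 0 < dot (A j) d) with hJdef
  have hJne : J.Nonempty := by
    by_contra hcon
    rw [Finset.not_nonempty_iff_eq_empty] at hcon
    have hle : ∀ j, dot (A j) d ≤ 0 := by
      intro j
      by_contra h1
      push Not at h1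
      have : j ∈ J := by simp [hJdef, h1]
      rw [hcon] at this
      simp at this
    have hbx : dot w x ≤ b := hb x hxP hS
    set t : ℝ := (b - dot w x + 1) / dot w d with ht
    have ht0 : 0 ≤ t := div_nonneg (by linarith) hwd0.le
    have hmem : x + t • d ∈ poly A := by
      rw [mem_poly]
      intro j
      rw [dot_add, dot_smul]
      have h1 := mem_poly.1 hxP j
      have h2 := mul_nonneg ht0 (neg_nonneg.2 (hle j))
      linarith
    have h3 := hb _ hmem (hSt t)
    rw [dot_add, dot_smul, ht, div_mul_cancel₀ _ hwd0.ne'] at h3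
    linarith
  have hJx : ∀ j ∈ J, dot (A j) x < 1 := by
    intro j hj
    rw [hJdef, Finset.mem_filter] at hj
    rcases (mem_poly.1 hxP j).lt_or_eq with h1 | h1
    · exact h1
    · exfalso
      have h2 := hj.2
      by_cases hji : j = i
      · rw [hji, hd] at h2
        linarith
      · rw [hd' j (mem_tight.2 h1) hji] at h2
        exact lt_irrefl _ h2
  obtain ⟨j0, hj0, hmin⟩ := Finset.exists_min_image J
    (fun j => (1 - dot (A j) x) / dot (A j) d) hJne
  have hj0d : 0 < dot (A j0) d := by
    rw [hJdef, Finset.mem_filter] at hj0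
    exact hj0.2
  set t : ℝ := (1 - dot (A j0) x) / dot (A j0) d with ht
  have ht0 : 0 < t := div_pos (by linarith [hJx j0 hj0]) hj0d
  have htj0 : t * dot (A j0) d = 1 - dot (A j0) x := div_mul_cancel₀ _ hj0d.ne'
  have hx'P : x + t • d ∈ poly A := by
    rw [mem_poly]
    intro j
    rw [dot_add, dot_smul]
    by_cases hjJ : j ∈ J
    · have h1 := hmin j hjJ
      have h2 : 0 < dot (A j) d := by
        rw [hJdef, Finset.mem_filter] at hjJ
        exact hjJ.2
      have h3 : t * dot (A j) d ≤ (1 - dot (A j) x) / dot (A j) d * dot (A j) d :=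
        mul_le_mul_of_nonneg_right h1 h2.le
      rw [div_mul_cancel₀ _ h2.ne'] at h3
      linarith
    · have h2 : dot (A j) d ≤ 0 := by
        by_contra h1
        push Not at h1
        exact hjJ (by simp [hJdef, h1])
      have h1 := mem_poly.1 hxP j
      have h3 := mul_nonneg ht0.le (neg_nonneg.2 h2)
      linarith
  refine ⟨x + t • d, ?_, hSt t, ?_, i, hi, ?_⟩
  · rw [mem_vert_iff]
    refine ⟨hx'P, ?_⟩
    intro e he
    have h1 : e + (dot (A i) e) • d = 0 := by
      refine ((mem_vert_iff A x).1 hx).2 _ ?_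
      intro j hj
      rw [dot_add, dot_smul]
      by_cases hji : j = i
      · rw [hji, hd]
        ring
      · rw [hd' j hj hji, he j (mem_tight.2 (hval t j hj hji))]
        ring
    have h2 : dot (A j0) e = 0 := by
      refine he j0 ?_
      rw [mem_tight, dot_add, dot_smul, htj0]
      ring
    have h3 : dot (A j0) (e + (dot (A i) e) • d) = 0 := by
      rw [h1, dot_zero]
    rw [dot_add, dot_smul, h2, zero_add] at h3
    rcases mul_eq_zero.1 h3 with h4 | h4
    · rw [h4, zero_smul, add_zero] at h1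
      exact h1
    · exact absurd h4 hj0d.ne'
  · rw [dot_add, dot_smul]
    have := mul_pos ht0 hwd0
    linarith
  · intro j hj hji
    exact mem_tight.2 (hval t j hj hji)

end H44SD
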