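import Pool.Agent.H44.SD.Defs

/-!
Project SD (MP_43ee49_co), helper44. Probability definitions (complete).
-/

namespace H44SD

open MeasureTheory ProbabilityTheory

/-- the standard Gaussian measure on `Fin n → ℝ` -/
noncomputable def rowm (n : ℕ) : Measure (Fin n → ℝ) :=
  Measure.pi fun _ : Fin n => gaussianReal 0 1

/-- the law of a matrix with independent standard Gaussian entries -/
noncomputable def gm (m n : ℕ) : Measure (Fin m → Fin n → ℝ) :=
  Measure.pi fun _ : Fin m => Measure.pi fun _ : Fin n => gaussianReal 0 1

/-- the perturbed matrix -/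
def pert {m n : ℕ} (Abar : Fin m → Fin n → ℝ) (σ : ℝ) (G : Fin m → Fin n → ℝ) :
    Fin m → Fin n → ℝ := fun i j => Abar i j + σ * G i j

instance (n : ℕ) : IsProbabilityMeasure (rowm n) := by
  unfold rowm; infer_instance

instance (m n : ℕ) : IsProbabilityMeasure (gm m n) := by
  unfold gm; infer_instance

theorem gm_eq (m n : ℕ) : gm m n = Measure.pi fun _ : Fin m => rowm n := rfl

end H44SD
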