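import Pool.Agent.H44.SD.Thin
import Pool.Agent.H44.SD.KKDet

/-!
Project SD (MP_43ee49_co), helper44, module RelCard: few rows are relevant, and the length of one hop.

* `rel_card`: `Good A X R ρ τ q`, `w` is not bad for any `i ≠ j` with `V = Vert A`, height `h` and
  `α = ρ^2 / (4 R^2)`. Then the rows tight at the points of `NearOpt (Vert A) w h` are in a set `U` with
  at most `K q` elements, if `8 X R / ρ < K`. Proof: `thin_cover` with `N = NearOpt (Vert A) w h`
  (finite by `vert_finite`; bounded by `bd`, `Vert A ⊆ poly A`), `δ = ρ / R`, `α = δ^2 / 4` gives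
  `f`. For each value `v` of `f` attained on `N` choose a representative `y_v ∈ N`, and let `U` be the
  union of `near A ρ y_v` (`≤ q` elements each, `nt`). If `i ∈ tight A z`, `z ∈ N`, `f z = v`, then
  `dot (A i) y_v = 1 - dot (A i) (z - y_v) ≥ 1 - R δ = 1 - ρ` (`abs_dot_le`), so `i ∈ U`.
* `hop`: for two vertices in `NearOpt (Vert A) w h` the distance in `pgraph A` is at most
  `2 ^ t * (n + t).choose n` if `K * q < 2 ^ t`. Proof: let `M` be the maximum of `dot w` on `Vert A`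
  (finite, nonempty) and `c = M - h`; for a vertex `z`, `c ≤ dot w z` iff `z ∈ NearOpt (Vert A) w h`.
  Use `super_edist` with `U` from `rel_card`.
-/

namespace H44SD

open Finset

variable {m n : ℕ} {A : Fin m → Fin n → ℝ}

theorem rel_card {X R ρ τ : ℝ} {q : ℕ} (hG : Good A X R ρ τ q) (hX : 0 < X) (hR : 0 < R)
    (hρ : 0 < ρ) (w : Fin n → ℝ) (h : ℝ)
    (hnb : ∀ i j, i ≠ j → ¬ Bad (Vert A) i j (ρ ^ 2 / (4 * R ^ 2)) h w) (K : ℕ)
    (hK : 8 * X * R / ρ < K) :
    ∃ U : Finset (Fin m), U.card ≤ K * q ∧ ∀ z ∈ NearOpt (Vert A) w h, tight A z ⊆ U := by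
  classical
  set N := NearOpt (Vert A) w h with hN
  have hfin : N.Finite := (vert_finite A).subset fun x hx => hx.1
  have hVp : ∀ x ∈ Vert A, x ∈ poly A := fun x hx => hx.1
  have hδ : 0 < ρ / R := by positivity
  obtain ⟨f, hf⟩ := thin_cover N hfin (X := X) (α := ρ ^ 2 / (4 * R ^ 2)) (δ := ρ / R)
    (fun x hx k => hG.bd x (hVp x hx.1) k) hX hδ (by
      apply le_of_eq
      field_simp)
    (fun i j hij x hx => by
      by_contra hcon
      exact hnb i j hij ⟨x, hx, not_lt.1 hcon⟩) K (by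
      have h1 : 8 * X / (ρ / R) = 8 * X * R / ρ := by
        field_simp
      rw [h1]
      exact hK)
  have hch : ∀ v : Fin K, ∃ y : Fin n → ℝ, (∃ z ∈ N, f z = v) → y ∈ N ∧ f y = v := by
    intro v
    by_cases hv : ∃ z ∈ N, f z = v
    · obtain ⟨z, hz, hzv⟩ := hv
      exact ⟨z, fun _ => ⟨hz, hzv⟩⟩
    · exact ⟨0, fun h' => absurd h' hv⟩
  choose y hy using hch
  refine ⟨((univ : Finset (Fin K)).filter fun v => ∃ z ∈ N, f z = v).biUnion
    fun v => near A ρ (y v), ?_, ?_⟩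
  · calc _ ≤ ((univ : Finset (Fin K)).filter fun v => ∃ z ∈ N, f z = v).card * q := by
          refine Finset.card_biUnion_le_card_mul _ _ _ fun v hv => ?_
          exact hG.nt _ (hVp _ (hy v (mem_filter.1 hv).2).1.1)
      _ ≤ K * q := by
          refine Nat.mul_le_mul_right q ?_
          calc _ ≤ (univ : Finset (Fin K)).card := card_filter_le _ _
            _ = K := by simp
  · intro z hz i hi
    have hv : ∃ z' ∈ N, f z' = f z := ⟨z, hz, rfl⟩
    obtain ⟨h1, h2⟩ := hy (f z) hv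
    rw [mem_biUnion]
    refine ⟨f z, mem_filter.2 ⟨mem_univ _, hv⟩, ?_⟩
    rw [mem_near]
    rw [mem_tight] at hi
    have h3 := hf z hz (y (f z)) h1 h2.symm
    have h4 := abs_dot_le (A i) (z - y (f z)) (X := ρ / R) (fun k => h3 k)
    have h5 : (∑ j, |A i j|) * (ρ / R) ≤ R * (ρ / R) :=
      mul_le_mul_of_nonneg_right (hG.row i) hδ.le
    have h6 : R * (ρ / R) = ρ := by
      field_simp
    rw [dot_sub, hi] at h4
    have h7 := (abs_le.1 h4).2
    linarith

theorem hop {X R ρ τ : ℝ} {q : ℕ} (hG : Good A X R ρ τ q) (hX : 0 < X) (hR : 0 < R)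
    (hρ : 0 < ρ) (hτ : 0 ≤ τ) (w : Fin n → ℝ) (h : ℝ)
    (hnb : ∀ i j, i ≠ j → ¬ Bad (Vert A) i j (ρ ^ 2 / (4 * R ^ 2)) h w) (K : ℕ)
    (hK : 8 * X * R / ρ < K) (t : ℕ) (ht : K * q < 2 ^ t) (x y : ↥(Vert A))
    (hx : (x : Fin n → ℝ) ∈ NearOpt (Vert A) w h) (hy : (y : Fin n → ℝ) ∈ NearOpt (Vert A) w h) :
    (pgraph A).edist x y ≤ ((2 ^ t * (n + t).choose n : ℕ) : ℕ∞) := by
  classical
  obtain ⟨U, hU, hU2⟩ := rel_card hG hX hR hρ w h hnb K hK
  obtain ⟨z0, hz0, hmax⟩ := (vert_finite A).toFinset.exists_max_image (fun z => dot w z)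
    ⟨(x : Fin n → ℝ), by simp⟩
  have hz0' : z0 ∈ Vert A := by simpa using hz0
  have hmax' : ∀ z ∈ Vert A, dot w z ≤ dot w z0 := fun z hz => hmax z (by simpa using hz)
  refine super_edist (hG.nondeg hτ) X hG.bd w (dot w z0 - h) U t ?_ (lt_of_le_of_lt hU ht) x y ?_ ?_
  · intro z hz hc
    refine hU2 z ⟨hz, fun y' hy' => ?_⟩
    linarith [hmax' y' hy']
  · linarith [hx.2 z0 hz0']
  · linarith [hy.2 z0 hz0']

end H44SD
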