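import Pool.Agent.H44.SD.ProbDefs

/-!
Project SD (MP_43ee49_co), helper44, module RowLaw: a linear form of a standard Gaussian vector.

Under `rowm n` (product of `gaussianReal 0 1`) the linear form `g ↦ ∑ g k * x k` has law
`gaussianReal 0 (∑ x k ^ 2)`, so `(∑ g k * x k) / r` has law `gaussianReal 0 1` when
`∑ x k ^ 2 = r ^ 2`, `r > 0`. Proofs: by characteristic functions / moment generating functions, or by
independence of the coordinates under `Measure.pi` (`iIndepFun_pi`) and
`gaussianReal_add_gaussianReal_of_indepFun` with induction over a finset, or with the Mathlib theory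
of Gaussian measures on finite-dimensional spaces (`HasGaussianLaw`, `IsGaussian`, `Measure.pi`).
-/

namespace H44SD

open MeasureTheory ProbabilityTheory

private theorem RowLaw_coord {n : ℕ} (c : Fin n → ℝ) (k : Fin n) (t : ℝ) :
    charFun ((rowm n).map (fun g => g k * c k)) t = Complex.exp (-((c k ^ 2 * t ^ 2 / 2 : ℝ) : ℂ)) := by
  have hmul : Measurable (fun y : ℝ => y * c k) := measurable_id.mul_const _
  have h1 : (rowm n).map (fun g => g k * c k) =
      gaussianReal 0 (NNReal.mk (c k ^ 2) (sq_nonneg _)) := by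
    have h2 : (fun g : Fin n → ℝ => g k * c k) = (fun y : ℝ => y * c k) ∘ (Function.eval k) := rfl
    rw [h2, ← Measure.map_map hmul (measurable_pi_apply k)]
    have h3 : (rowm n).map (Function.eval k) = gaussianReal 0 1 := by
      unfold rowm
      exact (measurePreserving_eval (fun _ : Fin n => gaussianReal 0 1) k).map_eq
    rw [h3]
    have h4 := gaussianReal_map_mul_const (μ := 0) (v := 1) (c k)
    rw [mul_zero, mul_one] at h4
    exact h4
  rw [h1, charFun_gaussianReal]
  congr 1
  push_cast
  ring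

private theorem RowLaw_map {n : ℕ} (c : Fin n → ℝ) (hc : ∑ k, c k ^ 2 = 1) :
    (rowm n).map (fun g => ∑ k, g k * c k) = gaussianReal 0 1 := by
  have hm : ∀ k : Fin n, Measurable (fun g : Fin n → ℝ => g k * c k) := fun k =>
    (measurable_pi_apply k).mul_const _
  have hi : iIndepFun (fun (k : Fin n) (g : Fin n → ℝ) => g k * c k) (rowm n) := by
    unfold rowm
    exact iIndepFun_pi (X := fun (k : Fin n) (y : ℝ) => y * c k)
      (fun k => (measurable_id.mul_const _).aemeasurable)
  have hmm : Measurable (fun g : Fin n → ℝ => ∑ k, g k * c k) :=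
    Finset.measurable_sum _ (fun k _ => hm k)
  have : IsProbabilityMeasure ((rowm n).map (fun g => ∑ k, g k * c k)) :=
    Measure.isProbabilityMeasure_map hmm.aemeasurable
  apply Measure.ext_of_charFun
  have h5 := hi.charFun_map_fun_sum_eq_prod (fun k => (hm k).aemeasurable)
  rw [h5]
  funext t
  rw [Finset.prod_apply, charFun_gaussianReal]
  simp_rw [RowLaw_coord]
  rw [← Complex.exp_sum]
  congr 1
  have h6 : ∑ k, -((c k ^ 2 * t ^ 2 / 2 : ℝ) : ℂ) = -(((∑ k, c k ^ 2) * t ^ 2 / 2 : ℝ) : ℂ) := by
    rw [Finset.sum_mul, Finset.sum_div]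
    push_cast
    rw [Finset.sum_neg_distrib]
  rw [h6, hc]
  push_cast
  simp

theorem row_law {n : ℕ} (x : Fin n → ℝ) (r : ℝ) (hr : 0 < r) (hx : ∑ k, x k ^ 2 = r ^ 2)
    {S : Set ℝ} (hS : MeasurableSet S) :
    rowm n {g | (∑ k, g k * x k) / r ∈ S} = gaussianReal 0 1 S := by
  have hc : ∑ k, (x k / r) ^ 2 = 1 := by
    simp_rw [div_pow]
    rw [← Finset.sum_div, hx]
    exact div_self (pow_ne_zero 2 hr.ne')
  have hmm : Measurable (fun g : Fin n → ℝ => ∑ k, g k * (x k / r)) :=
    Finset.measurable_sum _ (fun k _ => (measurable_pi_apply k).mul_const _)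
  rw [← RowLaw_map (fun k => x k / r) hc, Measure.map_apply hmm hS]
  congr 1
  ext g
  simp only [Set.mem_ofPred_eq, Set.mem_preimage]
  rw [Finset.sum_div]
  simp_rw [mul_div_assoc]

end H44SD
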