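import Pool.Agent.H44.SD.GaussStrip
import Pool.Agent.H44.SD.RowLaw

/-!
Project SD (MP_43ee49_co), helper44, module RowCmp: comparison for one row.

`row_cmp`: `r = √(∑ x k ^ 2) ≥ 1 / (2 R)`, `s = σ r`, `μ = ∑ a k * x k`, `|μ| ≤ r` (Cauchy-Schwarz),
`∑ (a k + σ g k) x k = μ + s N` with `N = (∑ g k * x k) / r` standard Gaussian (`row_law`). With
`b = (1 + 2ρ - μ) / s`, `δ = 4ρ / s`: the first event is `N ∈ Icc (b - δ) b`, the second one is `N ∈ Ioi b`.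
`δ ≤ 8 ρ R / σ`, `b ≤ (3/2 + r) / (σ r) ≤ 3 R / σ + 1 / σ ≤ 4 R / σ`, `max 1 b ≤ 4 R / σ` (as `σ ≤ R`),
`δ b ≤ 32 ρ R² / σ² ≤ 1`; `gauss_strip`: `13 δ max 1 b ≤ 416 ρ R² / σ² ≤ 520 ρ R² / σ²`.
`row_low`: if `∑ a k ^ 2 ≤ σ ^ 2` and `9/16 ≤ ∑ y k ^ 2` then
`P(∑ (a k + σ g k) y k ≤ σ / 2) ≤ P(N ≤ 2) ≤ 199/200`: with `r = √(∑ y k ^ 2) ≥ 3/4`,
`∑ a k y k ≥ - σ r`, so `- σ r + σ r N ≤ σ / 2`, `N ≤ 1 + 1 / (2 r) ≤ 2`.
-/

namespace H44SD

open MeasureTheory ProbabilityTheory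

private theorem RowCmp_expand {n : ℕ} (a x g : Fin n → ℝ) (σ r : ℝ) (hr : 0 < r) :
    ∑ k, (a k + σ * g k) * x k = ∑ k, a k * x k + σ * r * ((∑ k, g k * x k) / r) := by
  have h1 : ∑ k, (a k + σ * g k) * x k = ∑ k, a k * x k + σ * ∑ k, g k * x k := by
    rw [Finset.mul_sum, ← Finset.sum_add_distrib]
    refine Finset.sum_congr rfl fun k _ => ?_
    ring
  rw [h1]
  field_simp

private theorem RowCmp_cs {n : ℕ} (a x : Fin n → ℝ) {c r : ℝ} (hc : 0 ≤ c) (hr : 0 < r)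
    (ha : ∑ k, a k ^ 2 ≤ c ^ 2) (hx : ∑ k, x k ^ 2 = r ^ 2) : |∑ k, a k * x k| ≤ c * r := by
  have h1 := Finset.sum_mul_sq_le_sq_mul_sq Finset.univ a x
  rw [hx] at h1
  have h2 : (∑ k, a k * x k) ^ 2 ≤ (c * r) ^ 2 := by
    rw [mul_pow]
    exact h1.trans (mul_le_mul_of_nonneg_right ha (sq_nonneg r))
  exact abs_le_of_sq_le_sq h2 (by positivity)

theorem row_cmp {n : ℕ} (a x : Fin n → ℝ) (ha : ∑ k, a k ^ 2 ≤ 1) {σ R ρ : ℝ} (hσ : 0 < σ)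
    (hR : 1 ≤ R) (hσR : σ ≤ R) (hx : (1 / (2 * R)) ^ 2 ≤ ∑ k, x k ^ 2) (hρ : 0 < ρ)
    (hρ4 : ρ ≤ 1 / 4) (hκ : 520 * ρ * R ^ 2 / σ ^ 2 ≤ 1) :
    rowm n {g | |(∑ k, (a k + σ * g k) * x k) - 1| ≤ 2 * ρ} ≤
      ENNReal.ofReal (520 * ρ * R ^ 2 / σ ^ 2) *
        rowm n {g | ∑ k, (a k + σ * g k) * x k ≤ 1 + 2 * ρ}ᶜ := by
  have hR0 : 0 < R := by linarith
  have hsum0 : 0 ≤ ∑ k, x k ^ 2 := Finset.sum_nonneg fun k _ => sq_nonneg _
  set r := Real.sqrt (∑ k, x k ^ 2) with hr_def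
  have hr2 : ∑ k, x k ^ 2 = r ^ 2 := (Real.sq_sqrt hsum0).symm
  have hrR : 1 / (2 * R) ≤ r := Real.le_sqrt_of_sq_le hx
  have hr : 0 < r := lt_of_lt_of_le (by positivity) hrR
  have h2Rr : 1 ≤ 2 * R * r := by
    rw [div_le_iff₀ (by positivity)] at hrR
    linarith
  have hμ : |∑ k, a k * x k| ≤ r := by
    have := RowCmp_cs a x (c := 1) zero_le_one hr (by simpa using ha) hr2
    simpa using this
  set μ := ∑ k, a k * x k with hμ_def
  have hμ1 := (abs_le.1 hμ).1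
  have hs : 0 < σ * r := mul_pos hσ hr
  set b := (1 + 2 * ρ - μ) / (σ * r) with hb_def
  set δ := 4 * ρ / (σ * r) with hδ_def
  have hδ : 0 < δ := by positivity
  -- bounds
  have hbs : b * (σ * r) = 1 + 2 * ρ - μ := by
    rw [hb_def]
    field_simp
  have hδs : δ * (σ * r) = 4 * ρ := by
    rw [hδ_def]
    field_simp
  have hb4 : b ≤ 4 * R / σ := by
    rw [le_div_iff₀ hσ]
    have h3 : b * σ * r ≤ 4 * R * r := by
      have : b * σ * r = 1 + 2 * ρ - μ := by rw [← hbs]; ring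
      rw [this]
      nlinarith
    exact le_of_mul_le_mul_right h3 hr
  have hδ8 : δ ≤ 8 * ρ * R / σ := by
    rw [le_div_iff₀ hσ]
    have h3 : δ * σ * r ≤ 8 * ρ * R * r := by
      have : δ * σ * r = 4 * ρ := by rw [← hδs]; ring
      rw [this]
      nlinarith
    exact le_of_mul_le_mul_right h3 hr
  have hmax : max 1 b ≤ 4 * R / σ := by
    refine max_le ?_ hb4
    rw [le_div_iff₀ hσ]
    linarith
  have hκ' : 520 * (ρ * R ^ 2 / σ ^ 2) ≤ 1 := by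
    have : 520 * (ρ * R ^ 2 / σ ^ 2) = 520 * ρ * R ^ 2 / σ ^ 2 := by ring
    rw [this]
    exact hκ
  have hq0 : 0 ≤ ρ * R ^ 2 / σ ^ 2 := by positivity
  have hprod : δ * max 1 b ≤ 32 * (ρ * R ^ 2 / σ ^ 2) := by
    calc δ * max 1 b ≤ (8 * ρ * R / σ) * (4 * R / σ) :=
          mul_le_mul hδ8 hmax (le_trans zero_le_one (le_max_left _ _)) (by positivity)
      _ = 32 * (ρ * R ^ 2 / σ ^ 2) := by
          field_simp
          ring
  have hδb : δ * b ≤ 1 := by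
    have h3 : δ * b ≤ δ * max 1 b := mul_le_mul_of_nonneg_left (le_max_right _ _) hδ.le
    linarith
  -- the events
  have e1 : {g : Fin n → ℝ | |(∑ k, (a k + σ * g k) * x k) - 1| ≤ 2 * ρ} =
      {g | (∑ k, g k * x k) / r ∈ Set.Icc (b - δ) b} := by
    ext g
    simp only [Set.mem_setOf_eq, Set.mem_Icc]
    rw [RowCmp_expand a x g σ r hr, ← hμ_def, abs_le]
    set N := (∑ k, g k * x k) / r
    have h4 : b - δ ≤ N ↔ (b - δ) * (σ * r) ≤ N * (σ * r) := (mul_le_mul_iff_left₀ hs).symm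
    have h5 : N ≤ b ↔ N * (σ * r) ≤ b * (σ * r) := (mul_le_mul_iff_left₀ hs).symm
    rw [h4, h5, sub_mul, hbs, hδs]
    constructor
    · rintro ⟨h6, h7⟩
      constructor <;> linarith
    · rintro ⟨h6, h7⟩
      constructor <;> linarith
  have e2 : {g : Fin n → ℝ | ∑ k, (a k + σ * g k) * x k ≤ 1 + 2 * ρ}ᶜ =
      {g | (∑ k, g k * x k) / r ∈ Set.Ioi b} := by
    ext g
    simp only [Set.mem_compl_iff, Set.mem_setOf_eq, Set.mem_Ioi, not_le]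
    rw [RowCmp_expand a x g σ r hr, ← hμ_def]
    set N := (∑ k, g k * x k) / r
    have h5 : b < N ↔ b * (σ * r) < N * (σ * r) := (mul_lt_mul_iff_left₀ hs).symm
    rw [h5, hbs]
    constructor
    · intro h6
      linarith
    · intro h6
      linarith
  rw [e1, e2, row_law x r hr hr2 measurableSet_Icc, row_law x r hr hr2 measurableSet_Ioi]
  refine (gauss_strip hδ.le hδb).trans ?_
  refine mul_le_mul_left (ENNReal.ofReal_le_ofReal ?_) _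
  have h8 : 520 * ρ * R ^ 2 / σ ^ 2 = 520 * (ρ * R ^ 2 / σ ^ 2) := by ring
  rw [h8]
  have h9 : 13 * δ * max 1 b = 13 * (δ * max 1 b) := by ring
  rw [h9]
  linarith

theorem row_low {n : ℕ} (a y : Fin n → ℝ) {σ : ℝ} (hσ : 0 < σ) (ha : ∑ k, a k ^ 2 ≤ σ ^ 2)
    (hy : 9 / 16 ≤ ∑ k, y k ^ 2) :
    rowm n {g | ∑ k, (a k + σ * g k) * y k ≤ σ / 2} ≤ ENNReal.ofReal (199 / 200) := by
  have hsum0 : 0 ≤ ∑ k, y k ^ 2 := Finset.sum_nonneg fun k _ => sq_nonneg _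
  set r := Real.sqrt (∑ k, y k ^ 2) with hr_def
  have hr2 : ∑ k, y k ^ 2 = r ^ 2 := (Real.sq_sqrt hsum0).symm
  have hr34 : 3 / 4 ≤ r := Real.le_sqrt_of_sq_le (by norm_num; linarith)
  have hr : 0 < r := by linarith
  have hμ : |∑ k, a k * y k| ≤ σ * r := RowCmp_cs a y hσ.le hr ha hr2
  have hμ1 := (abs_le.1 hμ).1
  have hsub : {g : Fin n → ℝ | ∑ k, (a k + σ * g k) * y k ≤ σ / 2} ⊆
      {g | (∑ k, g k * y k) / r ∈ Set.Iic 2} := by
    intro g hg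
    rw [Set.mem_setOf_eq, RowCmp_expand a y g σ r hr] at hg
    rw [Set.mem_setOf_eq, Set.mem_Iic]
    set N := (∑ k, g k * y k) / r
    have h1 : σ * r * N ≤ σ * r * 2 := by nlinarith
    exact le_of_mul_le_mul_left h1 (mul_pos hσ hr)
  refine (measure_mono hsub).trans ?_
  rw [row_law y r hr hr2 measurableSet_Iic]
  exact gauss_iic_two

end H44SD
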