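import Pool.Agent.H44.SD.TriPts

/-!
Project SD (MP_43ee49_co), helper44, module Thin: a finite set without three points in general
position is covered by few small pieces.

`N` is a finite set in the cube of radius `X`; for all `i ≠ j` and all triples of points of `N`,
`|det3 i j x| < α`, where `α ≤ δ^2 / 4`. If `8 X / δ < K` there is `f : (Fin n → ℝ) → Fin K` such that
points of `N` with the same value of `f` are at sup-distance at most `δ`.

Proof. `K ≥ 1`. If all sup-distances between points of `N` are `≤ δ` let `f` be constant (this includes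
`N` empty). Otherwise choose `x0, x1 ∈ N` and a coordinate `i` with `D = |x1 i - x0 i|` maximal among all
pairs of points and all coordinates; `D > δ`. For `x ∈ N` let `t x = (x i - x0 i) / (x1 i - x0 i)`,
`|t x| ≤ 1` by maximality. For every `k`, `|(x k - x0 k) - t x * (x1 k - x0 k)| ≤ α / D`
(for `k ≠ i` this is `|det3| < α` divided by `D`; for `k = i` it is `0`).
Let `η = δ / (4 X)` and `f x = ⌊(t x + 1) / η⌋ ∈ {0, ..., ⌊8 X / δ⌋}`. If `f x = f y` then
`|t x - t y| ≤ η` and `|x k - y k| ≤ η * |x1 k - x0 k| + 2 α / D ≤ η * 2 X + 2 α / δ ≤ δ / 2 + δ / 2`.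
-/

namespace H44SD

open Finset

theorem thin_cover {n : ℕ} (N : Set (Fin n → ℝ)) (hfin : N.Finite) {X α δ : ℝ}
    (hV : ∀ x ∈ N, ∀ k, |x k| ≤ X) (hX : 0 < X) (hδ : 0 < δ) (hαδ : α ≤ δ ^ 2 / 4)
    (hnb : ∀ i j, i ≠ j → ∀ x : Fin 3 → Fin n → ℝ, (∀ l, x l ∈ N) → |det3 i j x| < α)
    (K : ℕ) (hK : 8 * X / δ < K) :
    ∃ f : (Fin n → ℝ) → Fin K, ∀ x ∈ N, ∀ y ∈ N, f x = f y → ∀ k, |x k - y k| ≤ δ := by
  classical
  have hK0 : 0 < K := by
    have h1 : 0 < 8 * X / δ := by positivity
    have h2 : (0 : ℝ) < K := h1.trans hK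
    exact_mod_cast h2
  by_cases hall : ∀ x ∈ N, ∀ y ∈ N, ∀ k, |x k - y k| ≤ δ
  · exact ⟨fun _ => ⟨0, hK0⟩, fun x hx y hy _ k => hall x hx y hy k⟩
  push Not at hall
  obtain ⟨a, ha, b, hb, k₁, hk₁⟩ := hall
  set T := (hfin.toFinset ×ˢ hfin.toFinset) ×ˢ (univ : Finset (Fin n)) with hT
  have hTne : T.Nonempty := ⟨((a, b), k₁), by simp [hT, ha, hb]⟩
  obtain ⟨⟨⟨x0, x1⟩, i⟩, hmem, hmax⟩ := T.exists_max_image
    (fun p => |p.1.2 p.2 - p.1.1 p.2|) hTne
  have hx0 : x0 ∈ N := by
    simp only [hT, mem_product, Set.Finite.mem_toFinset] at hmem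
    exact hmem.1.1
  have hx1 : x1 ∈ N := by
    simp only [hT, mem_product, Set.Finite.mem_toFinset] at hmem
    exact hmem.1.2
  have hmax' : ∀ x ∈ N, ∀ y ∈ N, ∀ k, |y k - x k| ≤ |x1 i - x0 i| := by
    intro x hx y hy k
    exact hmax ((x, y), k) (by simp [hT, hx, hy])
  have hD : δ < |x1 i - x0 i| := lt_of_lt_of_le hk₁ (hmax' b hb a ha k₁)
  set d := x1 i - x0 i with hd
  have hd0 : 0 < |d| := hδ.trans hD
  have hdne : d ≠ 0 := abs_pos.1 hd0
  set t : (Fin n → ℝ) → ℝ := fun x => (x i - x0 i) / d with ht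
  have ht1 : ∀ x ∈ N, |t x| ≤ 1 := by
    intro x hx
    rw [ht]
    simp only
    rw [abs_div, div_le_one hd0]
    exact hmax' x0 hx0 x hx i
  set η := δ / (4 * X) with hη
  have hη0 : 0 < η := by positivity
  have hrange : ∀ x ∈ N, 0 ≤ (t x + 1) / η ∧ (t x + 1) / η < K := by
    intro x hx
    have h1 := abs_le.1 (ht1 x hx)
    refine ⟨div_nonneg (by linarith [h1.1]) hη0.le, lt_of_le_of_lt ?_ hK⟩
    have h2 : 8 * X / δ = 2 / η := by
      rw [hη]
      field_simp
      ring
    rw [h2]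
    exact div_le_div_of_nonneg_right (by linarith [h1.2]) hη0.le
  have hfl : ∀ x ∈ N, ⌊(t x + 1) / η⌋₊ < K := by
    intro x hx
    obtain ⟨h1, h2⟩ := hrange x hx
    exact (Nat.floor_lt h1).2 h2
  refine ⟨fun x => ⟨min ⌊(t x + 1) / η⌋₊ (K - 1), by omega⟩, ?_⟩
  intro x hx y hy hxy k
  have h1 := hfl x hx
  have h2 := hfl y hy
  have h3 : ⌊(t x + 1) / η⌋₊ = ⌊(t y + 1) / η⌋₊ := by
    have h4 := congrArg Fin.val hxy
    simp only at h4
    omega
  have h4 : |t x - t y| ≤ η := by
    have e1 := Nat.floor_le (hrange x hx).1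
    have e2 := Nat.lt_floor_add_one ((t x + 1) / η)
    have e3 := Nat.floor_le (hrange y hy).1
    have e4 := Nat.lt_floor_add_one ((t y + 1) / η)
    rw [h3] at e1 e2
    have e5 : |(t x + 1) / η - (t y + 1) / η| ≤ 1 := by
      rw [abs_le]
      constructor <;> linarith
    have e6 : (t x + 1) / η - (t y + 1) / η = (t x - t y) / η := by ring
    rw [e6, abs_div, abs_of_pos hη0, div_le_one hη0] at e5
    exact e5
  have hX1 : ∀ k, |x1 k - x0 k| ≤ 2 * X := by
    intro k
    have e1 := abs_le.1 (hV x1 hx1 k)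
    have e2 := abs_le.1 (hV x0 hx0 k)
    rw [abs_le]
    constructor <;> linarith [e1.1, e1.2, e2.1, e2.2]
  have hmain : |(t x - t y) * (x1 k - x0 k)| ≤ δ / 2 := by
    rw [abs_mul]
    calc |t x - t y| * |x1 k - x0 k| ≤ η * (2 * X) :=
          mul_le_mul h4 (hX1 k) (abs_nonneg _) hη0.le
      _ = δ / 2 := by
          rw [hη]
          field_simp
          ring
  by_cases hki : k = i
  · have e1 : x k - y k = (t x - t y) * (x1 k - x0 k) := by
      rw [hki, ht]
      simp only
      rw [← hd]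
      field_simp
      ring
    rw [e1]
    linarith
  · have hdet : ∀ z ∈ N, |(z k - x0 k) - t z * (x1 k - x0 k)| ≤ α / δ := by
      intro z hz
      have e1 := hnb i k (Ne.symm hki) ![x0, x1, z] (by
        intro l
        fin_cases l
        · exact hx0
        · exact hx1
        · exact hz)
      have e2 : det3 i k ![x0, x1, z] = d * ((z k - x0 k) - t z * (x1 k - x0 k)) := by
        unfold det3
        simp only [Matrix.cons_val_zero, Matrix.cons_val_one, Matrix.cons_val]
        rw [ht]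
        simp only
        field_simp
        rw [hd]
        ring
      rw [e2, abs_mul] at e1
      have hα0 : 0 < α := lt_of_le_of_lt (by positivity) e1
      have e3 : |(z k - x0 k) - t z * (x1 k - x0 k)| ≤ α / |d| := by
        rw [le_div_iff₀ hd0]
        linarith
      exact e3.trans (div_le_div_of_nonneg_left hα0.le hδ hD.le)
    have e1 := hdet x hx
    have e2 := hdet y hy
    have e3 : x k - y k = ((x k - x0 k) - t x * (x1 k - x0 k)) -
        ((y k - x0 k) - t y * (x1 k - x0 k)) + (t x - t y) * (x1 k - x0 k) := by ring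
    have e4 : α / δ ≤ δ / 4 := by
      rw [div_le_iff₀ hδ]
      nlinarith
    rw [e3]
    rw [abs_le] at *
    constructor <;> linarith [e1.1, e1.2, e2.1, e2.2, hmain.1, hmain.2]

end H44SD
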