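import Pool.Agent.H44.SD.Defs

/-!
Project SD (MP_43ee49_co), helper44, module TriPts: three points of the plane and the closeness lemma.

`NearOpt V w h`: points of `V` which are optimal for `w` up to `h`.

* `tri_ineq` (plane, no polyhedra). Points `(a l, b l)`, `l : Fin 3`, in the square of radius `X`,
  determinant `D = (a 1 - a 0)(b 2 - b 0) - (b 1 - b 0)(a 2 - a 0)`, `α ≤ |D|`, `0 < α`, `0 < X`.
  For all `e, f` some `l` has
  `α / (12 X) * max |e| |f| ≤ e (a l) + f (b l) - (e ca + f cb)`, with `(ca, cb)` the centroid.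
  Proof: let `μ` be the maximum over `l` of `q l = e (a l) + f (b l) - (e ca + f cb)`. The `q l` have sum
  `0` and are `≤ μ`, so they are `≥ -2 μ`, and the differences `P = e (a 1 - a 0) + f (b 1 - b 0)` and
  `Q = e (a 2 - a 0) + f (b 2 - b 0)` have absolute value `≤ 3 μ`. By Cramer
  `e D = P (b 2 - b 0) - Q (b 1 - b 0)`, `f D = Q (a 1 - a 0) - P (a 2 - a 0)`, and the coefficients have
  absolute value `≤ 2 X`: so `|e| α ≤ 12 X μ`, `|f| α ≤ 12 X μ`.
* `bad_close`: `w, w'` agree outside the coordinates `i ≠ j`; `x l ∈ NearOpt V w h`,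
  `x' l ∈ NearOpt V w' h` (`l : Fin 3`), both determinants (coordinates `i, j`) at least `α` in absolute
  value; centroids at `l1` distance at most `r = α / (12 X)`. Then `|w' i - w i|` and `|w' j - w j|` are at
  most `24 h X / α = 2 h / r`. Proof: let `e = w' i - w i`, `f = w' j - w j`, `M = max |e| |f|`. For
  every `l`, `dot w' (x' 0) + h ≥ dot w' (x l)` (definition of `NearOpt V w' h` for `x' 0`; any
  `x' k` in place of `x' 0`), i.e. comparing the three points `x' k` with the point `x l`: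
  choose `l` by `tri_ineq` for `(e, f)` and the points `x l`: `dot w' (x l) = dot w (x l) + e x_i + f x_j
  ≥ dot w (x l) + e ca + f cb + r M`. Choose `k` by `tri_ineq` for `(-e, -f)` and the points `x' k`:
  `dot w (x' k) ≥ dot w' (x' k) - e ca' - f cb' + r M`. Also `dot w (x' k) ≤ dot w (x l) + h` and
  `dot w' (x l) ≤ dot w' (x' k) + h`. Sum: `2 r M ≤ 2 h + e (ca' - ca) + f (cb' - cb) ≤ 2 h + M r`.
-/

namespace H44SD

open Finset

/-- points of `V` which are optimal for `w` up to `h` -/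
def NearOpt {n : ℕ} (V : Set (Fin n → ℝ)) (w : Fin n → ℝ) (h : ℝ) : Set (Fin n → ℝ) :=
  {x | x ∈ V ∧ ∀ y ∈ V, dot w y ≤ dot w x + h}

/-- determinant of three points in the coordinates `i`, `j` -/
def det3 {n : ℕ} (i j : Fin n) (x : Fin 3 → Fin n → ℝ) : ℝ :=
  (x 1 i - x 0 i) * (x 2 j - x 0 j) - (x 1 j - x 0 j) * (x 2 i - x 0 i)

/-- `w` is bad for `(i, j)`: three nearly optimal points are in general position -/
def Bad {n : ℕ} (V : Set (Fin n → ℝ)) (i j : Fin n) (α h : ℝ) (w : Fin n → ℝ) : Prop :=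
  ∃ x : Fin 3 → Fin n → ℝ, (∀ l, x l ∈ NearOpt V w h) ∧ α ≤ |det3 i j x|

/-- coordinate `k` of the centroid -/
noncomputable def cen {n : ℕ} (x : Fin 3 → Fin n → ℝ) (k : Fin n) : ℝ := (x 0 k + x 1 k + x 2 k) / 3

theorem tri_ineq (a b : Fin 3 → ℝ) {X α : ℝ} (hX : 0 < X) (hα : 0 < α) (ha : ∀ l, |a l| ≤ X)
    (hb : ∀ l, |b l| ≤ X)
    (hd : α ≤ |(a 1 - a 0) * (b 2 - b 0) - (b 1 - b 0) * (a 2 - a 0)|) (e f : ℝ) :
    ∃ l, α / (12 * X) * max |e| |f| ≤ e * a l + f * b l -
      (e * ((a 0 + a 1 + a 2) / 3) + f * ((b 0 + b 1 + b 2) / 3)) := by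
  by_contra hcon
  push Not at hcon
  set M := max |e| |f| with hM
  set μ := α / (12 * X) * M with hμ
  have hM0 : 0 ≤ M := le_max_of_le_left (abs_nonneg e)
  have h0 := hcon 0
  have h1 := hcon 1
  have h2 := hcon 2
  have hμα : 12 * X * μ = α * M := by
    rw [hμ]
    field_simp
  have hP : |e * (a 1 - a 0) + f * (b 1 - b 0)| < 3 * μ := by
    rw [abs_lt]
    constructor <;> nlinarith
  have hQ : |e * (a 2 - a 0) + f * (b 2 - b 0)| < 3 * μ := by
    rw [abs_lt]
    constructor <;> nlinarith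
  set P := e * (a 1 - a 0) + f * (b 1 - b 0) with hPd
  set Q := e * (a 2 - a 0) + f * (b 2 - b 0) with hQd
  set D := (a 1 - a 0) * (b 2 - b 0) - (b 1 - b 0) * (a 2 - a 0) with hDd
  have dif : ∀ (c : Fin 3 → ℝ), (∀ l, |c l| ≤ X) → ∀ l, |c l - c 0| ≤ 2 * X := by
    intro c hc l
    have u1 := abs_le.mp (hc l)
    have u2 := abs_le.mp (hc 0)
    rw [abs_le]
    constructor <;> linarith [u1.1, u1.2, u2.1, u2.2]
  have gen : ∀ (g u v : ℝ), g * D = P * u - Q * v → |u| ≤ 2 * X → |v| ≤ 2 * X → |g| < M := by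
    intro g u v hg hu hv
    have hμ3 : 0 < 3 * μ := lt_of_le_of_lt (abs_nonneg _) hP
    have t1 : |g| * α ≤ |g| * |D| := mul_le_mul_of_nonneg_left hd (abs_nonneg _)
    have t2 : |g| * |D| ≤ |P| * |u| + |Q| * |v| := by
      rw [← abs_mul, hg, ← abs_mul, ← abs_mul]
      exact abs_sub _ _
    have t3 : |P| * |u| ≤ |P| * (2 * X) := mul_le_mul_of_nonneg_left hu (abs_nonneg _)
    have t4 : |Q| * |v| ≤ |Q| * (2 * X) := mul_le_mul_of_nonneg_left hv (abs_nonneg _)
    have t5 : |P| * (2 * X) < 3 * μ * (2 * X) := mul_lt_mul_of_pos_right hP (by linarith)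
    have t6 : |Q| * (2 * X) < 3 * μ * (2 * X) := mul_lt_mul_of_pos_right hQ (by linarith)
    have t7 : |g| * α < M * α := by nlinarith
    exact lt_of_mul_lt_mul_right t7 hα.le
  have he : |e| < M := gen e (b 2 - b 0) (b 1 - b 0) (by rw [hPd, hQd, hDd]; ring)
    (dif b hb 2) (dif b hb 1)
  have hf : |f| < M := gen f (-(a 2 - a 0)) (-(a 1 - a 0)) (by rw [hPd, hQd, hDd]; ring)
    (by rw [abs_neg]; exact dif a ha 2) (by rw [abs_neg]; exact dif a ha 1)
  exact absurd (max_lt he hf) (lt_irrefl M)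

theorem bad_close {n : ℕ} {V : Set (Fin n → ℝ)} {X α h : ℝ} (hV : ∀ x ∈ V, ∀ k, |x k| ≤ X)
    (hX : 0 < X) (hα : 0 < α) {i j : Fin n} (hij : i ≠ j) {w w' : Fin n → ℝ}
    (hww : ∀ k, k ≠ i → k ≠ j → w k = w' k) {x x' : Fin 3 → Fin n → ℝ}
    (hx : ∀ l, x l ∈ NearOpt V w h) (hx' : ∀ l, x' l ∈ NearOpt V w' h)
    (hd : α ≤ |det3 i j x|) (hd' : α ≤ |det3 i j x'|)
    (hc : |cen x i - cen x' i| + |cen x j - cen x' j| ≤ α / (12 * X)) :
    |w i - w' i| ≤ 24 * h * X / α ∧ |w j - w' j| ≤ 24 * h * X / α := by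
  set e := w' i - w i with he
  set f := w' j - w j with hf
  have hdot : ∀ y : Fin n → ℝ, dot w' y = dot w y + e * y i + f * y j := by
    intro y
    have h1 : dot w' y - dot w y = ∑ k, (w' k - w k) * y k := by
      unfold dot
      rw [← Finset.sum_sub_distrib]
      exact Finset.sum_congr rfl fun k _ => by ring
    have h2 : ∑ k, (w' k - w k) * y k = (w' i - w i) * y i + (w' j - w j) * y j := by
      rw [← Finset.sum_pair hij (f := fun k => (w' k - w k) * y k)]
      symm
      refine Finset.sum_subset (Finset.subset_univ _) fun k _ hk => ?_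
      have h3 : k ≠ i ∧ k ≠ j := by
        constructor
        · intro h
          exact hk (by simp [h])
        · intro h
          exact hk (by simp [h])
      rw [hww k h3.1 h3.2]
      ring
    rw [h2] at h1
    linarith
  set M := max |e| |f| with hM
  have hr : 0 < α / (12 * X) := by positivity
  obtain ⟨l, hl⟩ := tri_ineq (fun l => x l i) (fun l => x l j) hX hα
    (fun l => hV _ (hx l).1 i) (fun l => hV _ (hx l).1 j) hd e f
  obtain ⟨k, hk⟩ := tri_ineq (fun l => x' l i) (fun l => x' l j) hX hα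
    (fun l => hV _ (hx' l).1 i) (fun l => hV _ (hx' l).1 j) hd' (-e) (-f)
  rw [abs_neg, abs_neg] at hk
  have h1 := (hx l).2 _ (hx' k).1
  have h2 := (hx' k).2 _ (hx l).1
  rw [hdot, hdot (x' k)] at h2
  have hcx : ∀ (z : Fin 3 → Fin n → ℝ) (m : Fin n), cen z m = (z 0 m + z 1 m + z 2 m) / 3 :=
    fun _ _ => rfl
  have b1 : e * (cen x' i - cen x i) ≤ M * |cen x i - cen x' i| := by
    calc e * (cen x' i - cen x i) ≤ |e * (cen x' i - cen x i)| := le_abs_self _
      _ = |e| * |cen x i - cen x' i| := by rw [abs_mul, abs_sub_comm (cen x' i)]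
      _ ≤ M * |cen x i - cen x' i| :=
          mul_le_mul_of_nonneg_right (le_max_left _ _) (abs_nonneg _)
  have b2 : f * (cen x' j - cen x j) ≤ M * |cen x j - cen x' j| := by
    calc f * (cen x' j - cen x j) ≤ |f * (cen x' j - cen x j)| := le_abs_self _
      _ = |f| * |cen x j - cen x' j| := by rw [abs_mul, abs_sub_comm (cen x' j)]
      _ ≤ M * |cen x j - cen x' j| :=
          mul_le_mul_of_nonneg_right (le_max_right _ _) (abs_nonneg _)
  have hM0 : 0 ≤ M := le_max_of_le_left (abs_nonneg e)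
  have b3 : M * |cen x i - cen x' i| + M * |cen x j - cen x' j| ≤ M * (α / (12 * X)) := by
    rw [← mul_add]
    exact mul_le_mul_of_nonneg_left hc hM0
  have b4 : 2 * (α / (12 * X) * M) ≤ 2 * h + M * (α / (12 * X)) := by
    have c1 : α / (12 * X) * M ≤ e * x l i + f * x l j - (e * cen x i + f * cen x j) := hl
    have c2 : α / (12 * X) * M ≤ -e * x' k i + -f * x' k j - (-e * cen x' i + -f * cen x' j) := hk
    nlinarith
  have b5 : M * α ≤ 24 * h * X := by
    have c3 : α / (12 * X) * M ≤ 2 * h := by linarith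
    have c4 : α / (12 * X) * M * (12 * X) ≤ 2 * h * (12 * X) :=
      mul_le_mul_of_nonneg_right c3 (by positivity)
    have c5 : α / (12 * X) * M * (12 * X) = M * α := by
      field_simp
    rw [c5] at c4
    linarith
  have b6 : M ≤ 24 * h * X / α := by
    rw [le_div_iff₀ hα]
    exact b5
  constructor
  · rw [abs_sub_comm]
    exact (le_max_left _ _).trans b6
  · rw [abs_sub_comm]
    exact (le_max_right _ _).trans b6

end H44SD
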