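import Pool.Agent.H44.SD.Defs

/-!
Project SD (MP_43ee49_co), helper44, module VertBasic: vertices and tight rows.

* `mem_vert_iff`: `x` is an extreme point of `poly A` iff `x ∈ poly A` and only `d = 0` is orthogonal to
  all rows tight at `x`. (→) if `d ≠ 0` is orthogonal to the tight rows then `x ± ε d ∈ poly A` for small
  `ε > 0` (finitely many rows, those which are not tight have slack) and `x` is in the open segment.
  (←) if `x` is in the open segment of `y, z ∈ poly A` then for tight rows `dot (A i) y = 1`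
  (a convex combination with positive weights of two numbers `≤ 1` is `1`), so `y - x` is orthogonal to
  the tight rows, `y = x`.
* `vert_eq_of_subset`: `x - y` is orthogonal to the rows tight at `x`.
* `vert_card`: the linear map `d ↦ (dot (A i) d)_{i tight}` from `Fin n → ℝ` is injective, so
  `n ≤ card`; `≤` is `Nondeg`.
* `exists_dir`: this map is then bijective onto `(tight A x → ℝ)` (equal finite dimensions).
* `exists_coef`: the `n` tight rows span `Fin n → ℝ`: if `w` were not in the span of the tight rows then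
  the span is a proper subspace and some `d ≠ 0` has `dot (A i) d = 0` for all tight `i`; or: the transpose
  map `c ↦ ∑ c i • A i` from `(tight A x → ℝ)` is injective by `exists_dir` (pair with `d_i`), hence
  surjective since the dimensions agree (`vert_card`).
-/

namespace H44SD

open Finset

variable {m n : ℕ} {A : Fin m → Fin n → ℝ}

private def VertBasic_lin {n : ℕ} (v : Fin n → ℝ) : (Fin n → ℝ) →ₗ[ℝ] ℝ where
  toFun := dot v
  map_add' := dot_add v
  map_smul' := fun c x => by simpa using dot_smul v x c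

private def VertBasic_map {m n : ℕ} (A : Fin m → Fin n → ℝ) (x : Fin n → ℝ) :
    (Fin n → ℝ) →ₗ[ℝ] (↥(tight A x) → ℝ) :=
  LinearMap.pi fun i => VertBasic_lin (A i)

private theorem VertBasic_dot_sum {n : ℕ} {ι : Type*} (s : Finset ι) (v : Fin n → ℝ)
    (x : ι → Fin n → ℝ) : dot v (∑ i ∈ s, x i) = ∑ i ∈ s, dot v (x i) :=
  map_sum (VertBasic_lin v) x s

private theorem VertBasic_step {x : Fin n → ℝ} (hx : x ∈ poly A) {d : Fin n → ℝ}
    (hd : ∀ i ∈ tight A x, dot (A i) d = 0) :
    ∀ᶠ e : ℝ in nhdsWithin 0 (Set.Ioi 0), x + e • d ∈ poly A := by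
  have hev : ∀ j, ∀ᶠ e : ℝ in nhdsWithin 0 (Set.Ioi 0), dot (A j) (x + e • d) ≤ 1 := by
    intro j
    by_cases hj : j ∈ tight A x
    · refine Filter.Eventually.of_forall fun e => ?_
      rw [dot_add, dot_smul, hd j hj, mem_tight.mp hj]
      simp
    · have hlt : dot (A j) x < 1 := lt_of_le_of_ne (hx j) fun h => hj (mem_tight.mpr h)
      have hcont : Continuous fun e : ℝ => dot (A j) x + e * dot (A j) d := by fun_prop
      have h0 : Filter.Tendsto (fun e : ℝ => dot (A j) x + e * dot (A j) d)
          (nhdsWithin 0 (Set.Ioi 0)) (nhds (dot (A j) x + 0 * dot (A j) d)) :=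
        (hcont.tendsto 0).mono_left nhdsWithin_le_nhds
      have h1' : ∀ᶠ e : ℝ in nhdsWithin 0 (Set.Ioi 0), dot (A j) x + e * dot (A j) d < 1 :=
        (tendsto_order.mp h0).2 1 (by rw [zero_mul, add_zero]; exact hlt)
      refine h1'.mono fun e he => ?_
      rw [dot_add, dot_smul]
      exact he.le
  exact (Filter.eventually_all.mpr hev).mono fun e he => he

theorem mem_vert_iff (A : Fin m → Fin n → ℝ) (x : Fin n → ℝ) :
    x ∈ Vert A ↔ x ∈ poly A ∧ ∀ d : Fin n → ℝ, (∀ i ∈ tight A x, dot (A i) d = 0) → d = 0 := by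
  unfold Vert
  rw [mem_extremePoints]
  constructor
  · rintro ⟨hx, hext⟩
    refine ⟨hx, fun d hd => ?_⟩
    have hd' : ∀ i ∈ tight A x, dot (A i) (-d) = 0 := by
      intro i hi
      rw [← neg_one_smul ℝ d, dot_smul, hd i hi, mul_zero]
    obtain ⟨e, ⟨h1, h2⟩, he⟩ :=
      (((VertBasic_step hx hd).and (VertBasic_step hx hd')).and self_mem_nhdsWithin).exists
    have he' : 0 < e := he
    have hseg : x ∈ openSegment ℝ (x + e • d) (x + e • (-d)) := by
      refine ⟨1 / 2, 1 / 2, by norm_num, by norm_num, by norm_num, ?_⟩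
      ext k
      simp only [Pi.add_apply, Pi.smul_apply, Pi.neg_apply, smul_eq_mul]
      ring
    have h3 := (hext _ h1 _ h2 hseg).1
    have h4 : e • d = 0 := by
      have h5 : x + e • d = x + 0 := by rw [h3, add_zero]
      exact add_left_cancel h5
    exact (smul_eq_zero.mp h4).resolve_left he'.ne'
  · rintro ⟨hx, h⟩
    refine ⟨hx, ?_⟩
    have key : ∀ y ∈ poly A, ∀ z ∈ poly A, ∀ a b : ℝ, 0 < a → 0 < b → a + b = 1 →
        a • y + b • z = x → y = x := by
      intro y hy z hz a b ha hb hab hxe
      have h1 : y - x = 0 := by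
        apply h
        intro i hi
        have h2 := mem_tight.mp hi
        rw [← hxe, dot_add, dot_smul, dot_smul] at h2
        have h3 : dot (A i) y ≤ 1 := hy i
        have h4 : dot (A i) z ≤ 1 := hz i
        rw [dot_sub, mem_tight.mp hi]
        nlinarith
      exact sub_eq_zero.mp h1
    intro y hy z hz hseg
    obtain ⟨a, b, ha, hb, hab, hxe⟩ := hseg
    refine ⟨key y hy z hz a b ha hb hab hxe, key z hz y hy b a hb ha (by linarith) ?_⟩
    rw [add_comm]
    exact hxe

theorem vert_eq_of_subset {x y : Fin n → ℝ} (hx : x ∈ Vert A) (h : tight A x ⊆ tight A y) :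
    x = y := by
  have h1 := ((mem_vert_iff A x).mp hx).2 (x - y) (fun i hi => by
    rw [dot_sub, mem_tight.mp hi, mem_tight.mp (h hi), sub_self])
  exact sub_eq_zero.mp h1

private theorem VertBasic_inj {x : Fin n → ℝ} (hx : x ∈ Vert A) :
    Function.Injective (VertBasic_map A x) := by
  rw [← LinearMap.ker_eq_bot, LinearMap.ker_eq_bot']
  intro d hd
  refine ((mem_vert_iff A x).mp hx).2 d fun i hi => ?_
  exact congrFun hd ⟨i, hi⟩

theorem vert_card (hN : Nondeg A) {x : Fin n → ℝ} (hx : x ∈ Vert A) : (tight A x).card = n := by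
  apply le_antisymm (hN x ((mem_vert_iff A x).mp hx).1)
  have h1 := LinearMap.finrank_le_finrank_of_injective (VertBasic_inj hx)
  simpa using h1

theorem exists_dir (hN : Nondeg A) {x : Fin n → ℝ} (hx : x ∈ Vert A) {i : Fin m}
    (hi : i ∈ tight A x) :
    ∃ d : Fin n → ℝ, dot (A i) d = -1 ∧ ∀ j ∈ tight A x, j ≠ i → dot (A j) d = 0 := by
  classical
  have h1 : Function.Surjective (VertBasic_map A x) := by
    rw [← LinearMap.injective_iff_surjective_of_finrank_eq_finrank]
    · exact VertBasic_inj hx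
    · simp [vert_card hN hx]
  obtain ⟨d, hd⟩ := h1 (fun j => if (j : Fin m) = i then -1 else 0)
  refine ⟨d, ?_, ?_⟩
  · have := congrFun hd ⟨i, hi⟩
    simp only [if_true] at this
    exact this
  · intro j hj hji
    have := congrFun hd ⟨j, hj⟩
    simp only [hji, if_false] at this
    exact this

theorem exists_coef (hN : Nondeg A) {x : Fin n → ℝ} (hx : x ∈ Vert A) (w : Fin n → ℝ) :
    ∃ c : Fin m → ℝ, w = ∑ i ∈ tight A x, c i • A i := by
  classical
  have h1 : ∀ i : Fin m, ∃ d : Fin n → ℝ, i ∈ tight A x → dot (A i) d = -1 ∧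
      ∀ j ∈ tight A x, j ≠ i → dot (A j) d = 0 := by
    intro i
    by_cases hi : i ∈ tight A x
    · obtain ⟨d, hd⟩ := exists_dir hN hx hi
      exact ⟨d, fun _ => hd⟩
    · exact ⟨0, fun h => absurd h hi⟩
  choose d hd using h1
  refine ⟨fun i => -dot w (d i), ?_⟩
  set v : Fin n → ℝ := w - ∑ i ∈ tight A x, (-dot w (d i)) • A i with hv
  have hvd : ∀ k ∈ tight A x, dot v (d k) = 0 := by
    intro k hk
    rw [hv, sub_dot, sum_dot, Finset.sum_eq_single_of_mem k hk (fun j hj hjk => by
      rw [smul_dot, (hd k hk).2 j hj hjk, mul_zero]), smul_dot, (hd k hk).1]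
    ring
  have hall : ∀ e : Fin n → ℝ, dot v e = 0 := by
    intro e
    have h2 : e + ∑ i ∈ tight A x, (dot (A i) e) • d i = 0 := by
      refine ((mem_vert_iff A x).mp hx).2 _ fun j hj => ?_
      rw [dot_add, VertBasic_dot_sum, Finset.sum_eq_single_of_mem j hj (fun i hi hij => by
        rw [dot_smul, (hd i hi).2 j hj hij.symm, mul_zero]), dot_smul, (hd j hj).1]
      ring
    have h3 : dot v (e + ∑ i ∈ tight A x, (dot (A i) e) • d i) = 0 := by
      rw [h2, dot_zero]
    rw [dot_add, VertBasic_dot_sum, Finset.sum_eq_zero (fun i hi => by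
      rw [dot_smul, hvd i hi, mul_zero]), add_zero] at h3
    exact h3
  have h4 : v = 0 := by
    have h5 := hall v
    unfold dot at h5
    have h6 := (Finset.sum_eq_zero_iff_of_nonneg (fun i _ => mul_self_nonneg (v i))).mp h5
    ext i
    exact mul_self_eq_zero.mp (h6 i (Finset.mem_univ i))
  exact sub_eq_zero.mp h4

end H44SD
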